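import Pool.Agent.H736Z.Heller.Det

/-! Feasible sets of columns, closure, projections and the counting lemmas. -/

namespace Pool.Agent.H736Z.Heller

open Matrix

set_option linter.unusedSectionVars false

variable {ι : Type} [DecidableEq ι] [Fintype ι]

/-- All square minors with columns taken from `F` lie in `[-1,1]`. -/
def Feas (F : Set (ι → ℝ)) : Prop :=
  ∀ (k : ℕ) (r : Fin k → ι) (c : Fin k → ι → ℝ), (∀ q, c q ∈ F) →
    |(Matrix.of fun p q => c q (r p)).det| ≤ 1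

structure Good (F : Set (ι → ℝ)) : Prop where
  feas : Feas F
  neg : ∀ x ∈ F, -x ∈ F
  mid : ∀ x ∈ F, ∀ y ∈ F, (1 / 2 : ℝ) • (x + y) ∈ F

/-- Closure under negation and midpoints. -/
inductive Cl (B : Set (ι → ℝ)) : (ι → ℝ) → Prop
  | base (x : ι → ℝ) : x ∈ B → Cl B x
  | neg (x : ι → ℝ) : Cl B x → Cl B (-x)
  | mid (x y : ι → ℝ) : Cl B x → Cl B y → Cl B ((1 / 2 : ℝ) • (x + y))

lemma of_update {k : ℕ} (r : Fin k → ι) (c : Fin k → ι → ℝ) (j : Fin k) (x : ι → ℝ) :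
    (Matrix.of fun p q => Function.update c j x q (r p)) =
      (Matrix.of fun p q => c q (r p)).updateCol j (fun p => x (r p)) := by
  ext p q
  by_cases h : q = j
  · subst h; simp
  · simp [h]

lemma feas_cl {B : Set (ι → ℝ)} (hB : Feas B) : Feas {x | Cl B x} := by
  intro k r
  have key : ∀ s : Finset (Fin k), ∀ c : Fin k → ι → ℝ, (∀ q ∈ s, Cl B (c q)) →
      (∀ q, q ∉ s → c q ∈ B) → |(Matrix.of fun p q => c q (r p)).det| ≤ 1 := by
    intro s
    induction s using Finset.induction_on with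
    | empty => intro c _ h2; exact hB k r c (fun q => h2 q (by simp))
    | insert j s hj ih =>
      intro c h1 h2
      have hx : ∀ x, Cl B x →
          |((Matrix.of fun p q => c q (r p)).updateCol j (fun p => x (r p))).det| ≤ 1 := by
        intro x hx
        induction hx with
        | base x hxB =>
          rw [← of_update]
          apply ih
          · intro q hq
            have : q ≠ j := fun h => hj (h ▸ hq)
            rw [Function.update_of_ne this]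
            exact h1 q (Finset.mem_insert_of_mem hq)
          · intro q hq
            by_cases h : q = j
            · subst h; simpa using hxB
            · rw [Function.update_of_ne h]
              exact h2 q (by simp [h, hq])
        | neg x _ ihx =>
          have e : (fun p => (-x) (r p)) = (-1 : ℝ) • (fun p => x (r p)) := by
            ext p; simp
          rw [e, det_updateCol_smul]
          simpa using ihx
        | mid x y _ _ ihx ihy =>
          have e : (fun p => ((1 / 2 : ℝ) • (x + y)) (r p)) =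
              (1 / 2 : ℝ) • ((fun p => x (r p)) + (fun p => y (r p))) := by
            ext p; simp
          rw [e, det_updateCol_smul, det_updateCol_add]
          rw [abs_le] at ihx ihy ⊢
          constructor <;> linarith [ihx.1, ihx.2, ihy.1, ihy.2]
      have := hx (c j) (h1 j (by simp))
      rwa [← of_update, Function.update_eq_self] at this
  intro c hc
  exact key Finset.univ c (fun q _ => hc q) (fun q hq => absurd (Finset.mem_univ q) hq)

lemma good_cl {B : Set (ι → ℝ)} (hB : Feas B) : Good {x | Cl B x} :=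
  ⟨feas_cl hB, fun x hx => Cl.neg x hx, fun x hx y hy => Cl.mid x y hx hy⟩

/-- Replace coordinate `j` by zero. -/
def zer (j : ι) (x : ι → ℝ) : ι → ℝ := Function.update x j 0

@[simp] lemma zer_self (j : ι) (x : ι → ℝ) : zer j x j = 0 := by simp [zer]

lemma zer_ne {j r : ι} (h : r ≠ j) (x : ι → ℝ) : zer j x r = x r := by simp [zer, h]

lemma good_zer {F : Set (ι → ℝ)} (hF : Good F) (j : ι) : Good (zer j '' F) := by
  refine ⟨?_, ?_, ?_⟩
  · intro k r c hc
    choose c' hc' he using hc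
    by_cases h : ∃ p, r p = j
    · obtain ⟨p, hp⟩ := h
      rw [det_eq_zero_of_row_eq_zero p]
      · simp
      · intro q; simp [← he q, hp]
    · push Not at h
      have : (Matrix.of fun p q => c q (r p)) = Matrix.of fun p q => c' q (r p) := by
        ext p q; simp [← he q, zer_ne (h p)]
      rw [this]; exact hF.feas k r c' hc'
  · rintro _ ⟨x, hx, rfl⟩
    refine ⟨-x, hF.neg x hx, ?_⟩
    ext r; by_cases h : r = j
    · subst h; simp
    · simp [zer_ne h]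
  · rintro _ ⟨x, hx, rfl⟩ _ ⟨y, hy, rfl⟩
    refine ⟨_, hF.mid x hx y hy, ?_⟩
    ext r; by_cases h : r = j
    · subst h; simp
    · simp [zer_ne h]; ring

lemma feasM {F : Set (ι → ℝ)} (hF : Feas F) {k : ℕ} (r : Fin k → ι) (c : Fin k → ι → ℝ)
    (hc : ∀ q, c q ∈ F) (ρ : Fin k → ℝ) (hρ : ∀ p, |ρ p| = 1) (M : Matrix (Fin k) (Fin k) ℝ)
    (h : ∀ p q, c q (r p) = ρ p * M p q) : |M.det| ≤ 1 := by
  have h1 := hF k r c hc
  have : (Matrix.of fun p q => c q (r p)) = Matrix.of fun p q => ρ p * M p q := by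
    ext p q; simp [h]
  rw [this, det_mul_column, abs_mul, Finset.abs_prod] at h1
  simpa [hρ] using h1

lemma feas1 {F : Set (ι → ℝ)} (hF : Feas F) {x : ι → ℝ} (hx : x ∈ F) (r : ι) : |x r| ≤ 1 := by
  have := hF 1 ![r] ![x] (by intro q; fin_cases q; exact hx)
  simpa using this

lemma feas2 {F : Set (ι → ℝ)} (hF : Feas F) (r0 r1 : ι) {c0 c1 : ι → ℝ}
    (h0 : c0 ∈ F) (h1 : c1 ∈ F) : |d2 (c0 r0) (c1 r0) (c0 r1) (c1 r1)| ≤ 1 := by
  have := hF 2 ![r0, r1] ![c0, c1] (by intro q; fin_cases q <;> assumption)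
  rw [det2] at this
  exact this

lemma feas3 {F : Set (ι → ℝ)} (hF : Feas F) (r0 r1 r2 : ι) {c0 c1 c2 : ι → ℝ}
    (h0 : c0 ∈ F) (h1 : c1 ∈ F) (h2 : c2 ∈ F) :
    |d3 (c0 r0) (c1 r0) (c2 r0) (c0 r1) (c1 r1) (c2 r1) (c0 r2) (c1 r2) (c2 r2)| ≤ 1 := by
  have := hF 3 ![r0, r1, r2] ![c0, c1, c2] (by intro q; fin_cases q <;> assumption)
  rw [det3] at this
  exact this

lemma feas4 {F : Set (ι → ℝ)} (hF : Feas F) (r0 r1 r2 r3 : ι) {c0 c1 c2 c3 : ι → ℝ}
    (h0 : c0 ∈ F) (h1 : c1 ∈ F) (h2 : c2 ∈ F) (h3 : c3 ∈ F) :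
    |d4 (c0 r0) (c1 r0) (c2 r0) (c3 r0) (c0 r1) (c1 r1) (c2 r1) (c3 r1)
      (c0 r2) (c1 r2) (c2 r2) (c3 r2) (c0 r3) (c1 r3) (c2 r3) (c3 r3)| ≤ 1 := by
  have := hF 4 ![r0, r1, r2, r3] ![c0, c1, c2, c3] (by intro q; fin_cases q <;> assumption)
  rw [det4] at this
  exact this

lemma feas5 {F : Set (ι → ℝ)} (hF : Feas F) (r0 r1 r2 r3 r4 : ι) {c0 c1 c2 c3 c4 : ι → ℝ}
    (h0 : c0 ∈ F) (h1 : c1 ∈ F) (h2 : c2 ∈ F) (h3 : c3 ∈ F) (h4 : c4 ∈ F) :
    |d5 (c0 r0) (c1 r0) (c2 r0) (c3 r0) (c4 r0) (c0 r1) (c1 r1) (c2 r1) (c3 r1) (c4 r1)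
      (c0 r2) (c1 r2) (c2 r2) (c3 r2) (c4 r2) (c0 r3) (c1 r3) (c2 r3) (c3 r3) (c4 r3)
      (c0 r4) (c1 r4) (c2 r4) (c3 r4) (c4 r4)| ≤ 1 := by
  have := hF 5 ![r0, r1, r2, r3, r4] ![c0, c1, c2, c3, c4]
    (by intro q; fin_cases q <;> assumption)
  rw [det5] at this
  exact this

lemma feas6 {F : Set (ι → ℝ)} (hF : Feas F) (r0 r1 r2 r3 r4 r5 : ι)
    {c0 c1 c2 c3 c4 c5 : ι → ℝ}
    (h0 : c0 ∈ F) (h1 : c1 ∈ F) (h2 : c2 ∈ F) (h3 : c3 ∈ F) (h4 : c4 ∈ F) (h5 : c5 ∈ F) :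
    |d6 (c0 r0) (c1 r0) (c2 r0) (c3 r0) (c4 r0) (c5 r0)
      (c0 r1) (c1 r1) (c2 r1) (c3 r1) (c4 r1) (c5 r1)
      (c0 r2) (c1 r2) (c2 r2) (c3 r2) (c4 r2) (c5 r2)
      (c0 r3) (c1 r3) (c2 r3) (c3 r3) (c4 r3) (c5 r3)
      (c0 r4) (c1 r4) (c2 r4) (c3 r4) (c4 r4) (c5 r4)
      (c0 r5) (c1 r5) (c2 r5) (c3 r5) (c4 r5) (c5 r5)| ≤ 1 := by
  have := hF 6 ![r0, r1, r2, r3, r4, r5] ![c0, c1, c2, c3, c4, c5]
    (by intro q; fin_cases q <;> assumption)
  rw [det6] at this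
  exact this

/-- The unit vector. -/
def ee (i : ι) : ι → ℝ := Pi.single i 1

@[simp] lemma ee_self (i : ι) : ee i i = 1 := by simp [ee]

lemma ee_ne {i r : ι} (h : r ≠ i) : ee i r = 0 := by simp [ee, h]

/-- Points of `F` in the coset `t + ℤ^ι`. -/
def Lat (F : Set (ι → ℝ)) (t : ι → ℝ) : Set (ι → ℝ) := {x | x ∈ F ∧ ∀ r, ∃ z : ℤ, x r = t r + z}

/-- Lower ends of unit edges in direction `i`. -/
def E1 (F : Set (ι → ℝ)) (t : ι → ℝ) (i : ι) : Set (ι → ℝ) := {x | x ∈ Lat F t ∧ x + ee i ∈ F}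

/-- Lower corners of unit squares in directions `i, j`. -/
def E2 (F : Set (ι → ℝ)) (t : ι → ℝ) (i j : ι) : Set (ι → ℝ) :=
  {x | x ∈ Lat F t ∧ x + ee i ∈ F ∧ x + ee j ∈ F ∧ x + ee i + ee j ∈ F}

lemma lat_finite {F : Set (ι → ℝ)} (hF : Feas F) (t : ι → ℝ) : (Lat F t).Finite := by
  have h : ∀ r, {a : ℝ | |a| ≤ 1 ∧ ∃ z : ℤ, a = t r + z}.Finite := by
    intro r
    apply Set.Finite.subset (Set.Finite.image (fun z : ℤ => t r + z)
      (Set.finite_Icc ⌊-1 - t r⌋ ⌈1 - t r⌉))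
    rintro a ⟨ha, z, rfl⟩
    refine ⟨z, ⟨?_, ?_⟩, rfl⟩
    · have h1 := (abs_le.mp ha).1
      have h2 := Int.floor_le (-1 - t r)
      have : ((⌊-1 - t r⌋ : ℤ) : ℝ) ≤ z := by linarith
      exact_mod_cast this
    · have h1 := (abs_le.mp ha).2
      have h2 := Int.le_ceil (1 - t r)
      have : (z : ℝ) ≤ ((⌈1 - t r⌉ : ℤ) : ℝ) := by linarith
      exact_mod_cast this
  apply Set.Finite.subset (Set.Finite.pi' h)
  intro x hx r
  exact ⟨feas1 hF hx.1 r, hx.2 r⟩

lemma e1_finite {F : Set (ι → ℝ)} (hF : Feas F) (t : ι → ℝ) (i : ι) : (E1 F t i).Finite :=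
  (lat_finite hF t).subset fun _ hx => hx.1

lemma e2_finite {F : Set (ι → ℝ)} (hF : Feas F) (t : ι → ℝ) (i j : ι) : (E2 F t i j).Finite :=
  (lat_finite hF t).subset fun _ hx => hx.1

lemma step_mem {F : Set (ι → ℝ)} (hF : Good F) {x y : ι → ℝ} (hx : x ∈ F) (hy : y ∈ F) {j : ι}
    (hxy : ∀ r, r ≠ j → x r = y r) (z : ℤ) (hz : y j = x j + z) (hlt : x j < y j) :
    x + ee j ∈ F := by
  have h1 := abs_le.mp (feas1 hF.feas hx j)
  have h2 := abs_le.mp (feas1 hF.feas hy j)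
  have hz1 : (0 : ℝ) < z := by linarith
  have hz2 : (z : ℝ) ≤ 2 := by linarith
  have hz1' : 0 < z := by exact_mod_cast hz1
  have hz2' : z ≤ 2 := by exact_mod_cast hz2
  have : z = 1 ∨ z = 2 := by omega
  rcases this with rfl | rfl
  · have : x + ee j = y := by
      ext r; by_cases h : r = j
      · subst h; simp [hz]
      · simp [ee_ne h, hxy r h]
    rw [this]; exact hy
  · have : x + ee j = (1 / 2 : ℝ) • (x + y) := by
      ext r; by_cases h : r = j
      · subst h; simp [hz]; ring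
      · simp [ee_ne h, hxy r h]; ring
    rw [this]; exact hF.mid x hx y hy

lemma count_gen {A A' U : Set (ι → ℝ)} (hA' : A'.Finite) (hU : U.Finite) (j : ι)
    (hz : ∀ x ∈ A, zer j x ∈ A')
    (hup : ∀ x ∈ A, ∀ y ∈ A, (∀ r, r ≠ j → x r = y r) → x j < y j → x ∈ U) :
    A.ncard ≤ A'.ncard + U.ncard := by
  have h1 : (A \ U).ncard ≤ A'.ncard := by
    apply Set.ncard_le_ncard_of_injOn (zer j) (fun x hx => hz x hx.1) _ hA'
    intro x hx y hy hxy
    have hr : ∀ r, r ≠ j → x r = y r := by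
      intro r hr
      have := congrFun hxy r
      rwa [zer_ne hr, zer_ne hr] at this
    rcases lt_trichotomy (x j) (y j) with h | h | h
    · exact absurd (hup x hx.1 y hy.1 hr h) hx.2
    · ext r; by_cases hrj : r = j
      · subst hrj; exact h
      · exact hr r hrj
    · exact absurd (hup y hy.1 x hx.1 (fun r h' => (hr r h').symm) h) hy.2
  have hfin : (A \ U).Finite := by
    apply Set.Finite.of_finite_image (hA'.subset _) (f := zer j)
    · intro x hx y hy hxy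
      have hr : ∀ r, r ≠ j → x r = y r := by
        intro r hr
        have := congrFun hxy r
        rwa [zer_ne hr, zer_ne hr] at this
      rcases lt_trichotomy (x j) (y j) with h | h | h
      · exact absurd (hup x hx.1 y hy.1 hr h) hx.2
      · ext r; by_cases hrj : r = j
        · subst hrj; exact h
        · exact hr r hrj
      · exact absurd (hup y hy.1 x hx.1 (fun r h' => (hr r h').symm) h) hy.2
    · rintro _ ⟨x, hx, rfl⟩; exact hz x hx.1
  calc A.ncard ≤ ((A \ U) ∪ U).ncard := by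
        apply Set.ncard_le_ncard _ (hfin.union hU)
        intro x hx; by_cases h : x ∈ U
        · exact Or.inr h
        · exact Or.inl ⟨hx, h⟩
    _ ≤ (A \ U).ncard + U.ncard := Set.ncard_union_le _ _
    _ ≤ _ := by omega

lemma zer_mem_lat {F : Set (ι → ℝ)} {t x : ι → ℝ} (j : ι) (hx : x ∈ Lat F t) :
    zer j x ∈ Lat (zer j '' F) (zer j t) := by
  refine ⟨⟨x, hx.1, rfl⟩, fun r => ?_⟩
  by_cases h : r = j
  · subst h; exact ⟨0, by simp⟩
  · rw [zer_ne h, zer_ne h]; exact hx.2 r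

lemma lat_diff {F : Set (ι → ℝ)} {t x y : ι → ℝ} (hx : x ∈ Lat F t) (hy : y ∈ Lat F t) (r : ι) :
    ∃ z : ℤ, y r = x r + z := by
  obtain ⟨a, ha⟩ := hx.2 r
  obtain ⟨b, hb⟩ := hy.2 r
  exact ⟨b - a, by rw [ha, hb]; push_cast; ring⟩

lemma count1 {F : Set (ι → ℝ)} (hF : Good F) (t : ι → ℝ) (j : ι) :
    (Lat F t).ncard ≤ (Lat (zer j '' F) (zer j t)).ncard + (E1 F t j).ncard := by
  apply count_gen (lat_finite (good_zer hF j).feas _) (e1_finite hF.feas _ _) j
    (fun x hx => zer_mem_lat j hx)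
  intro x hx y hy hr hlt
  obtain ⟨z, hz⟩ := lat_diff hx hy j
  exact ⟨hx, step_mem hF hx.1 hy.1 hr z hz hlt⟩

lemma zer_add_ee {i j : ι} (h : i ≠ j) (x : ι → ℝ) : zer j x + ee i = zer j (x + ee i) := by
  ext r; by_cases hr : r = j
  · subst hr; simp [ee_ne h.symm]
  · simp [zer_ne hr]

lemma count2 {F : Set (ι → ℝ)} (hF : Good F) (t : ι → ℝ) {i j : ι} (hij : i ≠ j) :
    (E1 F t i).ncard ≤ (E1 (zer j '' F) (zer j t) i).ncard + (E2 F t i j).ncard := by
  apply count_gen (e1_finite (good_zer hF j).feas _ _) (e2_finite hF.feas _ _ _) j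
  · intro x hx
    refine ⟨zer_mem_lat j hx.1, ?_⟩
    rw [zer_add_ee hij]; exact ⟨_, hx.2, rfl⟩
  · intro x hx y hy hr hlt
    obtain ⟨z, hz⟩ := lat_diff hx.1 hy.1 j
    refine ⟨hx.1, hx.2, step_mem hF hx.1.1 hy.1.1 hr z hz hlt, ?_⟩
    apply step_mem hF hx.2 hy.2 (j := j) _ z
    · simp [ee_ne hij.symm, hz]
    · simpa [ee_ne hij.symm] using hlt
    · intro r h; simp [hr r h]

/-- Support condition. -/
def Supp (F : Set (ι → ℝ)) (R : Finset ι) : Prop := ∀ x ∈ F, ∀ r, r ∉ R → x r = 0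

lemma supp_zer {F : Set (ι → ℝ)} {R : Finset ι} (h : Supp F R) (j : ι) :
    Supp (zer j '' F) (R.erase j) := by
  rintro _ ⟨x, hx, rfl⟩ r hr
  by_cases hj : r = j
  · subst hj; simp
  · rw [zer_ne hj]; exact h x hx r (fun hr' => hr (Finset.mem_erase.mpr ⟨hj, hr'⟩))

end Pool.Agent.H736Z.Heller
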