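import Mathlib

/-! The combinatorial core of the half-integral case: sign vectors. -/

namespace Pool.Agent.H736Z.Heller

set_option linter.unusedSectionVars false

variable {ι : Type} [DecidableEq ι]

def F48 (R : Finset ι) (P : Set (ι → Bool)) : Prop :=
  ∀ (r0 r1 r2 r3 r4 : ι) (c0 c1 c2 c3 c4 : ι → Bool) (p0 p1 p2 p3 p4 : Bool),
    r0 ∈ R → r1 ∈ R → r2 ∈ R → r3 ∈ R → r4 ∈ R →
    c0 ∈ P → c1 ∈ P → c2 ∈ P → c3 ∈ P → c4 ∈ P →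
    (c0 r0 = p0 ∧ c0 r1 = p1 ∧ c0 r2 = p2 ∧ c0 r3 = p3 ∧ c0 r4 = p4) →
    (c1 r0 = p0 ∧ c1 r1 = p1 ∧ c1 r2 = (!p2) ∧ c1 r3 = (!p3) ∧ c1 r4 = (!p4)) →
    (c2 r0 = p0 ∧ c2 r1 = (!p1) ∧ c2 r2 = p2 ∧ c2 r3 = p3 ∧ c2 r4 = (!p4)) →
    (c3 r0 = p0 ∧ c3 r1 = (!p1) ∧ c3 r2 = p2 ∧ c3 r3 = (!p3) ∧ c3 r4 = p4) →
    (c4 r0 = p0 ∧ c4 r1 = (!p1) ∧ c4 r2 = (!p2) ∧ c4 r3 = p3 ∧ c4 r4 = p4) →
    False

def F96a (R : Finset ι) (P : Set (ι → Bool)) : Prop :=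
  ∀ (r0 r1 r2 r3 r4 r5 : ι) (c0 c1 c2 c3 c4 c5 : ι → Bool) (p0 p1 p2 p3 p4 p5 : Bool),
    r0 ∈ R → r1 ∈ R → r2 ∈ R → r3 ∈ R → r4 ∈ R → r5 ∈ R →
    c0 ∈ P → c1 ∈ P → c2 ∈ P → c3 ∈ P → c4 ∈ P → c5 ∈ P →
    (c0 r0 = p0 ∧ c0 r1 = p1 ∧ c0 r2 = p2 ∧ c0 r3 = (!p3) ∧ c0 r4 = (!p4) ∧ c0 r5 = (!p5)) →
    (c1 r0 = p0 ∧ c1 r1 = p1 ∧ c1 r2 = (!p2) ∧ c1 r3 = p3 ∧ c1 r4 = p4 ∧ c1 r5 = p5) →
    (c2 r0 = p0 ∧ c2 r1 = (!p1) ∧ c2 r2 = p2 ∧ c2 r3 = p3 ∧ c2 r4 = p4 ∧ c2 r5 = p5) →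
    (c3 r0 = p0 ∧ c3 r1 = p1 ∧ c3 r2 = (!p2) ∧ c3 r3 = (!p3) ∧ c3 r4 = p4 ∧ c3 r5 = (!p5)) →
    (c4 r0 = p0 ∧ c4 r1 = (!p1) ∧ c4 r2 = p2 ∧ c4 r3 = (!p3) ∧ c4 r4 = (!p4) ∧ c4 r5 = p5) →
    (c5 r0 = p0 ∧ c5 r1 = (!p1) ∧ c5 r2 = (!p2) ∧ c5 r3 = p3 ∧ c5 r4 = (!p4) ∧ c5 r5 = (!p5)) →
    False

def F96b (R : Finset ι) (P : Set (ι → Bool)) : Prop :=
  ∀ (r0 r1 r2 r3 r4 r5 : ι) (c0 c1 c2 c3 c4 c5 : ι → Bool) (p0 p1 p2 p3 p4 p5 : Bool),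
    r0 ∈ R → r1 ∈ R → r2 ∈ R → r3 ∈ R → r4 ∈ R → r5 ∈ R →
    c0 ∈ P → c1 ∈ P → c2 ∈ P → c3 ∈ P → c4 ∈ P → c5 ∈ P →
    (c0 r0 = p0 ∧ c0 r1 = p1 ∧ c0 r2 = p2 ∧ c0 r3 = p3 ∧ c0 r4 = (!p4) ∧ c0 r5 = (!p5)) →
    (c1 r0 = p0 ∧ c1 r1 = p1 ∧ c1 r2 = (!p2) ∧ c1 r3 = (!p3) ∧ c1 r4 = p4 ∧ c1 r5 = p5) →
    (c2 r0 = p0 ∧ c2 r1 = (!p1) ∧ c2 r2 = p2 ∧ c2 r3 = p3 ∧ c2 r4 = p4 ∧ c2 r5 = p5) →
    (c3 r0 = p0 ∧ c3 r1 = p1 ∧ c3 r2 = (!p2) ∧ c3 r3 = p3 ∧ c3 r4 = p4 ∧ c3 r5 = (!p5)) →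
    (c4 r0 = p0 ∧ c4 r1 = (!p1) ∧ c4 r2 = p2 ∧ c4 r3 = (!p3) ∧ c4 r4 = (!p4) ∧ c4 r5 = (!p5)) →
    (c5 r0 = p0 ∧ c5 r1 = (!p1) ∧ c5 r2 = (!p2) ∧ c5 r3 = (!p3) ∧ c5 r4 = (!p4) ∧ c5 r5 = p5) →
    False

def F128a (R : Finset ι) (P : Set (ι → Bool)) : Prop :=
  ∀ (r0 r1 r2 r3 r4 r5 : ι) (c0 c1 c2 c3 c4 c5 : ι → Bool) (p0 p1 p2 p3 p4 p5 : Bool),
    r0 ∈ R → r1 ∈ R → r2 ∈ R → r3 ∈ R → r4 ∈ R → r5 ∈ R →
    c0 ∈ P → c1 ∈ P → c2 ∈ P → c3 ∈ P → c4 ∈ P → c5 ∈ P →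
    (c0 r0 = p0 ∧ c0 r1 = p1 ∧ c0 r2 = p2 ∧ c0 r3 = p3 ∧ c0 r4 = p4 ∧ c0 r5 = p5) →
    (c1 r2 = p2 ∧ c1 r3 = p3 ∧ c1 r4 = (!p4) ∧ c1 r5 = (!p5)) →
    (c2 r0 = p0 ∧ c2 r1 = p1 ∧ c2 r2 = p2 ∧ c2 r3 = (!p3) ∧ c2 r4 = p4 ∧ c2 r5 = (!p5)) →
    (c3 r0 = p0 ∧ c3 r1 = p1 ∧ c3 r2 = (!p2) ∧ c3 r3 = p3 ∧ c3 r4 = (!p4) ∧ c3 r5 = p5) →
    (c4 r0 = p0 ∧ c4 r1 = (!p1) ∧ c4 r2 = p2 ∧ c4 r3 = (!p3) ∧ c4 r4 = (!p4) ∧ c4 r5 = p5) →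
    (c5 r0 = p0 ∧ c5 r1 = (!p1) ∧ c5 r2 = (!p2) ∧ c5 r3 = p3 ∧ c5 r4 = p4 ∧ c5 r5 = (!p5)) →
    False

def F128b (R : Finset ι) (P : Set (ι → Bool)) : Prop :=
  ∀ (r0 r1 r2 r3 r4 r5 : ι) (c0 c1 c2 c3 c4 c5 : ι → Bool) (p0 p1 p2 p3 p4 p5 : Bool),
    r0 ∈ R → r1 ∈ R → r2 ∈ R → r3 ∈ R → r4 ∈ R → r5 ∈ R →
    c0 ∈ P → c1 ∈ P → c2 ∈ P → c3 ∈ P → c4 ∈ P → c5 ∈ P →
    (c0 r0 = p0 ∧ c0 r1 = p1 ∧ c0 r2 = p2 ∧ c0 r3 = p3 ∧ c0 r4 = p4 ∧ c0 r5 = p5) →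
    (c1 r0 = p0 ∧ c1 r1 = p1 ∧ c1 r2 = (!p2) ∧ c1 r3 = p3 ∧ c1 r4 = (!p4) ∧ c1 r5 = (!p5)) →
    (c2 r0 = p0 ∧ c2 r1 = (!p1) ∧ c2 r2 = p2 ∧ c2 r3 = (!p3) ∧ c2 r4 = (!p4) ∧ c2 r5 = (!p5)) →
    (c3 r0 = p0 ∧ c3 r1 = (!p1) ∧ c3 r2 = (!p2) ∧ c3 r3 = (!p3) ∧ c3 r4 = p4 ∧ c3 r5 = p5) →
    (c4 r0 = p0 ∧ c4 r1 = p1 ∧ c4 r2 = (!p2) ∧ c4 r3 = (!p3) ∧ c4 r4 = (!p4) ∧ c4 r5 = p5) →
    (c5 r0 = p0 ∧ c5 r1 = (!p1) ∧ c5 r2 = p2 ∧ c5 r3 = p3 ∧ c5 r4 = (!p4) ∧ c5 r5 = p5) →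
    False

structure Forb (R : Finset ι) (P : Set (ι → Bool)) : Prop where
  f48 : F48 R P
  f96a : F96a R P
  f96b : F96b R P
  f128a : F128a R P
  f128b : F128b R P

/-- Free signs at `i`, at `j` and on the two sides of the remaining rows. -/
structure Cube (R : Finset ι) (P : Set (ι → Bool)) (i j : ι) (side y : ι → Bool) : Prop where
  hi : i ∈ R
  hj : j ∈ R
  ne : i ≠ j
  col : ∀ (α β : Bool) (g : Bool → Bool), ∃ x ∈ P, x i = α ∧ x j = β ∧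
    ∀ r ∈ R, r ≠ i → r ≠ j → x r = xor (y r) (g (side r))
  two : ∀ σ : Bool, ∃ r ∈ R, r ≠ i ∧ r ≠ j ∧ side r = σ

variable {R : Finset ι} {P : Set (ι → Bool)}

lemma Cube.symm {i j : ι} {side y : ι → Bool} (K : Cube R P i j side y) :
    Cube R P j i side y := by
  refine ⟨K.hj, K.hi, K.ne.symm, fun α β g => ?_, fun σ => ?_⟩
  · obtain ⟨x, hx, h1, h2, h3⟩ := K.col β α g
    exact ⟨x, hx, h2, h1, fun r hr a b => h3 r hr b a⟩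
  · obtain ⟨r, hr, h1, h2, h3⟩ := K.two σ
    exact ⟨r, hr, h2, h1, h3⟩

lemma Cube.col2 {i j : ι} {side y : ι → Bool} (K : Cube R P i j side y) (v w : ι)
    (hvw : side v ≠ side w) (α β γ δ : Bool) :
    ∃ x ∈ P, x i = α ∧ x j = β ∧
      (∀ r ∈ R, r ≠ i → r ≠ j → side r = side v → x r = xor (xor (y r) (y v)) γ) ∧
      (∀ r ∈ R, r ≠ i → r ≠ j → side r = side w → x r = xor (xor (y r) (y w)) δ) := by
  obtain ⟨x, hx, h1, h2, h3⟩ :=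
    K.col α β (fun σ => if σ = side v then xor (y v) γ else xor (y w) δ)
  refine ⟨x, hx, h1, h2, fun r hr a b e => ?_, fun r hr a b e => ?_⟩
  · rw [h3 r hr a b]; simp [e]
  · rw [h3 r hr a b]; simp [e, hvw.symm]

lemma L1 (H : Forb R P) {i j : ι} {side y : ι → Bool} (K : Cube R P i j side y) {c c' w : ι}
    (hc : c ∈ R) (hci : c ≠ i) (hcj : c ≠ j) (hc' : c' ∈ R) (hci' : c' ≠ i) (hcj' : c' ≠ j)
    (hw : w ∈ R) (hwi : w ≠ i) (hwj : w ≠ j) (hs : side c' = side c) (hsw : side c ≠ side w)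
    {b b' : ι → Bool} (hb : b ∈ P) (hb' : b' ∈ P)
    (hbr : xor (b c) (b c') ≠ xor (y c) (y c')) (e1 : b' c = b c) (e2 : b' c' = b c')
    (e3 : b' i = !b i) (e4 : b' j = !b j) (e5 : b' w = !b w) : False := by
  obtain ⟨x2, m2, a2, b2, c2, d2⟩ := K.col2 c w hsw (b i) (b j) (b c) (!b w)
  obtain ⟨x3, m3, a3, b3, c3, d3⟩ := K.col2 c w hsw (b i) (!b j) (b c) (b w)
  obtain ⟨x4, m4, a4, b4, c4, d4⟩ := K.col2 c w hsw (!b i) (b j) (b c) (b w)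
  have k : xor (xor (y c') (y c)) (b c) = !b c' := by
    revert hbr; cases y c <;> cases y c' <;> cases b c <;> cases b c' <;> simp
  refine H.f48 c c' i j w b b' x2 x3 x4 (b c) (b c') (b i) (b j) (b w) hc hc' K.hi K.hj hw
    hb hb' m2 m3 m4 ⟨rfl, rfl, rfl, rfl, rfl⟩ ⟨e1, e2, e3, e4, e5⟩ ⟨?_, ?_, a2, b2, ?_⟩
    ⟨?_, ?_, a3, b3, ?_⟩ ⟨?_, ?_, a4, b4, ?_⟩
  · rw [c2 c hc hci hcj rfl]; simp
  · rw [c2 c' hc' hci' hcj' hs, k]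
  · rw [d2 w hw hwi hwj rfl]; simp
  · rw [c3 c hc hci hcj rfl]; simp
  · rw [c3 c' hc' hci' hcj' hs, k]
  · rw [d3 w hw hwi hwj rfl]; simp
  · rw [c4 c hc hci hcj rfl]; simp
  · rw [c4 c' hc' hci' hcj' hs, k]
  · rw [d4 w hw hwi hwj rfl]; simp

/-- The partner of `a` is not on the same side as `a`. -/
lemma L1a (H : Forb R P) {i j : ι} {side y : ι → Bool} (K : Cube R P i j side y)
    {a a' : ι} {side' u : ι → Bool} (K' : Cube R P a a' side' u)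
    (hai : a ≠ i) (haj : a ≠ j) (hai' : a' ≠ i) (haj' : a' ≠ j) (hs : side a' = side a) :
    False := by
  obtain ⟨w, hw, hwi, hwj, hsw⟩ := K.two (!side a)
  have hwa : w ≠ a := by intro h; subst h; simp at hsw
  have hwa' : w ≠ a' := by intro h; subst h; rw [hs] at hsw; simp at hsw
  obtain ⟨b, hb, b1, b2, b3⟩ := K'.col (y a) (!y a') (fun _ => false)
  obtain ⟨b', hb', b1', b2', b3'⟩ := K'.col (y a) (!y a') (fun _ => true)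
  refine L1 H K K'.hi hai haj K'.hj hai' haj' hw hwi hwj hs (by rw [hsw]; simp) hb hb' ?_
    (by rw [b1, b1']) (by rw [b2, b2']) ?_ ?_ ?_
  · rw [b1, b2]; cases y a <;> cases y a' <;> simp
  · rw [b3 i K.hi hai.symm hai'.symm, b3' i K.hi hai.symm hai'.symm]; simp
  · rw [b3 j K.hj haj.symm haj'.symm, b3' j K.hj haj.symm haj'.symm]; simp
  · rw [b3 w hw hwa hwa', b3' w hw hwa hwa']; simp

lemma L1b (H : Forb R P) {i j : ι} {side y : ι → Bool} (K : Cube R P i j side y)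
    {a s a' : ι} {side' u : ι → Bool} (K' : Cube R P a s side' u)
    (hai : a ≠ i) (haj : a ≠ j) (ha' : a' ∈ R) (hai' : a' ≠ i) (haj' : a' ≠ j) (haa : a' ≠ a)
    (has : a' ≠ s) (hs : side a' = side a) :
    (i ≠ s ∧ side' i = side' a') ∨ (j ≠ s ∧ side' j = side' a') ∨
      (∀ w ∈ R, w ≠ i → w ≠ j → side w ≠ side a → w ≠ s ∧ side' w = side' a') := by
  by_contra hcon
  push Not at hcon
  obtain ⟨h1, h2, w, hw, hwi, hwj, hsw, h3⟩ := hcon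
  have hwa : w ≠ a := by intro h; subst h; exact hsw rfl
  obtain ⟨b, hb, b1, b2, b3⟩ :=
    K'.col (xor (xor (u a') (y a')) (!y a)) false (fun _ => false)
  obtain ⟨b', hb', b1', b2', b3'⟩ :=
    K'.col (xor (xor (u a') (y a')) (!y a)) true (fun σ => xor σ (side' a'))
  have flip : ∀ r ∈ R, r ≠ a → (r ≠ s → side' r ≠ side' a') → b' r = !b r := by
    intro r hr hra h
    by_cases hrs : r = s
    · subst hrs; rw [b2, b2']; rfl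
    · rw [b3 r hr hra hrs, b3' r hr hra hrs]
      have := h hrs
      revert this; cases side' r <;> cases side' a' <;> simp
  refine L1 H K K'.hi hai haj ha' hai' haj' hw hwi hwj hs hsw.symm hb hb' ?_
    (by rw [b1, b1']) ?_ (flip i K.hi hai.symm h1) (flip j K.hj haj.symm h2) (flip w hw hwa h3)
  · rw [b1, b3 a' ha' haa has]; cases y a <;> cases y a' <;> cases u a' <;> simp
  · rw [b3 a' ha' haa has, b3' a' ha' haa has]; simp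

/-- Pattern 96a. -/
lemma L96a (H : Forb R P) {i j : ι} {side y : ι → Bool} (K : Cube R P i j side y)
    {a a' a'' w : ι} {side' u : ι → Bool} (K' : Cube R P a i side' u)
    (haj : a ≠ j) (ha' : a' ∈ R) (hai' : a' ≠ i) (haj' : a' ≠ j) (haa' : a' ≠ a)
    (ha'' : a'' ∈ R) (hai'' : a'' ≠ i) (haj'' : a'' ≠ j) (haa'' : a'' ≠ a)
    (hw : w ∈ R) (hwi : w ≠ i) (hwj : w ≠ j) (hs' : side a' = side a) (hs'' : side a'' = side a)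
    (hsw : side a ≠ side w) (t1 : side' j = side' a') (t2 : side' w = side' a'')
    (t3 : side' a' ≠ side' a'') : False := by
  have hai := K'.ne
  have ha := K'.hi
  have hwa : w ≠ a := by intro h; subst h; exact hsw rfl
  have hji := K.ne.symm
  set pj := xor (xor (u j) (u a')) (y a') with hpj
  set pw := xor (xor (u w) (u a'')) (y a'') with hpw
  obtain ⟨x0, m0, a0, b0, c0, d0⟩ := K.col2 a w hsw false pj (!y a) pw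
  obtain ⟨x1, m1, a1, b1, c1, d1⟩ := K.col2 a w hsw false pj (y a) (!pw)
  obtain ⟨x2, m2, a2, b2, c2, d2⟩ := K.col2 a w hsw false (!pj) (y a) pw
  obtain ⟨x3, m3, a3, b3, c3, d3⟩ := K'.col2 a' a'' t3 (!y a) false (y a') (!y a'')
  obtain ⟨x4, m4, a4, b4, c4, d4⟩ := K'.col2 a' a'' t3 (!y a) false (!y a') (y a'')
  obtain ⟨x5, m5, a5, b5, c5, d5⟩ := K'.col2 a' a'' t3 (y a) false (!y a') (!y a'')
  refine H.f96a i j w a a' a'' x0 x1 x2 x3 x4 x5 false pj pw (y a) (y a') (y a'') K.hi K.hj hw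
    ha ha' ha'' m0 m1 m2 m3 m4 m5 ⟨a0, b0, ?_, ?_, ?_, ?_⟩ ⟨a1, b1, ?_, ?_, ?_, ?_⟩
    ⟨a2, b2, ?_, ?_, ?_, ?_⟩ ⟨b3, ?_, ?_, a3, ?_, ?_⟩ ⟨b4, ?_, ?_, a4, ?_, ?_⟩
    ⟨b5, ?_, ?_, a5, ?_, ?_⟩
  · rw [d0 w hw hwi hwj rfl]; simp
  · rw [c0 a ha hai haj rfl]; simp
  · rw [c0 a' ha' hai' haj' hs']; cases y a <;> cases y a' <;> simp
  · rw [c0 a'' ha'' hai'' haj'' hs'']; cases y a <;> cases y a'' <;> simp
  · rw [d1 w hw hwi hwj rfl]; simp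
  · rw [c1 a ha hai haj rfl]; simp
  · rw [c1 a' ha' hai' haj' hs']; cases y a <;> cases y a' <;> simp
  · rw [c1 a'' ha'' hai'' haj'' hs'']; cases y a <;> cases y a'' <;> simp
  · rw [d2 w hw hwi hwj rfl]; simp
  · rw [c2 a ha hai haj rfl]; simp
  · rw [c2 a' ha' hai' haj' hs']; cases y a <;> cases y a' <;> simp
  · rw [c2 a'' ha'' hai'' haj'' hs'']; cases y a <;> cases y a'' <;> simp
  · rw [c3 j K.hj haj.symm hji t1]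
  · rw [d3 w hw hwa hwi t2, hpw]; cases u w <;> cases u a'' <;> cases y a'' <;> simp
  · rw [c3 a' ha' haa' hai' rfl]; simp
  · rw [d3 a'' ha'' haa'' hai'' rfl]; simp
  · rw [c4 j K.hj haj.symm hji t1, hpj]; cases u j <;> cases u a' <;> cases y a' <;> simp
  · rw [d4 w hw hwa hwi t2]
  · rw [c4 a' ha' haa' hai' rfl]; simp
  · rw [d4 a'' ha'' haa'' hai'' rfl]; simp
  · rw [c5 j K.hj haj.symm hji t1, hpj]; cases u j <;> cases u a' <;> cases y a' <;> simp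
  · rw [d5 w hw hwa hwi t2, hpw]; cases u w <;> cases u a'' <;> cases y a'' <;> simp
  · rw [c5 a' ha' haa' hai' rfl]; simp
  · rw [d5 a'' ha'' haa'' hai'' rfl]; simp

/-- Pattern 96b. -/
lemma L96b (H : Forb R P) {i j : ι} {side y : ι → Bool} (K : Cube R P i j side y)
    {a a' w w' : ι} {side' u : ι → Bool} (K' : Cube R P a i side' u)
    (haj : a ≠ j) (ha' : a' ∈ R) (hai' : a' ≠ i) (haj' : a' ≠ j) (haa' : a' ≠ a)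
    (hw : w ∈ R) (hwi : w ≠ i) (hwj : w ≠ j) (hw' : w' ∈ R) (hwi' : w' ≠ i) (hwj' : w' ≠ j)
    (hs' : side a' = side a) (hsw : side a ≠ side w) (hsw' : side w' = side w)
    (t1 : side' j = side' a') (t2 : side' w = side' a') (t3 : side' a' ≠ side' w') : False := by
  have hai := K'.ne
  have ha := K'.hi
  have hwa : w ≠ a := by intro h; subst h; exact hsw rfl
  have hwa' : w' ≠ a := by intro h; subst h; exact hsw hsw'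
  have hji := K.ne.symm
  set pa := xor (xor (y a) (y a')) (u a') with hpa
  set pw := xor (xor (y w') (y w)) (u w) with hpw
  obtain ⟨x0, m0, a0, b0, c0, d0⟩ := K.col2 a w hsw false (u j) pa (!u w)
  obtain ⟨x1, m1, a1, b1, c1, d1⟩ := K.col2 a w hsw false (u j) (!pa) (u w)
  obtain ⟨x2, m2, a2, b2, c2, d2⟩ := K.col2 a w hsw false (!u j) pa (u w)
  obtain ⟨x3, m3, a3, b3, c3, d3⟩ := K'.col2 a' w' t3 (!pa) false (u a') (!pw)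
  obtain ⟨x4, m4, a4, b4, c4, d4⟩ := K'.col2 a' w' t3 pa false (!u a') (!pw)
  obtain ⟨x5, m5, a5, b5, c5, d5⟩ := K'.col2 a' w' t3 (!pa) false (!u a') pw
  refine H.f96b i j a a' w w' x0 x1 x2 x3 x4 x5 false (u j) pa (u a') (u w) pw K.hi K.hj
    ha ha' hw hw' m0 m1 m2 m3 m4 m5 ⟨a0, b0, ?_, ?_, ?_, ?_⟩ ⟨a1, b1, ?_, ?_, ?_, ?_⟩
    ⟨a2, b2, ?_, ?_, ?_, ?_⟩ ⟨b3, ?_, a3, ?_, ?_, ?_⟩ ⟨b4, ?_, a4, ?_, ?_, ?_⟩
    ⟨b5, ?_, a5, ?_, ?_, ?_⟩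
  · rw [c0 a ha hai haj rfl]; simp
  · rw [c0 a' ha' hai' haj' hs', hpa]; cases y a <;> cases y a' <;> cases u a' <;> simp
  · rw [d0 w hw hwi hwj rfl]; simp
  · rw [d0 w' hw' hwi' hwj' hsw', hpw]; cases y w <;> cases y w' <;> cases u w <;> simp
  · rw [c1 a ha hai haj rfl]; simp
  · rw [c1 a' ha' hai' haj' hs', hpa]; cases y a <;> cases y a' <;> cases u a' <;> simp
  · rw [d1 w hw hwi hwj rfl]; simp
  · rw [d1 w' hw' hwi' hwj' hsw']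
  · rw [c2 a ha hai haj rfl]; simp
  · rw [c2 a' ha' hai' haj' hs', hpa]; cases y a <;> cases y a' <;> cases u a' <;> simp
  · rw [d2 w hw hwi hwj rfl]; simp
  · rw [d2 w' hw' hwi' hwj' hsw']
  · rw [c3 j K.hj haj.symm hji t1]; cases u j <;> cases u a' <;> simp
  · rw [c3 a' ha' haa' hai' rfl]; simp
  · rw [c3 w hw hwa hwi t2]; cases u w <;> cases u a' <;> simp
  · rw [d3 w' hw' hwa' hwi' rfl]; simp
  · rw [c4 j K.hj haj.symm hji t1]; cases u j <;> cases u a' <;> simp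
  · rw [c4 a' ha' haa' hai' rfl]; simp
  · rw [c4 w hw hwa hwi t2]; cases u w <;> cases u a' <;> simp
  · rw [d4 w' hw' hwa' hwi' rfl]; simp
  · rw [c5 j K.hj haj.symm hji t1]; cases u j <;> cases u a' <;> simp
  · rw [c5 a' ha' haa' hai' rfl]; simp
  · rw [c5 w hw hwa hwi t2]; cases u w <;> cases u a' <;> simp
  · rw [d5 w' hw' hwa' hwi' rfl]; simp

/-- Pattern 128a. -/
lemma L128a (H : Forb R P) {i j : ι} {side y : ι → Bool} (K : Cube R P i j side y)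
    {a a' s c' : ι} {side' u : ι → Bool} (K' : Cube R P a s side' u)
    (hai : a ≠ i) (haj : a ≠ j) (hsi : s ≠ i) (hsj : s ≠ j)
    (ha' : a' ∈ R) (hai' : a' ≠ i) (haj' : a' ≠ j) (haa' : a' ≠ a)
    (hc' : c' ∈ R) (hci' : c' ≠ i) (hcj' : c' ≠ j) (hcs' : c' ≠ s)
    (h1 : side a' = side a) (h2 : side a ≠ side s) (h3 : side c' = side s)
    (t : side' a' ≠ side' c') : False := by
  have ha := K'.hi
  have hs := K'.hj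
  have has' : a' ≠ s := by intro h; subst h; exact h2 h1.symm
  have hca' : c' ≠ a := by intro h; subst h; exact h2 h3
  obtain ⟨b, mb, b1, b2, b3, b4⟩ := K'.col2 a' c' t (!y a) (!y s) (y a') (y c')
  obtain ⟨b', mb', b1', b2', b3', b4'⟩ := K'.col2 a' c' t (!y a) (y s) (y a') (!y c')
  obtain ⟨x2, m2, a2, b2x, c2, d2⟩ := K.col2 a s h2 (b i) (b j) (!y a) (!y s)
  obtain ⟨x3, m3, a3, b3x, c3, d3⟩ := K.col2 a s h2 (b i) (b j) (y a) (y s)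
  obtain ⟨x4, m4, a4, b4x, c4, d4⟩ := K.col2 a s h2 (b i) (!b j) (!y a) (y s)
  obtain ⟨x5, m5, a5, b5x, c5, d5⟩ := K.col2 a s h2 (b i) (!b j) (y a) (!y s)
  refine H.f128a i j a a' s c' b b' x2 x3 x4 x5 (b i) (b j) (!y a) (y a') (!y s) (y c')
    K.hi K.hj ha ha' hs hc' mb mb' m2 m3 m4 m5 ⟨rfl, rfl, b1, ?_, b2, ?_⟩ ⟨b1', ?_, ?_, ?_⟩
    ⟨a2, b2x, ?_, ?_, ?_, ?_⟩ ⟨a3, b3x, ?_, ?_, ?_, ?_⟩ ⟨a4, b4x, ?_, ?_, ?_, ?_⟩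
    ⟨a5, b5x, ?_, ?_, ?_, ?_⟩
  · rw [b3 a' ha' haa' has' rfl]; simp
  · rw [b4 c' hc' hca' hcs' rfl]; simp
  · rw [b3' a' ha' haa' has' rfl]; simp
  · rw [b2']; simp
  · rw [b4' c' hc' hca' hcs' rfl]; simp
  · rw [c2 a ha hai haj rfl]; simp
  · rw [c2 a' ha' hai' haj' h1]; cases y a <;> cases y a' <;> simp
  · rw [d2 s hs hsi hsj rfl]; simp
  · rw [d2 c' hc' hci' hcj' h3]; cases y s <;> cases y c' <;> simp
  · rw [c3 a ha hai haj rfl]; simp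
  · rw [c3 a' ha' hai' haj' h1]; cases y a <;> cases y a' <;> simp
  · rw [d3 s hs hsi hsj rfl]; simp
  · rw [d3 c' hc' hci' hcj' h3]; cases y s <;> cases y c' <;> simp
  · rw [c4 a ha hai haj rfl]; simp
  · rw [c4 a' ha' hai' haj' h1]; cases y a <;> cases y a' <;> simp
  · rw [d4 s hs hsi hsj rfl]; simp
  · rw [d4 c' hc' hci' hcj' h3]; cases y s <;> cases y c' <;> simp
  · rw [c5 a ha hai haj rfl]; simp
  · rw [c5 a' ha' hai' haj' h1]; cases y a <;> cases y a' <;> simp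
  · rw [d5 s hs hsi hsj rfl]; simp
  · rw [d5 c' hc' hci' hcj' h3]; cases y s <;> cases y c' <;> simp

/-- Pattern 128b. -/
lemma L128b (H : Forb R P) {i j a a' b b' : ι} {sa u sb v : ι → Bool}
    (Ka : Cube R P a i sa u) (Kb : Cube R P b j sb v) (hij : i ≠ j)
    (haj : a ≠ j) (hbi : b ≠ i) (hab : a ≠ b)
    (ha' : a' ∈ R) (hai' : a' ≠ i) (haj' : a' ≠ j) (haa' : a' ≠ a) (hab' : a' ≠ b)
    (hb' : b' ∈ R) (hbi' : b' ≠ i) (hbj' : b' ≠ j) (hba' : b' ≠ a) (hbb' : b' ≠ b)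
    (s1 : sa j = sa a') (s2 : sa b = sa b') (s3 : sa a' ≠ sa b')
    (t1 : sb i = sb b') (t2 : sb a = sb a') (t3 : sb a' ≠ sb b') : False := by
  have ha := Ka.hi
  have hi := Ka.hj
  have hb := Kb.hi
  have hj := Kb.hj
  set pi := xor (v i) (v b') with hpi
  set pj := xor (u j) (u a') with hpj
  set pa := xor (v a) (v a') with hpa
  set pb := xor (u b) (u b') with hpb
  obtain ⟨x0, m0, a0, b0, c0, d0⟩ := Ka.col2 a' b' s3 pa pi false false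
  obtain ⟨x1, m1, a1, b1, c1, d1⟩ := Ka.col2 a' b' s3 (!pa) pi false true
  obtain ⟨x2, m2, a2, b2, c2, d2⟩ := Ka.col2 a' b' s3 pa pi true true
  obtain ⟨x3, m3, a3, b3, c3, d3⟩ := Ka.col2 a' b' s3 (!pa) pi true false
  obtain ⟨x4, m4, a4, b4, c4, d4⟩ := Kb.col2 a' b' t3 (!pb) pj true false
  obtain ⟨x5, m5, a5, b5, c5, d5⟩ := Kb.col2 a' b' t3 (!pb) (!pj) false false
  refine H.f128b i j a a' b b' x0 x1 x2 x3 x4 x5 pi pj pa false pb false hi hj ha ha' hb hb'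
    m0 m1 m2 m3 m4 m5 ⟨b0, ?_, a0, ?_, ?_, ?_⟩ ⟨b1, ?_, a1, ?_, ?_, ?_⟩
    ⟨b2, ?_, a2, ?_, ?_, ?_⟩ ⟨b3, ?_, a3, ?_, ?_, ?_⟩ ⟨?_, b4, ?_, ?_, a4, ?_⟩
    ⟨?_, b5, ?_, ?_, a5, ?_⟩
  · rw [c0 j hj haj.symm hij.symm s1]; simp [hpj]
  · rw [c0 a' ha' haa' hai' rfl]; simp
  · rw [d0 b hb hab.symm hbi s2]; simp [hpb]
  · rw [d0 b' hb' hba' hbi' rfl]; simp
  · rw [c1 j hj haj.symm hij.symm s1]; simp [hpj]
  · rw [c1 a' ha' haa' hai' rfl]; simp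
  · rw [d1 b hb hab.symm hbi s2]; simp [hpb]
  · rw [d1 b' hb' hba' hbi' rfl]; simp
  · rw [c2 j hj haj.symm hij.symm s1]; simp [hpj]
  · rw [c2 a' ha' haa' hai' rfl]; simp
  · rw [d2 b hb hab.symm hbi s2]; simp [hpb]
  · rw [d2 b' hb' hba' hbi' rfl]; simp
  · rw [c3 j hj haj.symm hij.symm s1]; simp [hpj]
  · rw [c3 a' ha' haa' hai' rfl]; simp
  · rw [d3 b hb hab.symm hbi s2]; simp [hpb]
  · rw [d3 b' hb' hba' hbi' rfl]; simp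
  · rw [d4 i hi hbi.symm hij t1]; simp [hpi]
  · rw [c4 a ha hab haj t2]; simp [hpa]
  · rw [c4 a' ha' hab' haj' rfl]; simp
  · rw [d4 b' hb' hbb' hbj' rfl]; simp
  · rw [d5 i hi hbi.symm hij t1]; simp [hpi]
  · rw [c5 a ha hab haj t2]; simp [hpa]
  · rw [c5 a' ha' hab' haj' rfl]; simp
  · rw [d5 b' hb' hbb' hbj' rfl]; simp

end Pool.Agent.H736Z.Heller
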