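import Pool.Agent.H736Z.Heller.CubeA

/-! The combinatorial core of the half-integral case, concluded. -/

namespace Pool.Agent.H736Z.Heller

set_option linter.unusedSectionVars false

variable {ι : Type} [DecidableEq ι] {R : Finset ι} {P : Set (ι → Bool)}

/-- Free signs at three rows and on the remaining rows. -/
structure T3 (R : Finset ι) (P : Set (ι → Bool)) (i j w : ι) (y : ι → Bool) : Prop where
  hi : i ∈ R
  hj : j ∈ R
  hw : w ∈ R
  nij : i ≠ j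
  niw : i ≠ w
  njw : j ≠ w
  col : ∀ (α β γ δ : Bool), ∃ x ∈ P, x i = α ∧ x j = β ∧ x w = γ ∧
    ∀ r ∈ R, r ≠ i → r ≠ j → r ≠ w → x r = xor (y r) δ
  rest : ∃ r ∈ R, r ≠ i ∧ r ≠ j ∧ r ≠ w

lemma T3.swap12 {i j w : ι} {y : ι → Bool} (T : T3 R P i j w y) : T3 R P j i w y := by
  refine ⟨T.hj, T.hi, T.hw, T.nij.symm, T.njw, T.niw, fun α β γ δ => ?_, ?_⟩
  · obtain ⟨x, hx, a, b, c, d⟩ := T.col β α γ δ
    exact ⟨x, hx, b, a, c, fun r hr h1 h2 h3 => d r hr h2 h1 h3⟩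
  · obtain ⟨r, hr, a, b, c⟩ := T.rest
    exact ⟨r, hr, b, a, c⟩

lemma T3.swap23 {i j w : ι} {y : ι → Bool} (T : T3 R P i j w y) : T3 R P i w j y := by
  refine ⟨T.hi, T.hw, T.hj, T.niw, T.nij, T.njw.symm, fun α β γ δ => ?_, ?_⟩
  · obtain ⟨x, hx, a, b, c, d⟩ := T.col α γ β δ
    exact ⟨x, hx, a, c, b, fun r hr h1 h2 h3 => d r hr h1 h3 h2⟩
  · obtain ⟨r, hr, a, b, c⟩ := T.rest
    exact ⟨r, hr, a, c, b⟩

lemma T3.cube {i j w : ι} {y : ι → Bool} (T : T3 R P i j w y) :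
    Cube R P i j (fun r => decide (r = w)) y := by
  refine ⟨T.hi, T.hj, T.nij, fun α β g => ?_, fun σ => ?_⟩
  · obtain ⟨x, hx, a, b, c, d⟩ := T.col α β (xor (y w) (g true)) (g false)
    refine ⟨x, hx, a, b, fun r hr h1 h2 => ?_⟩
    by_cases h : r = w
    · subst h; simp [c]
    · simp [h, d r hr h1 h2 h]
  · cases σ
    · obtain ⟨r, hr, a, b, c⟩ := T.rest
      exact ⟨r, hr, a, b, by simp [c]⟩
    · exact ⟨w, T.hw, T.niw.symm, T.njw.symm, by simp⟩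

lemma Cube.t3 {i j w : ι} {side y : ι → Bool} (K : Cube R P i j side y) (hw : w ∈ R)
    (hwi : w ≠ i) (hwj : w ≠ j)
    (h : ∀ r ∈ R, r ≠ i → r ≠ j → r ≠ w → side r ≠ side w) : T3 R P i j w y := by
  refine ⟨K.hi, K.hj, hw, K.ne, hwi.symm, hwj.symm, fun α β γ δ => ?_, ?_⟩
  · obtain ⟨x, hx, a, b, c⟩ := K.col α β (fun σ => if σ = side w then xor (y w) γ else δ)
    refine ⟨x, hx, a, b, ?_, fun r hr h1 h2 h3 => ?_⟩
    · rw [c w hw hwi hwj]; simp
    · rw [c r hr h1 h2]; simp [h r hr h1 h2 h3]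
  · obtain ⟨r, hr, a, b, c⟩ := K.two (!side w)
    refine ⟨r, hr, a, b, ?_⟩
    intro h; subst h; simp at c

/-- A fifth class of edges in every direction. -/
def H5 (R : Finset ι) (P : Set (ι → Bool)) : Prop :=
  ∀ a ∈ R, ∀ (p q : ι) (x' : ι → Bool), ∃ ξ0 : ι → Bool,
    (∀ α, ∃ ξ ∈ P, ξ a = α ∧ ∀ r ∈ R, r ≠ a → ξ r = ξ0 r) ∧
    ∃ r ∈ R, ∃ r' ∈ R, (r ≠ a ∧ r ≠ p ∧ r ≠ q) ∧ (r' ≠ a ∧ r' ≠ p ∧ r' ≠ q) ∧
      xor (ξ0 r) (x' r) ≠ xor (ξ0 r') (x' r')

lemma both_sep {D : ι → Prop} {f g : ι → Bool} {a a' b b' : ι} (ha : D a) (ha' : D a')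
    (hb : D b) (hb' : D b') (hf : f a ≠ f a') (hg : g b ≠ g b') :
    ∃ c c', D c ∧ D c' ∧ f c ≠ f c' ∧ g c ≠ g c' := by
  by_cases h1 : g a ≠ g a'
  · exact ⟨a, a', ha, ha', hf, h1⟩
  push Not at h1
  by_cases h2 : g b = g a
  · by_cases h3 : f b' = f a
    · refine ⟨b', a', hb', ha', by rw [h3]; exact hf, ?_⟩
      rw [← h1, ← h2]; exact hg.symm
    · exact ⟨b', a, hb', ha, h3, by rw [← h2]; exact hg.symm⟩
  · by_cases h3 : f b = f a
    · exact ⟨b, a', hb, ha', by rw [h3]; exact hf, by rw [← h1]; exact h2⟩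
    · exact ⟨b, a, hb, ha, h3, h2⟩

lemma good_case (H : Forb R P) (h5 : H5 R P) {a p q : ι} {x' z0 : ι → Bool}
    (T : T3 R P a p q x')
    (Z : ∀ β γ δ : Bool, ∃ z ∈ P, z p = β ∧ z q = γ ∧ ∀ r ∈ R, r ≠ p → r ≠ q → z r = xor (z0 r) δ)
    {r r' : ι} (hr : r ∈ R ∧ r ≠ a ∧ r ≠ p ∧ r ≠ q) (hr' : r' ∈ R ∧ r' ≠ a ∧ r' ≠ p ∧ r' ≠ q)
    (hz : xor (z0 r) (x' r) ≠ xor (z0 r') (x' r')) : False := by
  obtain ⟨ξ0, hξ, s, hs, s', hs', k, k', hk⟩ := h5 a T.hi p q x'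
  obtain ⟨c, c', hc, hc', e1, e2⟩ := both_sep (D := fun r => r ∈ R ∧ r ≠ a ∧ r ≠ p ∧ r ≠ q)
    (f := fun r => xor (z0 r) (x' r)) (g := fun r => xor (ξ0 r) (x' r)) hr hr' ⟨hs, k⟩ ⟨hs', k'⟩
    hz hk
  obtain ⟨z, mz, z1, z2, z3⟩ := Z (!ξ0 p) (!ξ0 q) (xor (z0 c) (ξ0 c))
  obtain ⟨ξ, mξ, y1, y2⟩ := hξ (!z a)
  refine L1 H T.cube hc.1 hc.2.1 hc.2.2.1 hc'.1 hc'.2.1 hc'.2.2.1 T.hw T.niw.symm T.njw.symm
    (by simp [hc.2.2.2, hc'.2.2.2]) (by simp [hc.2.2.2]) mξ mz ?_ ?_ ?_ (by rw [y1]; simp)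
    (by rw [z1, y2 p T.hj T.nij.symm]) (by rw [z2, y2 q T.hw T.niw.symm])
  · rw [y2 c hc.1 hc.2.1, y2 c' hc'.1 hc'.2.1]
    revert e2; cases ξ0 c <;> cases ξ0 c' <;> cases x' c <;> cases x' c' <;> simp
  · rw [y2 c hc.1 hc.2.1, z3 c hc.1 hc.2.2.1 hc.2.2.2]; simp
  · rw [y2 c' hc'.1 hc'.2.1, z3 c' hc'.1 hc'.2.2.1 hc'.2.2.2]
    revert e1 e2
    cases ξ0 c <;> cases ξ0 c' <;> cases x' c <;> cases x' c' <;> cases z0 c <;> cases z0 c' <;>
      simp

lemma caseI_2 (H : Forb R P) (h5 : H5 R P) {i j w a a' : ι} {y side' u : ι → Bool}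
    (T : T3 R P i j w y) (K' : Cube R P a i side' u) (haj : a ≠ j) (haw : a ≠ w)
    (ha' : a' ∈ R) (h1 : a' ≠ i) (h2 : a' ≠ j) (h3 : a' ≠ w) (h4 : a' ≠ a)
    (hjw : side' j ≠ side' w)
    (hall : ∀ r ∈ R, r ≠ i → r ≠ j → r ≠ w → r ≠ a → side' r = side' w) : False := by
  have T' : T3 R P a i j u := by
    apply K'.t3 T.hj haj.symm T.nij.symm
    intro r hr k1 k2 k3
    by_cases h : r = w
    · subst h; exact hjw.symm
    · rw [hall r hr k2 k3 h k1]; exact hjw.symm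
  refine good_case H h5 T' (z0 := fun r => if r = w then xor (xor (y a') (u a')) (!u w) else y r)
    (fun β γ δ => ?_) ⟨T.hw, haw.symm, T.niw.symm, T.njw.symm⟩ ⟨ha', h4, h1, h2⟩ ?_
  · obtain ⟨x, hx, e1, e2, e3, e4⟩ := T.col β γ (xor (xor (xor (y a') (u a')) (!u w)) δ) δ
    refine ⟨x, hx, e1, e2, fun r hr k1 k2 => ?_⟩
    by_cases h : r = w
    · subst h; simp [e3]
    · simp [h, e4 r hr k1 k2 h]
  · simp only [if_true, h3, if_false]
    cases y a' <;> cases u a' <;> cases u w <;> simp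

lemma caseI_1 (H : Forb R P) (h5 : H5 R P) {i j w a a' : ι} {y side' u : ι → Bool}
    (T : T3 R P i j w y) (K' : Cube R P a i side' u) (haj : a ≠ j) (haw : a ≠ w)
    (ha' : a' ∈ R) (h1 : a' ≠ i) (h2 : a' ≠ j) (h3 : a' ≠ w) (h4 : a' ≠ a) : False := by
  have key : ∀ r ∈ R, r ≠ i → r ≠ j → r ≠ w → r ≠ a → side' j = side' r ∨ side' w = side' r := by
    intro r hr k1 k2 k3 k4
    rcases L1b H T.cube K' K'.ne haj hr k1 k2 k4 k1 (by simp [k3, haw]) with h | h | h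
    · exact absurd rfl h.1
    · exact Or.inl h.2
    · exact Or.inr (h w T.hw T.niw.symm T.njw.symm (by simp [haw])).2
  by_cases hjw : side' j = side' w
  · obtain ⟨r, hr, k1, k2, k3⟩ := K'.two (!side' j)
    by_cases e1 : r = j
    · subst e1; simp at k3
    by_cases e2 : r = w
    · subst e2; rw [hjw] at k3; simp at k3
    rcases key r hr k2 e1 e2 k1 with h | h
    · rw [← h] at k3; simp at k3
    · rw [← h, ← hjw] at k3; simp at k3
  by_cases hA : ∀ r ∈ R, r ≠ i → r ≠ j → r ≠ w → r ≠ a → side' r = side' w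
  · exact caseI_2 H h5 T K' haj haw ha' h1 h2 h3 h4 hjw hA
  by_cases hB : ∀ r ∈ R, r ≠ i → r ≠ w → r ≠ j → r ≠ a → side' r = side' j
  · exact caseI_2 H h5 T.swap23 K' haw haj ha' h1 h3 h2 h4 (Ne.symm hjw) hB
  push Not at hA hB
  obtain ⟨b, hb, b1, b2, b3, b4, b5⟩ := hA
  obtain ⟨c, hc, c1, c3, c2, c4, c5⟩ := hB
  have eb : side' j = side' b := by
    rcases key b hb b1 b2 b3 b4 with h | h
    · exact h
    · exact absurd h.symm b5
  have ec : side' w = side' c := by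
    rcases key c hc c1 c2 c3 c4 with h | h
    · exact absurd h.symm c5
    · exact h
  exact L96a H T.cube K' haj hb b1 b2 b4 hc c1 c2 c4 T.hw T.niw.symm T.njw.symm
    (by simp [b3, haw]) (by simp [c3, haw]) (by simp [haw]) eb ec (by rw [← eb, ← ec]; exact hjw)

lemma caseI (H : Forb R P) (h5 : H5 R P) (hR : 5 ≤ R.card)
    (hK : ∀ a ∈ R, ∃ s side y, Cube R P a s side y) {i j w : ι} {y : ι → Bool}
    (T : T3 R P i j w y) : False := by
  have hc : 1 < (((R.erase i).erase j).erase w).card := by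
    have e1 := Finset.pred_card_le_card_erase (s := R) (a := i)
    have e2 := Finset.pred_card_le_card_erase (s := R.erase i) (a := j)
    have e3 := Finset.pred_card_le_card_erase (s := (R.erase i).erase j) (a := w)
    omega
  obtain ⟨a, ha, a', ha', hne⟩ := Finset.one_lt_card.mp hc
  simp only [Finset.mem_erase] at ha ha'
  obtain ⟨s, side', u, K'⟩ := hK a ha.2.2.2
  by_cases e1 : s = i
  · subst e1
    exact caseI_1 H h5 T K' ha.2.1 ha.1 ha'.2.2.2 ha'.2.2.1 ha'.2.1 ha'.1 hne.symm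
  by_cases e2 : s = j
  · subst e2
    exact caseI_1 H h5 T.swap12 K' ha.2.2.1 ha.1 ha'.2.2.2 ha'.2.1 ha'.2.2.1 ha'.1 hne.symm
  by_cases e3 : s = w
  · subst e3
    exact caseI_1 H h5 T.swap23.swap12 K' ha.2.2.1 ha.2.1 ha'.2.2.2 ha'.1 ha'.2.2.1 ha'.2.1
      hne.symm
  exact L1a H T.cube K' ha.2.2.1 ha.2.1 e1 e2 (by simp [e3, ha.1])

lemma Cube.other (NT : ∀ i j w y, ¬ T3 R P i j w y) {i j : ι} {side y : ι → Bool}
    (K : Cube R P i j side y) {w : ι} (hw : w ∈ R) (hwi : w ≠ i) (hwj : w ≠ j) :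
    ∃ r ∈ R, r ≠ i ∧ r ≠ j ∧ r ≠ w ∧ side r = side w := by
  by_contra h
  push Not at h
  exact NT i j w y (K.t3 hw hwi hwj h)

lemma bool_ne_ne {a b c : Bool} (h1 : a ≠ c) (h2 : b ≠ c) : a = b := by
  revert h1 h2; cases a <;> cases b <;> cases c <;> simp

lemma caseII_W (H : Forb R P) (NT : ∀ i j w y, ¬ T3 R P i j w y) {i j a s : ι}
    {side y side' u : ι → Bool} (K : Cube R P i j side y) (K' : Cube R P a s side' u)
    (hai : a ≠ i) (haj : a ≠ j) (hsi : s ≠ i) (hsj : s ≠ j) (hs : side a ≠ side s) : False := by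
  obtain ⟨a', ha', a1, a2, a3, a4⟩ := K.other NT K'.hi hai haj
  obtain ⟨c', hc', c1, c2, c3, c4⟩ := K.other NT K'.hj hsi hsj
  by_cases hex : ∃ a' ∈ R, ∃ c' ∈ R, (a' ≠ i ∧ a' ≠ j ∧ a' ≠ a ∧ side a' = side a) ∧
      (c' ≠ i ∧ c' ≠ j ∧ c' ≠ s ∧ side c' = side s) ∧ side' a' ≠ side' c'
  · obtain ⟨a', ha', c', hc', ⟨a1, a2, a3, a4⟩, ⟨c1, c2, c3, c4⟩, h⟩ := hex
    exact L128a H K K' hai haj hsi hsj ha' a1 a2 a3 hc' c1 c2 c3 a4 hs c4 h
  push Not at hex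
  have has' : a' ≠ s := by intro h; subst h; exact hs a4.symm
  -- every row other than `i, j, a, s` has the side of `a'`
  have hall : ∀ r ∈ R, r ≠ i → r ≠ j → r ≠ a → r ≠ s → side' r = side' a' := by
    intro r hr k1 k2 k3 k4
    by_cases h : side r = side a
    · rw [hex r hr c' hc' ⟨k1, k2, k3, h⟩ ⟨c1, c2, c3, c4⟩,
        hex a' ha' c' hc' ⟨a1, a2, a3, a4⟩ ⟨c1, c2, c3, c4⟩]
    · exact (hex a' ha' r hr ⟨a1, a2, a3, a4⟩ ⟨k1, k2, k4, bool_ne_ne h hs.symm⟩).symm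
  obtain ⟨r, hr, r1, r2, r3⟩ := K'.two (!side' a')
  obtain ⟨r', hr', r1', r2', r4, r3'⟩ := K'.other NT hr r1 r2
  have mem : ∀ x ∈ R, x ≠ a → x ≠ s → side' x = (!side' a') → x = i ∨ x = j := by
    intro x hx k1 k2 k3
    by_contra h
    push Not at h
    rw [hall x hx h.1 h.2 k1 k2] at k3
    simp at k3
  have m1 := mem r hr r1 r2 r3
  have m2 := mem r' hr' r1' r2' (by rw [r3', r3])
  have hi : side' i = !side' a' := by
    rcases m1 with rfl | rfl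
    · exact r3
    · rcases m2 with rfl | rfl
      · rw [r3', r3]
      · exact absurd rfl r4
  have hj : side' j = !side' a' := by
    rcases m1 with rfl | rfl
    · rcases m2 with rfl | rfl
      · exact absurd rfl r4
      · rw [r3', r3]
    · exact r3
  rcases L1b H K K' hai haj ha' a1 a2 a3 has' a4 with h | h | h
  · rw [hi] at h; simp at h
  · rw [hj] at h; simp at h
  · exact (h s K'.hj hsi hsj hs.symm).1 rfl

lemma caseII_bad (H : Forb R P) (NT : ∀ i j w y, ¬ T3 R P i j w y) {i j a : ι}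
    {side y side' u : ι → Bool} (K : Cube R P i j side y) (K' : Cube R P a i side' u)
    (haj : a ≠ j) :
    (∀ r ∈ R, r ≠ i → r ≠ j → r ≠ a → side r = side a → side' r = side' j) ∧
    (∀ r ∈ R, r ≠ i → r ≠ j → side r ≠ side a → side' r ≠ side' j) := by
  have hai := K'.ne
  have key : ∀ r ∈ R, r ≠ i → r ≠ j → r ≠ a → side r = side a → side' j = side' r ∨
      (∀ w ∈ R, w ≠ i → w ≠ j → side w ≠ side a → side' w = side' r) := by
    intro r hr k1 k2 k3 k4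
    rcases L1b H K K' hai haj hr k1 k2 k3 k1 k4 with h | h | h
    · exact absurd rfl h.1
    · exact Or.inl h.2
    · exact Or.inr fun w hw e1 e2 e3 => (h w hw e1 e2 e3).2
  obtain ⟨a', ha', a1, a2, a3, a4⟩ := K.other NT K'.hi hai haj
  obtain ⟨w, hw, w1, w2, w3⟩ := K.two (!side a)
  have w4 : side w ≠ side a := by rw [w3]; simp
  -- the far side is not split
  have hW : ∀ r ∈ R, r ≠ i → r ≠ j → side r ≠ side a → side' r = side' w := by
    intro r hr k1 k2 k3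
    by_contra hne
    have ej : side' j = side' a' := by
      rcases key a' ha' a1 a2 a3 a4 with h | h
      · exact h
      · exact absurd ((h r hr k1 k2 k3).trans (h w hw w1 w2 w4).symm) hne
    by_cases h : side' w = side' a'
    · exact L96b H K K' haj ha' a1 a2 a3 hw w1 w2 hr k1 k2 a4 w4.symm (bool_ne_ne k3 w4) ej h
        (by rw [← h]; exact fun e => hne e.symm)
    · exact L96b H K K' haj ha' a1 a2 a3 hr k1 k2 hw w1 w2 a4 k3.symm (bool_ne_ne w4 k3) ej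
        (bool_ne_ne hne (Ne.symm h)) (Ne.symm h)
  -- an element of the near side with the colour opposite to `w`
  obtain ⟨r, hr, r1, r2, r3⟩ := K'.two (!side' w)
  obtain ⟨r', hr', r1', r2', r4, r3'⟩ := K'.other NT hr r1 r2
  have hex : ∃ b ∈ R, b ≠ i ∧ b ≠ j ∧ b ≠ a ∧ side' b = !side' w := by
    by_cases h : r = j
    · exact ⟨r', hr', r2', h ▸ r4, r1', by rw [r3', r3]⟩
    · exact ⟨r, hr, r2, h, r1, r3⟩
  obtain ⟨b, hb, b1, b2, b3, b4⟩ := hex
  have b5 : side b = side a := by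
    by_contra h
    rw [hW b hb b1 b2 h] at b4; simp at b4
  have ej : side' j = side' b := by
    rcases key b hb b1 b2 b3 b5 with h | h
    · exact h
    · have := h w hw w1 w2 w4
      rw [b4] at this; simp at this
  have hjw : side' w ≠ side' j := by rw [ej, b4]; simp
  refine ⟨fun c hc c1 c2 c3 c4 => ?_, fun c hc c1 c2 c3 => ?_⟩
  · by_contra hne
    exact L96a H K K' haj hb b1 b2 b3 hc c1 c2 c3 hw w1 w2 b5 c4 w4.symm ej
      (bool_ne_ne hjw hne) (by rw [← ej]; exact fun e => hne e.symm)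
  · rw [hW c hc c1 c2 c3]; exact hjw

lemma caseII_fin (H : Forb R P) (NT : ∀ i j w y, ¬ T3 R P i j w y)
    (hK : ∀ a ∈ R, ∃ s side y, Cube R P a s side y) {i j a : ι}
    {side y side' u : ι → Bool} (K : Cube R P i j side y) (Ka : Cube R P a i side' u)
    (haj : a ≠ j) : False := by
  have hai := Ka.ne
  obtain ⟨A1, A2⟩ := caseII_bad H NT K Ka haj
  obtain ⟨a', ha', a1, a2, a3, a4⟩ := K.other NT Ka.hi hai haj
  obtain ⟨b, hb, b1, b2, b3⟩ := K.two (!side a)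
  have b4 : side b ≠ side a := by rw [b3]; simp
  obtain ⟨b', hb', b1', b2', b3', b4'⟩ := K.other NT hb b1 b2
  have b5 : side b' ≠ side a := by rw [b4']; exact b4
  have hab : a ≠ b := by intro h; subst h; exact b4 rfl
  have hab' : b' ≠ a := by intro h; subst h; exact b5 rfl
  have hab'' : a' ≠ b := by intro h; subst h; exact b4 a4
  have a5 : side a' ≠ side b := by rw [a4]; exact b4.symm
  obtain ⟨s, side'', v, Kb⟩ := hK b hb
  have sb := A2 b hb b1 b2 b4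
  have sb' := A2 b' hb' b1' b2' b5
  have sa' := A1 a' ha' a1 a2 a3 a4
  by_cases e1 : s = i
  · subst e1
    obtain ⟨B1, B2⟩ := caseII_bad H NT K Kb b2
    have tb' := B1 b' hb' b1' b2' b3' b4'
    rcases L1b H Ka Kb hab.symm b1 hb' hab' b1' b3' b1' (bool_ne_ne sb' sb) with h | h | h
    · exact B2 a Ka.hi hai haj b4.symm (h.2.trans tb')
    · exact h.1 rfl
    · exact B2 a' ha' a1 a2 a5
        ((h a' ha' a3 a1 (by rw [sa']; exact sb.symm)).2.trans tb')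
  by_cases e2 : s = j
  · subst e2
    obtain ⟨B1, B2⟩ := caseII_bad H NT K.symm Kb b1
    have tb' := B1 b' hb' b2' b1' b3' b4'
    have ta := B2 a Ka.hi haj hai b4.symm
    have ta' := B2 a' ha' a2 a1 a5
    exact L128b H Ka Kb K.ne haj b1 hab ha' a1 a2 a3 hab'' hb' b1' b2' hab' b3' sa'.symm
      (bool_ne_ne sb sb') (by rw [sa']; exact sb'.symm) tb'.symm (bool_ne_ne ta ta')
      (by rw [tb']; exact ta')
  by_cases e3 : side s = side b
  · exact L1a H K Kb b1 b2 e1 e2 e3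
  · exact caseII_W H NT K Kb b1 b2 e1 e2 (Ne.symm e3)

/-- The combinatorial core. -/
theorem core (H : Forb R P) (h5 : H5 R P) (hR : 5 ≤ R.card)
    (hK : ∀ a ∈ R, ∃ s side y, Cube R P a s side y) : False := by
  by_cases NT : ∀ i j w y, ¬ T3 R P i j w y
  · obtain ⟨i, hi⟩ := Finset.card_pos.mp (show 0 < R.card by omega)
    obtain ⟨j, side, y, K⟩ := hK i hi
    obtain ⟨a, ha, a1, a2, -⟩ := K.two true
    obtain ⟨s, side', u, Ka⟩ := hK a ha
    by_cases e1 : s = i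
    · subst e1; exact caseII_fin H NT hK K Ka a2
    by_cases e2 : s = j
    · subst e2; exact caseII_fin H NT hK K.symm Ka a1
    by_cases e3 : side s = side a
    · exact L1a H K Ka a1 a2 e1 e2 e3
    · exact caseII_W H NT K Ka a1 a2 e1 e2 (Ne.symm e3)
  · push Not at NT
    obtain ⟨i, j, w, y, T⟩ := NT
    exact caseI H h5 hR hK T

end Pool.Agent.H736Z.Heller
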