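import Mathlib

/-! Explicit determinant formulas for sizes 2 to 6, by Laplace expansion. -/

namespace Pool.Agent.H736Z.Heller

open Matrix

section
variable {R : Type} [CommRing R]

def d2 (a b c d : R) : R := a * d - b * c

def d3 (a0 a1 a2 b0 b1 b2 c0 c1 c2 : R) : R :=
  a0 * d2 b1 b2 c1 c2 - a1 * d2 b0 b2 c0 c2 + a2 * d2 b0 b1 c0 c1

def d4 (a0 a1 a2 a3 b0 b1 b2 b3 c0 c1 c2 c3 e0 e1 e2 e3 : R) : R :=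
  a0 * d3 b1 b2 b3 c1 c2 c3 e1 e2 e3 - a1 * d3 b0 b2 b3 c0 c2 c3 e0 e2 e3
    + a2 * d3 b0 b1 b3 c0 c1 c3 e0 e1 e3 - a3 * d3 b0 b1 b2 c0 c1 c2 e0 e1 e2

def d5 (a0 a1 a2 a3 a4 b0 b1 b2 b3 b4 c0 c1 c2 c3 c4 e0 e1 e2 e3 e4 f0 f1 f2 f3 f4 : R) : R :=
  a0 * d4 b1 b2 b3 b4 c1 c2 c3 c4 e1 e2 e3 e4 f1 f2 f3 f4
    - a1 * d4 b0 b2 b3 b4 c0 c2 c3 c4 e0 e2 e3 e4 f0 f2 f3 f4
    + a2 * d4 b0 b1 b3 b4 c0 c1 c3 c4 e0 e1 e3 e4 f0 f1 f3 f4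
    - a3 * d4 b0 b1 b2 b4 c0 c1 c2 c4 e0 e1 e2 e4 f0 f1 f2 f4
    + a4 * d4 b0 b1 b2 b3 c0 c1 c2 c3 e0 e1 e2 e3 f0 f1 f2 f3

def d6 (a0 a1 a2 a3 a4 a5 b0 b1 b2 b3 b4 b5 c0 c1 c2 c3 c4 c5 e0 e1 e2 e3 e4 e5
    f0 f1 f2 f3 f4 f5 g0 g1 g2 g3 g4 g5 : R) : R :=
  a0 * d5 b1 b2 b3 b4 b5 c1 c2 c3 c4 c5 e1 e2 e3 e4 e5 f1 f2 f3 f4 f5 g1 g2 g3 g4 g5
    - a1 * d5 b0 b2 b3 b4 b5 c0 c2 c3 c4 c5 e0 e2 e3 e4 e5 f0 f2 f3 f4 f5 g0 g2 g3 g4 g5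
    + a2 * d5 b0 b1 b3 b4 b5 c0 c1 c3 c4 c5 e0 e1 e3 e4 e5 f0 f1 f3 f4 f5 g0 g1 g3 g4 g5
    - a3 * d5 b0 b1 b2 b4 b5 c0 c1 c2 c4 c5 e0 e1 e2 e4 e5 f0 f1 f2 f4 f5 g0 g1 g2 g4 g5
    + a4 * d5 b0 b1 b2 b3 b5 c0 c1 c2 c3 c5 e0 e1 e2 e3 e5 f0 f1 f2 f3 f5 g0 g1 g2 g3 g5
    - a5 * d5 b0 b1 b2 b3 b4 c0 c1 c2 c3 c4 e0 e1 e2 e3 e4 f0 f1 f2 f3 f4 g0 g1 g2 g3 g4

lemma det2 (A : Matrix (Fin 2) (Fin 2) R) : A.det = d2 (A 0 0) (A 0 1) (A 1 0) (A 1 1) := by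
  rw [det_fin_two, d2]

lemma det3 (A : Matrix (Fin 3) (Fin 3) R) :
    A.det = d3 (A 0 0) (A 0 1) (A 0 2) (A 1 0) (A 1 1) (A 1 2) (A 2 0) (A 2 1) (A 2 2) := by
  rw [det_fin_three, d3, d2, d2, d2]; ring

lemma det4 (A : Matrix (Fin 4) (Fin 4) R) :
    A.det = d4 (A 0 0) (A 0 1) (A 0 2) (A 0 3) (A 1 0) (A 1 1) (A 1 2) (A 1 3)
      (A 2 0) (A 2 1) (A 2 2) (A 2 3) (A 3 0) (A 3 1) (A 3 2) (A 3 3) := by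
  rw [det_succ_row_zero, Fin.sum_univ_four, det3, det3, det3, det3, d4]
  have e0 : ((-1 : R) ^ ((0 : Fin 4) : ℕ)) = 1 := by simp
  have e1 : ((-1 : R) ^ ((1 : Fin 4) : ℕ)) = -1 := by simp
  have e2 : ((-1 : R) ^ ((2 : Fin 4) : ℕ)) = 1 := by
    show (-1 : R) ^ 2 = 1
    ring
  have e3 : ((-1 : R) ^ ((3 : Fin 4) : ℕ)) = -1 := by
    show (-1 : R) ^ 3 = -1
    ring
  rw [e0, e1, e2, e3]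
  simp only [one_mul, neg_mul, sub_eq_add_neg]
  rfl

lemma det5 (A : Matrix (Fin 5) (Fin 5) R) :
    A.det = d5 (A 0 0) (A 0 1) (A 0 2) (A 0 3) (A 0 4) (A 1 0) (A 1 1) (A 1 2) (A 1 3) (A 1 4)
      (A 2 0) (A 2 1) (A 2 2) (A 2 3) (A 2 4) (A 3 0) (A 3 1) (A 3 2) (A 3 3) (A 3 4)
      (A 4 0) (A 4 1) (A 4 2) (A 4 3) (A 4 4) := by
  rw [det_succ_row_zero, Fin.sum_univ_five, det4, det4, det4, det4, det4, d5]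
  have e0 : ((-1 : R) ^ ((0 : Fin 5) : ℕ)) = 1 := by simp
  have e1 : ((-1 : R) ^ ((1 : Fin 5) : ℕ)) = -1 := by simp
  have e2 : ((-1 : R) ^ ((2 : Fin 5) : ℕ)) = 1 := by
    show (-1 : R) ^ 2 = 1
    ring
  have e3 : ((-1 : R) ^ ((3 : Fin 5) : ℕ)) = -1 := by
    show (-1 : R) ^ 3 = -1
    ring
  have e4 : ((-1 : R) ^ ((4 : Fin 5) : ℕ)) = 1 := by
    show (-1 : R) ^ 4 = 1
    ring
  rw [e0, e1, e2, e3, e4]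
  simp only [one_mul, neg_mul, sub_eq_add_neg]
  rfl

lemma det6 (A : Matrix (Fin 6) (Fin 6) R) :
    A.det = d6 (A 0 0) (A 0 1) (A 0 2) (A 0 3) (A 0 4) (A 0 5)
      (A 1 0) (A 1 1) (A 1 2) (A 1 3) (A 1 4) (A 1 5)
      (A 2 0) (A 2 1) (A 2 2) (A 2 3) (A 2 4) (A 2 5)
      (A 3 0) (A 3 1) (A 3 2) (A 3 3) (A 3 4) (A 3 5)
      (A 4 0) (A 4 1) (A 4 2) (A 4 3) (A 4 4) (A 4 5)
      (A 5 0) (A 5 1) (A 5 2) (A 5 3) (A 5 4) (A 5 5) := by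
  rw [det_succ_row_zero, Fin.sum_univ_six, det5, det5, det5, det5, det5, det5, d6]
  have e0 : ((-1 : R) ^ ((0 : Fin 6) : ℕ)) = 1 := by simp
  have e1 : ((-1 : R) ^ ((1 : Fin 6) : ℕ)) = -1 := by simp
  have e2 : ((-1 : R) ^ ((2 : Fin 6) : ℕ)) = 1 := by
    show (-1 : R) ^ 2 = 1
    ring
  have e3 : ((-1 : R) ^ ((3 : Fin 6) : ℕ)) = -1 := by
    show (-1 : R) ^ 3 = -1
    ring
  have e4 : ((-1 : R) ^ ((4 : Fin 6) : ℕ)) = 1 := by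
    show (-1 : R) ^ 4 = 1
    ring
  have e5 : ((-1 : R) ^ ((5 : Fin 6) : ℕ)) = -1 := by
    show (-1 : R) ^ 5 = -1
    ring
  rw [e0, e1, e2, e3, e4, e5]
  simp only [one_mul, neg_mul, sub_eq_add_neg]
  rfl

end

end Pool.Agent.H736Z.Heller
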