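import Pool.Agent.H736Z.Heller.HalfZ

/-! The full-cube lemma. -/

namespace Pool.Agent.H736Z.Heller

set_option linter.unusedSectionVars false
set_option linter.unusedSimpArgs false

variable {ι : Type} [DecidableEq ι] [Fintype ι]
variable {F : Set (ι → ℝ)} {t : ι → ℝ}

/-- The value of a sign. -/
noncomputable def vl (b : Bool) : ℝ := if b then -1 / 2 else 1 / 2

lemma vl_not (b : Bool) : vl (!b) = -vl b := by cases b <;> simp [vl] <;> norm_num

lemma vl_abs (b : Bool) : |vl b| = 1 / 2 := by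
  cases b <;> simp [vl, abs_div]

lemma vl_decide {x : ℝ} (h : x = 1 / 2 ∨ x = -1 / 2) : x = vl (decide (x < 0)) := by
  rcases h with rfl | rfl <;> norm_num [vl]

lemma decide_vl (b : Bool) : decide (vl b < 0) = b := by
  cases b <;> norm_num [vl]

lemma half_val (hF : Feas F) {x : ι → ℝ} (hx : x ∈ Lat F t) {r : ι} (h : t r = 1 / 2) :
    x r = 1 / 2 ∨ x r = -1 / 2 := by
  rcases lat_val hF hx (r := r) (by rw [h]; norm_num) (by rw [h]; norm_num) with a | a
  · left; rw [a, h]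
  · right; rw [a, h]; norm_num

/-- Prescribed signs on four rows. -/
def Pat (q1 q2 q3 q4 : ι) (a b c d : Bool) (x : ι → ℝ) : Prop :=
  x q1 = vl a ∧ x q2 = vl b ∧ x q3 = vl c ∧ x q4 = vl d

lemma fc_det (hF : Feas F) (q1 q2 q3 q4 r : ι) (a b c d : Bool) {x1 x2 x3 x4 x5 : ι → ℝ}
    (m1 : x1 ∈ F) (m2 : x2 ∈ F) (m3 : x3 ∈ F) (m4 : x4 ∈ F) (m5 : x5 ∈ F)
    (p1 : Pat q1 q2 q3 q4 (!a) b c d x1) (p2 : Pat q1 q2 q3 q4 a (!b) c d x2)
    (p3 : Pat q1 q2 q3 q4 a b (!c) d x3) (p4 : Pat q1 q2 q3 q4 a b c (!d) x4)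
    (p5 : Pat q1 q2 q3 q4 a b c d x5) :
    |(x1 r + x2 r + x3 r + x4 r) / 2 - x5 r| ≤ 1 := by
  have := feas5 hF q1 q2 q3 q4 r m1 m2 m3 m4 m5
  simp only [p1.1, p1.2.1, p1.2.2.1, p1.2.2.2, p2.1, p2.2.1, p2.2.2.1, p2.2.2.2,
    p3.1, p3.2.1, p3.2.2.1, p3.2.2.2, p4.1, p4.2.1, p4.2.2.1, p4.2.2.2,
    p5.1, p5.2.1, p5.2.2.1, p5.2.2.2, vl_not] at this
  have e : ∀ A B C D h1 h2 h3 h4 h5 : ℝ, d5 (-A) A A A A B (-B) B B B C C (-C) C C D D D (-D) D
      h1 h2 h3 h4 h5 = A * B * C * D * (16 * ((h1 + h2 + h3 + h4) / 2 - h5)) := by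
    intros
    simp only [d5, d4, d3, d2]
    ring
  rw [e, abs_mul, abs_mul, abs_mul, abs_mul, abs_mul, vl_abs, vl_abs, vl_abs, vl_abs] at this
  norm_num at this ⊢
  linarith

/-- Width of a fibre. -/
def Wd (F : Set (ι → ℝ)) (q1 q2 q3 q4 r : ι) (a b c d : Bool) (n : ℝ) : Prop :=
  ∃ x ∈ F, ∃ x' ∈ F, Pat q1 q2 q3 q4 a b c d x ∧ Pat q1 q2 q3 q4 a b c d x' ∧ n ≤ x' r - x r

lemma Wd.neg (hF : Good F) {q1 q2 q3 q4 r : ι} {a b c d : Bool} {n : ℝ}
    (h : Wd F q1 q2 q3 q4 r a b c d n) : Wd F q1 q2 q3 q4 r (!a) (!b) (!c) (!d) n := by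
  obtain ⟨x, hx, x', hx', p, p', hn⟩ := h
  refine ⟨-x', hF.neg _ hx', -x, hF.neg _ hx, ?_, ?_, ?_⟩
  · simp [Pat, vl_not, p'.1, p'.2.1, p'.2.2.1, p'.2.2.2]
  · simp [Pat, vl_not, p.1, p.2.1, p.2.2.1, p.2.2.2]
  · simp; linarith

lemma wd_ineq (hF : Feas F) {q1 q2 q3 q4 r : ι} {a b c d : Bool} {n1 n2 n3 n4 n : ℝ}
    (h1 : Wd F q1 q2 q3 q4 r (!a) b c d n1) (h2 : Wd F q1 q2 q3 q4 r a (!b) c d n2)
    (h3 : Wd F q1 q2 q3 q4 r a b (!c) d n3) (h4 : Wd F q1 q2 q3 q4 r a b c (!d) n4)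
    (h5 : Wd F q1 q2 q3 q4 r a b c d n) : n1 + n2 + n3 + n4 + 2 * n ≤ 4 := by
  obtain ⟨x1, m1, y1, k1, p1, s1, e1⟩ := h1
  obtain ⟨x2, m2, y2, k2, p2, s2, e2⟩ := h2
  obtain ⟨x3, m3, y3, k3, p3, s3, e3⟩ := h3
  obtain ⟨x4, m4, y4, k4, p4, s4, e4⟩ := h4
  obtain ⟨x5, m5, y5, k5, p5, s5, e5⟩ := h5
  have A := abs_le.mp (fc_det hF q1 q2 q3 q4 r a b c d k1 k2 k3 k4 m5 s1 s2 s3 s4 p5)
  have B := abs_le.mp (fc_det hF q1 q2 q3 q4 r a b c d m1 m2 m3 m4 k5 p1 p2 p3 p4 s5)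
  linarith [A.2, B.1]

lemma fc_arith (w0000 w0001 w0010 w0011 w0100 w0101 w0110 w0111 w1000 w1001 w1010 w1011 w1100 w1101 w1110 w1111 : ℕ)
    (i0 : w1000 + w0100 + w0010 + w0001 + (w0111 + w1011 + w1101 + w1110) + 4 * w0000 ≤ 8)
    (i1 : w1001 + w0101 + w0011 + w0000 + (w0110 + w1010 + w1100 + w1111) + 4 * w0001 ≤ 8)
    (i2 : w1010 + w0110 + w0000 + w0011 + (w0101 + w1001 + w1111 + w1100) + 4 * w0010 ≤ 8)
    (i3 : w1011 + w0111 + w0001 + w0010 + (w0100 + w1000 + w1110 + w1101) + 4 * w0011 ≤ 8)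
    (i4 : w1100 + w0000 + w0110 + w0101 + (w0011 + w1111 + w1001 + w1010) + 4 * w0100 ≤ 8)
    (i5 : w1101 + w0001 + w0111 + w0100 + (w0010 + w1110 + w1000 + w1011) + 4 * w0101 ≤ 8)
    (i6 : w1110 + w0010 + w0100 + w0111 + (w0001 + w1101 + w1011 + w1000) + 4 * w0110 ≤ 8)
    (i7 : w1111 + w0011 + w0101 + w0110 + (w0000 + w1100 + w1010 + w1001) + 4 * w0111 ≤ 8)
    (i8 : w0000 + w1100 + w1010 + w1001 + (w1111 + w0011 + w0101 + w0110) + 4 * w1000 ≤ 8)
    (i9 : w0001 + w1101 + w1011 + w1000 + (w1110 + w0010 + w0100 + w0111) + 4 * w1001 ≤ 8)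
    (i10 : w0010 + w1110 + w1000 + w1011 + (w1101 + w0001 + w0111 + w0100) + 4 * w1010 ≤ 8)
    (i11 : w0011 + w1111 + w1001 + w1010 + (w1100 + w0000 + w0110 + w0101) + 4 * w1011 ≤ 8)
    (i12 : w0100 + w1000 + w1110 + w1101 + (w1011 + w0111 + w0001 + w0010) + 4 * w1100 ≤ 8)
    (i13 : w0101 + w1001 + w1111 + w1100 + (w1010 + w0110 + w0000 + w0011) + 4 * w1101 ≤ 8)
    (i14 : w0110 + w1010 + w1100 + w1111 + (w1001 + w0101 + w0011 + w0000) + 4 * w1110 ≤ 8)
    (i15 : w0111 + w1011 + w1101 + w1110 + (w1000 + w0100 + w0010 + w0001) + 4 * w1111 ≤ 8) :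
    w0000 + w0011 + w0101 + w0110 + w1001 + w1010 + w1100 + w1111 + (w0001 + w0010 + w0100 + w0111 + w1000 + w1011 + w1101 + w1110) ≤ 8 := by
  obtain ⟨E, hE⟩ : ∃ E, E = w0000 + w0011 + w0101 + w0110 + w1001 + w1010 + w1100 + w1111 := ⟨_, rfl⟩
  obtain ⟨O, hO⟩ : ∃ O, O = w0001 + w0010 + w0100 + w0111 + w1000 + w1011 + w1101 + w1110 := ⟨_, rfl⟩
  have j0 : O + 4 * w0000 ≤ 8 := by rw [hO]; linarith only [i0]
  have j1 : E + 4 * w0001 ≤ 8 := by rw [hE]; linarith only [i1]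
  have j2 : E + 4 * w0010 ≤ 8 := by rw [hE]; linarith only [i2]
  have j3 : O + 4 * w0011 ≤ 8 := by rw [hO]; linarith only [i3]
  have j4 : E + 4 * w0100 ≤ 8 := by rw [hE]; linarith only [i4]
  have j5 : O + 4 * w0101 ≤ 8 := by rw [hO]; linarith only [i5]
  have j6 : O + 4 * w0110 ≤ 8 := by rw [hO]; linarith only [i6]
  have j7 : E + 4 * w0111 ≤ 8 := by rw [hE]; linarith only [i7]
  have j8 : E + 4 * w1000 ≤ 8 := by rw [hE]; linarith only [i8]
  have j9 : O + 4 * w1001 ≤ 8 := by rw [hO]; linarith only [i9]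
  have j10 : O + 4 * w1010 ≤ 8 := by rw [hO]; linarith only [i10]
  have j11 : E + 4 * w1011 ≤ 8 := by rw [hE]; linarith only [i11]
  have j12 : O + 4 * w1100 ≤ 8 := by rw [hO]; linarith only [i12]
  have j13 : E + 4 * w1101 ≤ 8 := by rw [hE]; linarith only [i13]
  have j14 : E + 4 * w1110 ≤ 8 := by rw [hE]; linarith only [i14]
  have j15 : O + 4 * w1111 ≤ 8 := by rw [hO]; linarith only [i15]
  clear i0 i1 i2 i3 i4 i5 i6 i7 i8 i9 i10 i11 i12 i13 i14 i15
  have z : ∀ X x : ℕ, X + 4 * x ≤ 8 → 4 < X → x = 0 := by intro X x h1 h2; omega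
  rw [← hE, ← hO]
  by_cases h1 : 4 < O
  · have : E = 0 := by
      rw [hE, z O _ j0 h1, z O _ j3 h1, z O _ j5 h1, z O _ j6 h1, z O _ j9 h1, z O _ j10 h1, z O _ j12 h1, z O _ j15 h1]
    have := j0
    omega
  by_cases h2 : 4 < E
  · have : O = 0 := by
      rw [hO, z E _ j1 h2, z E _ j2 h2, z E _ j4 h2, z E _ j7 h2, z E _ j8 h2, z E _ j11 h2, z E _ j13 h2, z E _ j14 h2]
    have := j1
    omega
  omega

theorem fc (hF : Good F) {q1 q2 q3 q4 r : ι} (n1 : q1 ≠ r) (n2 : q2 ≠ r) (n3 : q3 ≠ r)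
    (n4 : q4 ≠ r) (t1 : t q1 = 1 / 2) (t2 : t q2 = 1 / 2) (t3 : t q3 = 1 / 2) (t4 : t q4 = 1 / 2)
    (hs : ∀ x ∈ F, ∀ s, s ≠ q1 → s ≠ q2 → s ≠ q3 → s ≠ q4 → s ≠ r → x s = 0)
    (full : ∀ a b c d, ∃ x ∈ F, Pat q1 q2 q3 q4 a b c d x) : (E1 F t r).ncard ≤ 8 := by
  classical
  have hfin := e1_finite hF.feas t r
  let f : (ι → ℝ) → Bool × Bool × Bool × Bool := fun x =>
    (decide (x q1 < 0), decide (x q2 < 0), decide (x q3 < 0), decide (x q4 < 0))
  let w : Bool × Bool × Bool × Bool → ℕ := fun σ => (hfin.toFinset.filter fun x => f x = σ).card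
  have hsum : (E1 F t r).ncard = ∑ σ, w σ := by
    rw [Set.ncard_eq_toFinset_card _ hfin]
    exact Finset.card_eq_sum_card_fiberwise (f := f) (t := Finset.univ)
      (fun _ _ => Finset.mem_univ _)
  have pat : ∀ a b c d x, x ∈ (hfin.toFinset.filter fun x => f x = (a, b, c, d)) →
      x ∈ E1 F t r ∧ Pat q1 q2 q3 q4 a b c d x := by
    intro a b c d x hx
    simp only [Finset.mem_filter, Set.Finite.mem_toFinset, f, Prod.mk.injEq] at hx
    obtain ⟨hx, e1, e2, e3, e4⟩ := hx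
    refine ⟨hx, ?_, ?_, ?_, ?_⟩
    · rw [← e1]; exact vl_decide (half_val hF.feas hx.1 t1)
    · rw [← e2]; exact vl_decide (half_val hF.feas hx.1 t2)
    · rw [← e3]; exact vl_decide (half_val hF.feas hx.1 t3)
    · rw [← e4]; exact vl_decide (half_val hF.feas hx.1 t4)
  have patup : ∀ a b c d x, Pat q1 q2 q3 q4 a b c d x → Pat q1 q2 q3 q4 a b c d (x + ee r) := by
    intro a b c d x p
    exact ⟨by rw [up_ne _ n1, p.1], by rw [up_ne _ n2, p.2.1], by rw [up_ne _ n3, p.2.2.1],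
      by rw [up_ne _ n4, p.2.2.2]⟩
  have sep : ∀ a b c d x y, x ∈ E1 F t r → y ∈ E1 F t r → Pat q1 q2 q3 q4 a b c d x →
      Pat q1 q2 q3 q4 a b c d y → x ≠ y → x r + 1 ≤ y r ∨ y r + 1 ≤ x r := by
    intro a b c d x y hx hy p p' hne
    apply lat_gap hx.1 hy.1
    intro h
    apply hne
    ext s
    by_cases e1 : s = q1
    · rw [e1, p.1, p'.1]
    by_cases e2 : s = q2
    · rw [e2, p.2.1, p'.2.1]
    by_cases e3 : s = q3
    · rw [e3, p.2.2.1, p'.2.2.1]
    by_cases e4 : s = q4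
    · rw [e4, p.2.2.2, p'.2.2.2]
    by_cases e5 : s = r
    · rw [e5, h]
    rw [hs x hx.1.1 s e1 e2 e3 e4 e5, hs y hy.1.1 s e1 e2 e3 e4 e5]
  have bd : ∀ x ∈ E1 F t r, -1 ≤ x r ∧ x r ≤ 0 := by
    intro x hx
    have a := abs_le.mp (feas1 hF.feas hx.1.1 r)
    have b := abs_le.mp (feas1 hF.feas hx.2 r)
    rw [up_self] at b
    exact ⟨a.1, by linarith [b.2]⟩
  have W : ∀ a b c d, Wd F q1 q2 q3 q4 r a b c d (w (a, b, c, d)) := by
    intro a b c d
    have h3 : w (a, b, c, d) ≤ 2 := by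
      by_contra h
      obtain ⟨x, y, z, hx, hy, hz, k1, k2, k3⟩ := Finset.two_lt_card_iff.mp (not_le.mp h)
      obtain ⟨hx, px⟩ := pat a b c d x hx
      obtain ⟨hy, py⟩ := pat a b c d y hy
      obtain ⟨hz, pz⟩ := pat a b c d z hz
      have b1 := bd x hx
      have b2 := bd y hy
      have b3 := bd z hz
      rcases sep a b c d x y hx hy px py k1 with g1 | g1 <;>
        rcases sep a b c d x z hx hz px pz k2 with g2 | g2 <;>
        rcases sep a b c d y z hy hz py pz k3 with g3 | g3 <;>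
        linarith [b1.1, b1.2, b2.1, b2.2, b3.1, b3.2]
    have : w (a, b, c, d) = 0 ∨ w (a, b, c, d) = 1 ∨ w (a, b, c, d) = 2 := by omega
    rcases this with h | h | h
    · obtain ⟨x, hx, p⟩ := full a b c d
      exact ⟨x, hx, x, hx, p, p, by simp [h]⟩
    · obtain ⟨x, hx⟩ := Finset.card_pos.mp (show 0 < w (a, b, c, d) by omega)
      obtain ⟨hx, px⟩ := pat a b c d x hx
      exact ⟨x, hx.1.1, x + ee r, hx.2, px, patup a b c d x px, by simp [h]⟩
    · obtain ⟨x, hx, y, hy, k⟩ := Finset.one_lt_card.mp (show 1 < w (a, b, c, d) by omega)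
      obtain ⟨hx, px⟩ := pat a b c d x hx
      obtain ⟨hy, py⟩ := pat a b c d y hy
      rcases sep a b c d x y hx hy px py k with g | g
      · exact ⟨x, hx.1.1, y + ee r, hy.2, px, patup a b c d y py, by
          rw [h, up_self]; push_cast; linarith⟩
      · exact ⟨y, hy.1.1, x + ee r, hx.2, py, patup a b c d x px, by
          rw [h, up_self]; push_cast; linarith⟩
  have I : ∀ a b c d : Bool, w (!a, b, c, d) + w (a, !b, c, d) + w (a, b, !c, d) + w (a, b, c, !d) +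
      (w (a, !b, !c, !d) + w (!a, b, !c, !d) + w (!a, !b, c, !d) + w (!a, !b, !c, d)) +
      4 * w (a, b, c, d) ≤ 8 := by
    intro a b c d
    have A := wd_ineq hF.feas (W (!a) b c d) (W a (!b) c d) (W a b (!c) d) (W a b c (!d))
      (W a b c d)
    have k1 := (W a (!b) (!c) (!d)).neg hF
    have k2 := (W (!a) b (!c) (!d)).neg hF
    have k3 := (W (!a) (!b) c (!d)).neg hF
    have k4 := (W (!a) (!b) (!c) d).neg hF
    simp only [Bool.not_not] at k1 k2 k3 k4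
    have B := wd_ineq hF.feas k1 k2 k3 k4 (W a b c d)
    have : ((w (!a, b, c, d) + w (a, !b, c, d) + w (a, b, !c, d) + w (a, b, c, !d) +
      (w (a, !b, !c, !d) + w (!a, b, !c, !d) + w (!a, !b, c, !d) + w (!a, !b, !c, d)) +
      4 * w (a, b, c, d) : ℕ) : ℝ) ≤ 8 := by push_cast; linarith
    exact_mod_cast this
  have key := fc_arith (w (false, false, false, false)) (w (false, false, false, true)) (w (false, false, true, false)) (w (false, false, true, true)) (w (false, true, false, false)) (w (false, true, false, true)) (w (false, true, true, false)) (w (false, true, true, true)) (w (true, false, false, false)) (w (true, false, false, true)) (w (true, false, true, false)) (w (true, false, true, true)) (w (true, true, false, false)) (w (true, true, false, true)) (w (true, true, true, false)) (w (true, true, true, true))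
    (I false false false false) (I false false false true) (I false false true false) (I false false true true) (I false true false false) (I false true false true) (I false true true false) (I false true true true) (I true false false false) (I true false false true) (I true false true false) (I true false true true) (I true true false false) (I true true false true) (I true true true false) (I true true true true)
  rw [hsum]
  simp only [Fintype.sum_prod_type, Fintype.sum_bool]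
  linarith only [key]

end Pool.Agent.H736Z.Heller
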