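import Pool.Agent.H736Z.Heller.FC
import Pool.Agent.H736Z.Heller.CubeB

/-! The forbidden sign patterns. -/

namespace Pool.Agent.H736Z.Heller

set_option linter.unusedSectionVars false
set_option linter.unusedSimpArgs false

variable {ι : Type} [DecidableEq ι] [Fintype ι]
variable {F : Set (ι → ℝ)} {t : ι → ℝ}

/-- Sign vectors realised in `F` on the rows `R`. -/
def SP (F : Set (ι → ℝ)) (R : Finset ι) : Set (ι → Bool) :=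
  {s | ∃ x ∈ F, ∀ r ∈ R, x r = vl (s r)}

lemma forb48 (hF : Feas F) (R : Finset ι) : F48 R (SP F R) := by
  intro r0 r1 r2 r3 r4 c0 c1 c2 c3 c4 p0 p1 p2 p3 p4 n0 n1 n2 n3 n4 ⟨x0, m0, e0⟩ ⟨x1, m1, e1⟩ ⟨x2, m2, e2⟩ ⟨x3, m3, e3⟩ ⟨x4, m4, e4⟩
    ⟨a00, a01, a02, a03, a04⟩ ⟨a10, a11, a12, a13, a14⟩ ⟨a20, a21, a22, a23, a24⟩ ⟨a30, a31, a32, a33, a34⟩ ⟨a40, a41, a42, a43, a44⟩
  have := feas5 hF r0 r1 r2 r3 r4 m0 m1 m2 m3 m4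
  simp only [e0 r0 n0, e0 r1 n1, e0 r2 n2, e0 r3 n3, e0 r4 n4, e1 r0 n0, e1 r1 n1, e1 r2 n2, e1 r3 n3, e1 r4 n4, e2 r0 n0, e2 r1 n1, e2 r2 n2, e2 r3 n3, e2 r4 n4, e3 r0 n0, e3 r1 n1, e3 r2 n2, e3 r3 n3, e3 r4 n4, e4 r0 n0, e4 r1 n1, e4 r2 n2, e4 r3 n3, e4 r4 n4] at this
  simp only [a00, a01, a02, a03, a04, a10, a11, a12, a13, a14, a20, a21, a22, a23, a24, a30, a31, a32, a33, a34, a40, a41, a42, a43, a44, vl_not] at this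
  have e : ∀ A0 A1 A2 A3 A4 : ℝ, d5 A0 A0 A0 A0 A0 A1 A1 (-A1) (-A1) (-A1) A2 (-A2) A2 A2 (-A2) A3 (-A3) A3 (-A3) A3 A4 (-A4) (-A4) A4 A4 =
      A0 * A1 * A2 * A3 * A4 * (48) := by
    intros
    simp only [d5, d4, d3, d2]
    ring
  rw [e, abs_mul, abs_mul, abs_mul, abs_mul, abs_mul, vl_abs, vl_abs, vl_abs, vl_abs, vl_abs] at this
  norm_num at this

lemma forb96a (hF : Feas F) (R : Finset ι) : F96a R (SP F R) := by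
  intro r0 r1 r2 r3 r4 r5 c0 c1 c2 c3 c4 c5 p0 p1 p2 p3 p4 p5 n0 n1 n2 n3 n4 n5 ⟨x0, m0, e0⟩ ⟨x1, m1, e1⟩ ⟨x2, m2, e2⟩ ⟨x3, m3, e3⟩ ⟨x4, m4, e4⟩ ⟨x5, m5, e5⟩
    ⟨a00, a01, a02, a03, a04, a05⟩ ⟨a10, a11, a12, a13, a14, a15⟩ ⟨a20, a21, a22, a23, a24, a25⟩ ⟨a30, a31, a32, a33, a34, a35⟩ ⟨a40, a41, a42, a43, a44, a45⟩ ⟨a50, a51, a52, a53, a54, a55⟩
  have := feas6 hF r0 r1 r2 r3 r4 r5 m0 m1 m2 m3 m4 m5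
  simp only [e0 r0 n0, e0 r1 n1, e0 r2 n2, e0 r3 n3, e0 r4 n4, e0 r5 n5, e1 r0 n0, e1 r1 n1, e1 r2 n2, e1 r3 n3, e1 r4 n4, e1 r5 n5, e2 r0 n0, e2 r1 n1, e2 r2 n2, e2 r3 n3, e2 r4 n4, e2 r5 n5, e3 r0 n0, e3 r1 n1, e3 r2 n2, e3 r3 n3, e3 r4 n4, e3 r5 n5, e4 r0 n0, e4 r1 n1, e4 r2 n2, e4 r3 n3, e4 r4 n4, e4 r5 n5, e5 r0 n0, e5 r1 n1, e5 r2 n2, e5 r3 n3, e5 r4 n4, e5 r5 n5] at this
  simp only [a00, a01, a02, a03, a04, a05, a10, a11, a12, a13, a14, a15, a20, a21, a22, a23, a24, a25, a30, a31, a32, a33, a34, a35, a40, a41, a42, a43, a44, a45, a50, a51, a52, a53, a54, a55, vl_not] at this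
  have e : ∀ A0 A1 A2 A3 A4 A5 : ℝ, d6 A0 A0 A0 A0 A0 A0 A1 A1 (-A1) A1 (-A1) (-A1) A2 (-A2) A2 (-A2) A2 (-A2) (-A3) A3 A3 (-A3) (-A3) A3 (-A4) A4 A4 A4 (-A4) (-A4) (-A5) A5 A5 (-A5) A5 (-A5) =
      A0 * A1 * A2 * A3 * A4 * A5 * (96) := by
    intros
    simp only [d6, d5, d4, d3, d2]
    ring
  rw [e, abs_mul, abs_mul, abs_mul, abs_mul, abs_mul, abs_mul, vl_abs, vl_abs, vl_abs, vl_abs, vl_abs, vl_abs] at this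
  norm_num at this

lemma forb96b (hF : Feas F) (R : Finset ι) : F96b R (SP F R) := by
  intro r0 r1 r2 r3 r4 r5 c0 c1 c2 c3 c4 c5 p0 p1 p2 p3 p4 p5 n0 n1 n2 n3 n4 n5 ⟨x0, m0, e0⟩ ⟨x1, m1, e1⟩ ⟨x2, m2, e2⟩ ⟨x3, m3, e3⟩ ⟨x4, m4, e4⟩ ⟨x5, m5, e5⟩
    ⟨a00, a01, a02, a03, a04, a05⟩ ⟨a10, a11, a12, a13, a14, a15⟩ ⟨a20, a21, a22, a23, a24, a25⟩ ⟨a30, a31, a32, a33, a34, a35⟩ ⟨a40, a41, a42, a43, a44, a45⟩ ⟨a50, a51, a52, a53, a54, a55⟩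
  have := feas6 hF r0 r1 r2 r3 r4 r5 m0 m1 m2 m3 m4 m5
  simp only [e0 r0 n0, e0 r1 n1, e0 r2 n2, e0 r3 n3, e0 r4 n4, e0 r5 n5, e1 r0 n0, e1 r1 n1, e1 r2 n2, e1 r3 n3, e1 r4 n4, e1 r5 n5, e2 r0 n0, e2 r1 n1, e2 r2 n2, e2 r3 n3, e2 r4 n4, e2 r5 n5, e3 r0 n0, e3 r1 n1, e3 r2 n2, e3 r3 n3, e3 r4 n4, e3 r5 n5, e4 r0 n0, e4 r1 n1, e4 r2 n2, e4 r3 n3, e4 r4 n4, e4 r5 n5, e5 r0 n0, e5 r1 n1, e5 r2 n2, e5 r3 n3, e5 r4 n4, e5 r5 n5] at this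
  simp only [a00, a01, a02, a03, a04, a05, a10, a11, a12, a13, a14, a15, a20, a21, a22, a23, a24, a25, a30, a31, a32, a33, a34, a35, a40, a41, a42, a43, a44, a45, a50, a51, a52, a53, a54, a55, vl_not] at this
  have e : ∀ A0 A1 A2 A3 A4 A5 : ℝ, d6 A0 A0 A0 A0 A0 A0 A1 A1 (-A1) A1 (-A1) (-A1) A2 (-A2) A2 (-A2) A2 (-A2) A3 (-A3) A3 A3 (-A3) (-A3) (-A4) A4 A4 A4 (-A4) (-A4) (-A5) A5 A5 (-A5) (-A5) A5 =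
      A0 * A1 * A2 * A3 * A4 * A5 * (96) := by
    intros
    simp only [d6, d5, d4, d3, d2]
    ring
  rw [e, abs_mul, abs_mul, abs_mul, abs_mul, abs_mul, abs_mul, vl_abs, vl_abs, vl_abs, vl_abs, vl_abs, vl_abs] at this
  norm_num at this

lemma forb128a (hF : Feas F) (R : Finset ι) : F128a R (SP F R) := by
  intro r0 r1 r2 r3 r4 r5 c0 c1 c2 c3 c4 c5 p0 p1 p2 p3 p4 p5 n0 n1 n2 n3 n4 n5 ⟨x0, m0, e0⟩ ⟨x1, m1, e1⟩ ⟨x2, m2, e2⟩ ⟨x3, m3, e3⟩ ⟨x4, m4, e4⟩ ⟨x5, m5, e5⟩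
    ⟨a00, a01, a02, a03, a04, a05⟩ ⟨a12, a13, a14, a15⟩ ⟨a20, a21, a22, a23, a24, a25⟩ ⟨a30, a31, a32, a33, a34, a35⟩ ⟨a40, a41, a42, a43, a44, a45⟩ ⟨a50, a51, a52, a53, a54, a55⟩
  have := feas6 hF r0 r1 r2 r3 r4 r5 m0 m1 m2 m3 m4 m5
  simp only [e0 r0 n0, e0 r1 n1, e0 r2 n2, e0 r3 n3, e0 r4 n4, e0 r5 n5, e1 r2 n2, e1 r3 n3, e1 r4 n4, e1 r5 n5, e2 r0 n0, e2 r1 n1, e2 r2 n2, e2 r3 n3, e2 r4 n4, e2 r5 n5, e3 r0 n0, e3 r1 n1, e3 r2 n2, e3 r3 n3, e3 r4 n4, e3 r5 n5, e4 r0 n0, e4 r1 n1, e4 r2 n2, e4 r3 n3, e4 r4 n4, e4 r5 n5, e5 r0 n0, e5 r1 n1, e5 r2 n2, e5 r3 n3, e5 r4 n4, e5 r5 n5] at this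
  simp only [a00, a01, a02, a03, a04, a05, a12, a13, a14, a15, a20, a21, a22, a23, a24, a25, a30, a31, a32, a33, a34, a35, a40, a41, a42, a43, a44, a45, a50, a51, a52, a53, a54, a55, vl_not] at this
  have e : ∀ A0 A1 A2 A3 A4 A5 U0 U1 : ℝ, d6 A0 U0 A0 A0 A0 A0 A1 U1 A1 A1 (-A1) (-A1) A2 A2 A2 (-A2) A2 (-A2) A3 A3 (-A3) A3 (-A3) A3 A4 (-A4) A4 (-A4) (-A4) A4 A5 (-A5) (-A5) A5 A5 (-A5) =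
      A0 * A1 * A2 * A3 * A4 * A5 * (-128) := by
    intros
    simp only [d6, d5, d4, d3, d2]
    ring
  rw [e, abs_mul, abs_mul, abs_mul, abs_mul, abs_mul, abs_mul, vl_abs, vl_abs, vl_abs, vl_abs, vl_abs, vl_abs] at this
  norm_num at this

lemma forb128b (hF : Feas F) (R : Finset ι) : F128b R (SP F R) := by
  intro r0 r1 r2 r3 r4 r5 c0 c1 c2 c3 c4 c5 p0 p1 p2 p3 p4 p5 n0 n1 n2 n3 n4 n5 ⟨x0, m0, e0⟩ ⟨x1, m1, e1⟩ ⟨x2, m2, e2⟩ ⟨x3, m3, e3⟩ ⟨x4, m4, e4⟩ ⟨x5, m5, e5⟩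
    ⟨a00, a01, a02, a03, a04, a05⟩ ⟨a10, a11, a12, a13, a14, a15⟩ ⟨a20, a21, a22, a23, a24, a25⟩ ⟨a30, a31, a32, a33, a34, a35⟩ ⟨a40, a41, a42, a43, a44, a45⟩ ⟨a50, a51, a52, a53, a54, a55⟩
  have := feas6 hF r0 r1 r2 r3 r4 r5 m0 m1 m2 m3 m4 m5
  simp only [e0 r0 n0, e0 r1 n1, e0 r2 n2, e0 r3 n3, e0 r4 n4, e0 r5 n5, e1 r0 n0, e1 r1 n1, e1 r2 n2, e1 r3 n3, e1 r4 n4, e1 r5 n5, e2 r0 n0, e2 r1 n1, e2 r2 n2, e2 r3 n3, e2 r4 n4, e2 r5 n5, e3 r0 n0, e3 r1 n1, e3 r2 n2, e3 r3 n3, e3 r4 n4, e3 r5 n5, e4 r0 n0, e4 r1 n1, e4 r2 n2, e4 r3 n3, e4 r4 n4, e4 r5 n5, e5 r0 n0, e5 r1 n1, e5 r2 n2, e5 r3 n3, e5 r4 n4, e5 r5 n5] at this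
  simp only [a00, a01, a02, a03, a04, a05, a10, a11, a12, a13, a14, a15, a20, a21, a22, a23, a24, a25, a30, a31, a32, a33, a34, a35, a40, a41, a42, a43, a44, a45, a50, a51, a52, a53, a54, a55, vl_not] at this
  have e : ∀ A0 A1 A2 A3 A4 A5 : ℝ, d6 A0 A0 A0 A0 A0 A0 A1 A1 (-A1) (-A1) A1 (-A1) A2 (-A2) A2 (-A2) (-A2) A2 A3 A3 (-A3) (-A3) (-A3) A3 A4 (-A4) (-A4) A4 (-A4) (-A4) A5 (-A5) (-A5) A5 A5 A5 =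
      A0 * A1 * A2 * A3 * A4 * A5 * (-128) := by
    intros
    simp only [d6, d5, d4, d3, d2]
    ring
  rw [e, abs_mul, abs_mul, abs_mul, abs_mul, abs_mul, abs_mul, vl_abs, vl_abs, vl_abs, vl_abs, vl_abs, vl_abs] at this
  norm_num at this

lemma forb (hF : Feas F) (R : Finset ι) : Forb R (SP F R) :=
  ⟨forb48 hF R, forb96a hF R, forb96b hF R, forb128a hF R, forb128b hF R⟩

end Pool.Agent.H736Z.Heller
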