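import Pool.Agent.H736Z.Heller.LemA1

/-! Half-integral shifts: deleting rows with integer entries. -/

namespace Pool.Agent.H736Z.Heller

open Matrix

set_option linter.unusedSectionVars false
set_option linter.unusedSimpArgs false

variable {ι : Type} [DecidableEq ι] [Fintype ι]
variable {F : Set (ι → ℝ)} {t : ι → ℝ}

lemma neg_lat (hF : Good F) (ht : ∀ r, t r = 0 ∨ t r = 1 / 2) {x : ι → ℝ} (hx : x ∈ Lat F t) :
    -x ∈ Lat F t := by
  refine ⟨hF.neg x hx.1, fun r => ?_⟩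
  obtain ⟨z, hz⟩ := hx.2 r
  rcases ht r with h | h
  · exact ⟨-z, by simp [hz, h]⟩
  · exact ⟨-z - 1, by simp [hz, h]; ring⟩

lemma neg_e2 (hF : Good F) (ht : ∀ r, t r = 0 ∨ t r = 1 / 2) {i j : ι} {x : ι → ℝ}
    (hx : x ∈ E2 F t i j) : -(x + ee i + ee j) ∈ E2 F t i j := by
  refine ⟨neg_lat hF ht (lat_add_ee (lat_add_ee hx.1 hx.2.1) hx.2.2.2), ?_, ?_, ?_⟩
  · have : -(x + ee i + ee j) + ee i = -(x + ee j) := by abel
    rw [this]; exact hF.neg _ hx.2.2.1
  · have : -(x + ee i + ee j) + ee j = -(x + ee i) := by abel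
    rw [this]; exact hF.neg _ hx.2.1
  · have : -(x + ee i + ee j) + ee i + ee j = -x := by abel
    rw [this]; exact hF.neg _ hx.1.1

/-- Squares starting at height zero in the integer row `w`. -/
def Y0 (F : Set (ι → ℝ)) (t : ι → ℝ) (i w : ι) : Set (ι → ℝ) := {x | x ∈ E2 F t i w ∧ x w = 0}

lemma y0_finite (hF : Good F) (i w : ι) : (Y0 F t i w).Finite :=
  (e2_finite hF.feas t i w).subset fun _ hx => hx.1

lemma half_double (hF : Good F) (ht : ∀ r, t r = 0 ∨ t r = 1 / 2) {i w : ι} (hwi : w ≠ i)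
    (hw : t w = 0) : (E2 F t i w).ncard ≤ 2 * (Y0 F t i w).ncard := by
  have hsub : E2 F t i w ⊆ Y0 F t i w ∪ (fun x => -(x + ee i + ee w)) '' Y0 F t i w := by
    intro x hx
    rcases lower_valZ hF.feas hx.1 hx.2.2.1 hw with h | h
    · right
      refine ⟨-(x + ee i + ee w), ⟨neg_e2 hF ht hx, ?_⟩, ?_⟩
      · simp [ee_ne hwi, h]
      · simp only; abel
    · exact Or.inl ⟨hx, h⟩
  have hf := y0_finite (t := t) hF i w
  calc (E2 F t i w).ncard ≤ _ := Set.ncard_le_ncard hsub (hf.union (hf.image _))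
    _ ≤ _ := Set.ncard_union_le _ _
    _ ≤ (Y0 F t i w).ncard + (Y0 F t i w).ncard :=
        Nat.add_le_add_left (Set.ncard_image_le hf) _
    _ = _ := by ring

lemma zz (hF : Good F) (ht : ∀ r, t r = 0 ∨ t r = 1 / 2) {u w : ι} (hwu : w ≠ u)
    (hu : t u = 0) (hw : t w = 0) : (E2 F t u w).ncard ≤ 2 := by
  have h1 : (Y0 F t u w).ncard ≤ 1 := by
    rw [Set.ncard_le_one_iff (y0_finite hF u w)]
    have mix : ∀ y y' : ι → ℝ, y ∈ Y0 F t u w → y' ∈ Y0 F t u w → y u = 0 → y' u = -1 →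
        False := by
      intro y y' hy hy' a b
      have := feas2 hF.feas u w hy.1.2.2.2 hy'.1.2.2.1
      simp only [Pi.add_apply, ee_self, ee_ne hwu, ee_ne hwu.symm, a, b, hy.2, hy'.2, d2] at this
      rw [abs_le] at this
      linarith [this.1, this.2]
    have ineq : ∀ y y' : ι → ℝ, y ∈ Y0 F t u w → y' ∈ Y0 F t u w → y' u = y u → ∀ l, l ≠ u →
        l ≠ w → |2 * y l - y' l| ≤ 1 := by
      intro y y' hy hy' e l n1 n2
      rcases lower_valZ hF.feas hy.1.1 hy.1.2.1 hu with a | a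
      · have := feas3 hF.feas l u w hy.1.2.2.2 hy.1.1.1 hy'.1.2.2.1
        simp only [Pi.add_apply, ee_self, ee_ne hwu, ee_ne hwu.symm, ee_ne n1, ee_ne n2, e, a,
          hy.2, hy'.2, d3, d2] at this
        rw [abs_le] at this ⊢
        constructor <;> linarith [this.1, this.2]
      · have := feas3 hF.feas l u w hy.1.2.1 hy.1.2.2.1 hy'.1.2.2.2
        simp only [Pi.add_apply, ee_self, ee_ne hwu, ee_ne hwu.symm, ee_ne n1, ee_ne n2, e, a,
          hy.2, hy'.2, d3, d2] at this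
        rw [abs_le] at this ⊢
        constructor <;> linarith [this.1, this.2]
    intro y y' hy hy'
    have he : y' u = y u := by
      rcases lower_valZ hF.feas hy.1.1 hy.1.2.1 hu with v | v <;>
        rcases lower_valZ hF.feas hy'.1.1 hy'.1.2.1 hu with v' | v'
      · rw [v, v']
      · exact (mix y' y hy' hy v' v).elim
      · exact (mix y y' hy hy' v v').elim
      · rw [v, v']
    ext l
    by_cases n1 : l = u
    · rw [n1, he]
    by_cases n2 : l = w
    · rw [n2, hy.2, hy'.2]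
    by_contra hne
    have A := abs_le.mp (ineq y y' hy hy' he l n1 n2)
    have B := abs_le.mp (ineq y' y hy' hy he.symm l n1 n2)
    rcases lat_gap hy.1.1 hy'.1.1 hne with g | g <;> linarith [A.1, A.2, B.1, B.2]
  have := half_double hF ht hwu hw
  omega

section SZ
variable {i w : ι}

lemma y0_ed (hF : Good F) (hi : t i = 1 / 2) {y : ι → ℝ} (hy : y ∈ E1 F t i) :
    Ed F i (1 / 2) y := by
  have := e1_ed hF.feas hy (by rw [hi]; norm_num) (by rw [hi]; norm_num)
  rwa [hi] at this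

lemma sz1 (hF : Good F) (hi : t i = 1 / 2) (hwi : w ≠ i) {y y' : ι → ℝ}
    (hy : y ∈ Y0 F t i w) (hy' : y' ∈ Y0 F t i w) {l : ι} (hne : y l ≠ y' l) :
    l ≠ i ∧ l ≠ w ∧ ((y l = 1 / 2 ∧ y' l = -1 / 2) ∨ (y l = -1 / 2 ∧ y' l = 1 / 2)) := by
  have n1 : l ≠ i := by
    rintro rfl
    exact hne (by rw [(y0_ed hF hi (e2_lo hy.1)).2.2, (y0_ed hF hi (e2_lo hy'.1)).2.2])
  have n2 : l ≠ w := by rintro rfl; exact hne (by rw [hy.2, hy'.2])
  have h0 : 0 < t i := by rw [hi]; norm_num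
  have h1 : t i < 1 := by rw [hi]; norm_num
  have A := abs_le.mp (sz_ineq hF.feas h0 h1 hwi n1 n2 hy.1 hy'.1 (Or.inr hy.2)
    (by rw [hy.2, hy'.2]))
  have B := abs_le.mp (sz_ineq hF.feas h0 h1 hwi n1 n2 hy'.1 hy.1 (Or.inr hy'.2)
    (by rw [hy.2, hy'.2]))
  rw [hi] at A B
  refine ⟨n1, n2, ?_⟩
  rcases lat_gap hy.1.1 hy'.1.1 hne with g | g
  · right; constructor <;> linarith [A.1, A.2, B.1, B.2]
  · left; constructor <;> linarith [A.1, A.2, B.1, B.2]

lemma sz2 (hF : Good F) (hi : t i = 1 / 2) (hwi : w ≠ i) {y y' : ι → ℝ}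
    (hy : y ∈ Y0 F t i w) (hy' : y' ∈ Y0 F t i w) {v : ι} (hne : y v ≠ y' v) {l : ι}
    (hl : t l = 0) (n2 : l ≠ w) : y l = 0 ∧ y' l = 0 := by
  have n1 : l ≠ i := by rintro rfl; rw [hi] at hl; norm_num at hl
  have e : y' l = y l := by
    by_contra h
    obtain ⟨-, -, h2⟩ := sz1 hF hi hwi hy' hy h
    rcases lat_valZ hF.feas hy.1.1 hl with a | a | a <;> rcases h2 with b | b <;>
      linarith [b.2]
  obtain ⟨m1, m2, hv⟩ := sz1 hF hi hwi hy hy' hne
  have := prism4 hF.feas v l w m1 n1 hwi (y0_ed hF hi (e2_lo hy.1)) (y0_ed hF hi (e2_up hy.1))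
    (y0_ed hF hi (e2_lo hy'.1)) (y0_ed hF hi (e2_up hy'.1)) (1 / 2 - 1) (1 / 2) (1 / 2)
    (1 / 2 - 1) (by simp) (by simp) (by simp) (by simp)
  have goal : y l = 0 := by
    rcases hv with hv | hv
    all_goals
      simp only [up_self, up_ne _ m2, up_ne _ n2, e, hv.1, hv.2, hy.2, hy'.2, d4, d3, d2] at this
      rw [abs_le] at this
      rcases lat_valZ hF.feas hy.1.1 hl with a | a | a
      · linarith [this.1, this.2]
      · exact a
      · linarith [this.1, this.2]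
  exact ⟨goal, by rw [e, goal]⟩

lemma sz3 (hF : Good F) (hi : t i = 1 / 2) (hwi : w ≠ i) : (Y0 F t i w).ncard ≤ 2 := by
  by_contra hc
  obtain ⟨a, ha, b, hb, c, hc, hab, hac, hbc⟩ := three_of_ncard (A := Y0 F t i w) (by omega)
  have mid : ∀ p0 p1 p2 : ι → ℝ, p0 ∈ Y0 F t i w → p1 ∈ Y0 F t i w → p2 ∈ Y0 F t i w →
      ∀ v v', p0 v ≠ p1 v → p2 v = p0 v → p1 v' = p0 v' → p0 v' ≠ p2 v' → False := by
    intro p0 p1 p2 h0 h1 h2 v v' a1 a2 b1 b2
    obtain ⟨m1, m2, hv⟩ := sz1 hF hi hwi h0 h1 a1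
    obtain ⟨m1', m2', hv'⟩ := sz1 hF hi hwi h0 h2 b2
    have := prism4 hF.feas v v' w m1 m1' hwi (y0_ed hF hi (e2_lo h0.1))
      (y0_ed hF hi (e2_up h0.1)) (y0_ed hF hi (e2_up h1.1)) (y0_ed hF hi (e2_up h2.1))
      (1 / 2 - 1) (1 / 2) (1 / 2 - 1) (1 / 2 - 1) (by simp) (by simp) (by simp) (by simp)
    rcases hv with hv | hv <;> rcases hv' with hv' | hv'
    all_goals
      simp only [up_self, up_ne _ m2, up_ne _ m2', a2, b1, hv.1, hv.2, hv'.1, hv'.2, h0.2, h1.2,
        h2.2, d4, d3, d2] at this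
      rw [abs_le] at this
      linarith [this.1, this.2]
  have two : ∀ x y z : ι → ℝ, x ∈ Y0 F t i w → y ∈ Y0 F t i w → z ∈ Y0 F t i w → ∀ v,
      x v ≠ y v → z v = x v ∨ z v = y v := by
    intro x y z hx hy hz v h
    by_contra hc
    push Not at hc
    obtain ⟨-, -, k1⟩ := sz1 hF hi hwi hx hy h
    obtain ⟨-, -, k2⟩ := sz1 hF hi hwi hz hx hc.1
    obtain ⟨-, -, k3⟩ := sz1 hF hi hwi hz hy hc.2
    rcases k1 with k1 | k1 <;> rcases k2 with k2 | k2 <;> rcases k3 with k3 | k3 <;>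
      linarith [k1.1, k1.2, k2.1, k2.2, k3.1, k3.2]
  have aux : ∀ a b c : ι → ℝ, a ∈ Y0 F t i w → b ∈ Y0 F t i w → c ∈ Y0 F t i w → a ≠ c →
      ∀ l, a l ≠ b l → c l = a l → False := by
    intro a b c ha hb hc hac l h1 h2
    obtain ⟨l', h3⟩ := Function.ne_iff.mp hac
    rcases two a c b ha hc hb l' h3 with h4 | h4
    · exact mid a b c ha hb hc l l' h1 h2 h4 h3
    · exact mid c b a hc hb ha l l' (by rw [h2]; exact h1) h2.symm h4 h3.symm
  obtain ⟨l, h1⟩ := Function.ne_iff.mp hab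
  rcases two a b c ha hb hc l h1 with h2 | h2
  · exact aux a b c ha hb hc hac l h1 h2
  · exact aux b a c hb ha hc hbc l h1.symm h2

lemma two_of_ncard {α : Type} {A : Set α} (h : 2 ≤ A.ncard) : ∃ a ∈ A, ∃ b ∈ A, a ≠ b := by
  have hf : A.Finite := Set.finite_of_ncard_pos (by omega)
  obtain ⟨a, b, ha, hb, h1⟩ := (Set.one_lt_ncard_iff hf).mp (by omega)
  exact ⟨a, ha, b, hb, h1⟩

lemma sz4 (hF : Good F) (ht : ∀ r, t r = 0 ∨ t r = 1 / 2) (hi : t i = 1 / 2) {w' : ι}
    (hw : t w = 0) (hw' : t w' = 0) (hww : w ≠ w') (h1 : 2 ≤ (Y0 F t i w).ncard)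
    (h2 : 2 ≤ (Y0 F t i w').ncard) : False := by
  have hwi : w ≠ i := by rintro rfl; rw [hi] at hw; norm_num at hw
  have hwi' : w' ≠ i := by rintro rfl; rw [hi] at hw'; norm_num at hw'
  have half : ∀ x ∈ Lat F t, ∀ y ∈ Lat F t, ∀ v, (x v = 1 / 2 ∨ x v = -1 / 2) →
      (y v = 1 / 2 ∨ y v = -1 / 2) := by
    intro x hx y hy v h
    rcases ht v with e | e
    · rcases lat_valZ hF.feas hx e with a | a | a <;> rcases h with b | b <;> linarith
    · rcases lat_val hF.feas hy (r := v) (by rw [e]; norm_num) (by rw [e]; norm_num) with a | a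
      · left; rw [a, e]
      · right; rw [a, e]; norm_num
  have nw : ∀ x ∈ Lat F t, ∀ v s, t s = 0 → (x v = 1 / 2 ∨ x v = -1 / 2) → v ≠ s := by
    rintro x hx v s hs h rfl
    rcases lat_valZ hF.feas hx hs with a | a | a <;> rcases h with b | b <;> linarith
  -- common differing row
  have c1 : ∀ y y' u u' : ι → ℝ, y ∈ Y0 F t i w → y' ∈ Y0 F t i w → u ∈ Y0 F t i w' →
      u' ∈ Y0 F t i w' → ∀ v, y v ≠ y' v → u v = y v → u' v = y' v → False := by
    intro y y' u u' hy hy' hu hu' v a b c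
    obtain ⟨m1, m2, hv⟩ := sz1 hF hi hwi hy hy' a
    have a' : u v ≠ u' v := by rw [b, c]; exact a
    obtain ⟨-, m3, -⟩ := sz1 hF hi hwi' hu hu' a'
    obtain ⟨z1, z2⟩ := sz2 hF hi hwi hy hy' a hw' hww.symm
    obtain ⟨z3, z4⟩ := sz2 hF hi hwi' hu hu' a' hw hww
    have := prism4 hF.feas v w w' m1 hwi hwi' (y0_ed hF hi (e2_up hy.1))
      (y0_ed hF hi (e2_up hy'.1)) (y0_ed hF hi (e2_up hu.1)) (y0_ed hF hi (e2_up hu'.1))
      (1 / 2) (1 / 2 - 1) (1 / 2 - 1) (1 / 2) (by simp) (by simp) (by simp) (by simp)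
    rcases hv with hv | hv
    all_goals
      simp only [up_self, up_ne _ m2, up_ne _ m3, up_ne _ hww, up_ne _ hww.symm, b, c, hv.1, hv.2,
        z1, z2, z3, z4, hy.2, hy'.2, hu.2, hu'.2, d4, d3, d2] at this
      rw [abs_le] at this
      linarith [this.1, this.2]
  have c2 : ∀ y y' u u' : ι → ℝ, y ∈ Y0 F t i w → y' ∈ Y0 F t i w → u ∈ Y0 F t i w' →
      u' ∈ Y0 F t i w' → ∀ v v', y v ≠ y' v → u v = y v → u' v = y v → u v' ≠ u' v' →
      y v' = u v' → y' v' = u v' → False := by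
    intro y y' u u' hy hy' hu hu' v v' a b c a' b' c'
    obtain ⟨m1, m2, hv⟩ := sz1 hF hi hwi hy hy' a
    obtain ⟨m1', m3', hv'⟩ := sz1 hF hi hwi' hu hu' a'
    have m3 : v ≠ w' := nw y hy.1.1 v w' hw' (by rcases hv with h | h; exacts [Or.inl h.1, Or.inr h.1])
    have m2' : v' ≠ w := nw u hu.1.1 v' w hw (by rcases hv' with h | h; exacts [Or.inl h.1, Or.inr h.1])
    obtain ⟨z1, z2⟩ := sz2 hF hi hwi hy hy' a hw' hww.symm
    obtain ⟨z3, z4⟩ := sz2 hF hi hwi' hu hu' a' hw hww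
    have := prism5 hF.feas v v' w w' m1 m1' hwi hwi' (y0_ed hF hi (e2_up hy.1))
      (y0_ed hF hi (e2_up hy'.1)) (y0_ed hF hi (e2_up hu.1)) (y0_ed hF hi (e2_up hu'.1))
      (y0_ed hF hi (e2_lo hy.1))
      (1 / 2) (1 / 2 - 1) (1 / 2) (1 / 2 - 1) (1 / 2 - 1)
      (by simp) (by simp) (by simp) (by simp) (by simp)
    rcases hv with hv | hv <;> rcases hv' with hv' | hv'
    all_goals
      simp only [up_self, up_ne _ m2, up_ne _ m3, up_ne _ m2', up_ne _ m3', up_ne _ hww,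
        up_ne _ hww.symm, b, c, b', c', hv.1, hv.2, hv'.1, hv'.2,
        z1, z2, z3, z4, hy.2, hy'.2, hu.2, hu'.2, d5, d4, d3, d2] at this
      rw [abs_le] at this
      linarith [this.1, this.2]
  obtain ⟨y, hy, y', hy', hyy⟩ := two_of_ncard h1
  obtain ⟨u, hu, u', hu', huu⟩ := two_of_ncard h2
  obtain ⟨v, a⟩ := Function.ne_iff.mp hyy
  obtain ⟨v', a'⟩ := Function.ne_iff.mp huu
  obtain ⟨-, -, hv⟩ := sz1 hF hi hwi hy hy' a
  obtain ⟨-, -, hv'⟩ := sz1 hF hi hwi' hu hu' a'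
  have hyv : y v = 1 / 2 ∨ y v = -1 / 2 := by rcases hv with h | h; exacts [Or.inl h.1, Or.inr h.1]
  have huv : u v' = 1 / 2 ∨ u v' = -1 / 2 := by
    rcases hv' with h | h; exacts [Or.inl h.1, Or.inr h.1]
  have k1 := half y hy.1.1 u hu.1.1 v hyv
  have k2 := half y hy.1.1 u' hu'.1.1 v hyv
  have k3 := half u hu.1.1 y hy.1.1 v' huv
  have k4 := half u hu.1.1 y' hy'.1.1 v' huv
  have e1 : u v = y v ∨ u v = y' v := by
    rcases hv with h | h <;> rcases k1 with k | k <;> simp [h.1, h.2, k]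
  have e2 : u' v = y v ∨ u' v = y' v := by
    rcases hv with h | h <;> rcases k2 with k | k <;> simp [h.1, h.2, k]
  have e3 : y v' = u v' ∨ y v' = u' v' := by
    rcases hv' with h | h <;> rcases k3 with k | k <;> simp [h.1, h.2, k]
  have e4 : y' v' = u v' ∨ y' v' = u' v' := by
    rcases hv' with h | h <;> rcases k4 with k | k <;> simp [h.1, h.2, k]
  rcases e1 with e1 | e1 <;> rcases e2 with e2 | e2
  · rcases e3 with e3 | e3 <;> rcases e4 with e4 | e4
    · exact c2 y y' u u' hy hy' hu hu' v v' a e1 e2 a' e3 e4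
    · exact c1 y y' u u' hy hy' hu hu' v' (by rw [e3, e4]; exact a') e3.symm e4.symm
    · exact c1 y y' u' u hy hy' hu' hu v' (by rw [e3, e4]; exact a'.symm) e3.symm e4.symm
    · exact c2 y y' u' u hy hy' hu' hu v v' a e2 e1 a'.symm e3 e4
  · exact c1 y y' u u' hy hy' hu hu' v a e1 e2
  · exact c1 y y' u' u hy hy' hu' hu v a e2 e1
  · rcases e3 with e3 | e3 <;> rcases e4 with e4 | e4
    · exact c2 y' y u u' hy' hy hu hu' v v' a.symm e1 e2 a' e4 e3
    · exact c1 y y' u u' hy hy' hu hu' v' (by rw [e3, e4]; exact a') e3.symm e4.symm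
    · exact c1 y y' u' u hy hy' hu' hu v' (by rw [e3, e4]; exact a'.symm) e3.symm e4.symm
    · exact c2 y' y u' u hy' hy hu' hu v v' a.symm e2 e1 a'.symm e4 e3

end SZ

/-- Keep only the coordinates in `T`. -/
def prj (T : Finset ι) (x : ι → ℝ) : ι → ℝ := fun r => if r ∈ T then x r else 0

lemma good_prj (hF : Good F) (T : Finset ι) : Good (prj T '' F) := by
  refine ⟨?_, ?_, ?_⟩
  · intro k r c hc
    choose c' hc' he using hc
    by_cases h : ∃ p, r p ∉ T
    · obtain ⟨p, hp⟩ := h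
      rw [det_eq_zero_of_row_eq_zero p]
      · simp
      · intro q; simp [← he q, prj, hp]
    · push Not at h
      have : (Matrix.of fun p q => c q (r p)) = Matrix.of fun p q => c' q (r p) := by
        ext p q; simp [← he q, prj, h p]
      rw [this]; exact hF.feas k r c' hc'
  · rintro _ ⟨x, hx, rfl⟩
    refine ⟨-x, hF.neg x hx, ?_⟩
    ext r; by_cases h : r ∈ T <;> simp [prj, h]
  · rintro _ ⟨x, hx, rfl⟩ _ ⟨y, hy, rfl⟩
    refine ⟨_, hF.mid x hx y hy, ?_⟩
    ext r; by_cases h : r ∈ T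
    · simp [prj, h]
    · simp [prj, h]

lemma supp_prj (T : Finset ι) : Supp (prj T '' F) T := by
  rintro _ ⟨x, -, rfl⟩ r hr
  simp [prj, hr]

lemma prj_self {T : Finset ι} (h : Supp F T) : prj T '' F = F := by
  have : ∀ x ∈ F, prj T x = x := by
    intro x hx; ext r
    by_cases hr : r ∈ T
    · simp [prj, hr]
    · simp [prj, hr, h x hx r hr]
  rw [Set.image_congr this, Set.image_id']

lemma prj_zer {T : Finset ι} {j : ι} (hj : j ∉ T) : prj T '' (zer j '' F) = prj T '' F := by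
  rw [Set.image_image]
  apply Set.image_congr
  intro x _; ext r
  by_cases hr : r ∈ T
  · have : r ≠ j := fun h => hj (h ▸ hr)
    simp [prj, hr, zer_ne this]
  · simp [prj, hr]

lemma zer_t {j : ι} (h : t j = 0) : zer j t = t := by
  ext r; by_cases hr : r = j
  · rw [hr, h]; simp
  · rw [zer_ne hr]

lemma supp_union_erase {T Z : Finset ι} (h : Supp F (T ∪ Z)) (j : ι) :
    Supp (zer j '' F) (T ∪ Z.erase j) := by
  intro x hx r hr
  apply supp_zer h j x hx r
  intro h2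
  apply hr
  rw [Finset.mem_erase, Finset.mem_union] at h2
  rcases h2.2 with h3 | h3
  · exact Finset.mem_union_left _ h3
  · exact Finset.mem_union_right _ (Finset.mem_erase.mpr ⟨h2.1, h3⟩)

theorem zzInd (ht : ∀ r, t r = 0 ∨ t r = 1 / 2) (T : Finset ι) {w : ι} (hwT : w ∈ T)
    (hw : t w = 0) (n : ℕ) : ∀ (Z : Finset ι) (F : Set (ι → ℝ)), Z.card = n →
    (∀ r ∈ Z, r ∉ T ∧ t r = 0) → Good F → Supp F (T ∪ Z) →
    (E1 F t w).ncard ≤ (E1 (prj T '' F) t w).ncard + 2 * n := by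
  induction n with
  | zero =>
    intro Z F hZ _ _ hs
    rw [Finset.card_eq_zero] at hZ
    subst hZ
    rw [prj_self (by simpa using hs)]
    omega
  | succ n ih =>
    intro Z F hZ hZ' hF hs
    obtain ⟨j, hj⟩ := Finset.card_pos.mp (show 0 < Z.card by omega)
    have hwj : w ≠ j := fun h => (hZ' j hj).1 (h ▸ hwT)
    have := ih (Z.erase j) (zer j '' F) (by rw [Finset.card_erase_of_mem hj]; omega)
      (fun r hr => hZ' r (Finset.mem_of_mem_erase hr)) (good_zer hF j) (supp_union_erase hs j)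
    rw [prj_zer (hZ' j hj).1] at this
    have c := count2 hF t hwj
    rw [zer_t (hZ' j hj).2] at c
    have := zz hF ht hwj.symm hw (hZ' j hj).2
    omega

theorem szInd (ht : ∀ r, t r = 0 ∨ t r = 1 / 2) (T : Finset ι) {i : ι} (hiT : i ∈ T)
    (hi : t i = 1 / 2) (c : ℕ) (hc : c = 2 ∨ ∀ r, r ≠ i → t r = 0) (n : ℕ) :
    ∀ (Z : Finset ι) (F : Set (ι → ℝ)), Z.card = n →
    (∀ r ∈ Z, r ∉ T ∧ t r = 0) → Good F → Supp F (T ∪ Z) →
    (E1 F t i).ncard ≤ (E1 (prj T '' F) t i).ncard + 2 * n + c := by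
  induction n with
  | zero =>
    intro Z F hZ _ _ hs
    rw [Finset.card_eq_zero] at hZ
    subst hZ
    rw [prj_self (by simpa using hs)]
    omega
  | succ n ih =>
    intro Z F hZ hZ' hF hs
    have ne : ∀ j ∈ Z, i ≠ j := fun j hj h => (hZ' j hj).1 (h ▸ hiT)
    by_cases hex : ∃ j ∈ Z, (Y0 F t i j).ncard ≤ 1
    · obtain ⟨j, hj, h1⟩ := hex
      have := ih (Z.erase j) (zer j '' F) (by rw [Finset.card_erase_of_mem hj]; omega)
        (fun r hr => hZ' r (Finset.mem_of_mem_erase hr)) (good_zer hF j) (supp_union_erase hs j)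
      rw [prj_zer (hZ' j hj).1] at this
      have c := count2 hF t (ne j hj)
      rw [zer_t (hZ' j hj).2] at c
      have := half_double hF ht (ne j hj).symm (hZ' j hj).2
      omega
    · push Not at hex
      obtain ⟨j, hj⟩ := Finset.card_pos.mp (show 0 < Z.card by omega)
      have hc2 : c = 2 := by
        rcases hc with h | h
        · exact h
        · exfalso
          obtain ⟨y, hy, y', hy', hne⟩ := two_of_ncard (hex j hj)
          obtain ⟨l, hl⟩ := Function.ne_iff.mp hne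
          obtain ⟨n1, -, hv⟩ := sz1 hF hi (ne j hj).symm hy hy' hl
          rcases lat_valZ hF.feas hy.1.1 (h l n1) with a | a | a <;> rcases hv with b | b <;>
            linarith [b.1]
      have hn : n = 0 := by
        by_contra hn
        obtain ⟨a, ha, b, hb, hab⟩ := Finset.one_lt_card.mp (show 1 < Z.card by omega)
        exact sz4 hF ht hi (hZ' a ha).2 (hZ' b hb).2 hab (hex a ha) (hex b hb)
      have hs' := supp_union_erase hs j
      have he : Z.erase j = ∅ := by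
        rw [← Finset.card_eq_zero, Finset.card_erase_of_mem hj]; omega
      rw [he, Finset.union_empty] at hs'
      have c := count2 hF t (ne j hj)
      rw [zer_t (hZ' j hj).2, ← prj_self hs', prj_zer (hZ' j hj).1] at c
      have := half_double hF ht (ne j hj).symm (hZ' j hj).2
      have := sz3 (w := j) hF hi (ne j hj).symm
      omega

end Pool.Agent.H736Z.Heller
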