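import Pool.Agent.H736Z.Heller.Local

/-! The case of a shift coordinate strictly between 0 and 1/2: local part. -/

namespace Pool.Agent.H736Z.Heller

set_option linter.unusedSectionVars false

variable {ι : Type} [DecidableEq ι] [Fintype ι]

lemma sz_ineq {F : Set (ι → ℝ)} (hF : Feas F) {t : ι → ℝ} {i w l : ι} (h0 : 0 < t i)
    (h1 : t i < 1) (hwi : w ≠ i) (hli : l ≠ i) (hlw : l ≠ w) {y y' : ι → ℝ}
    (hy : y ∈ E2 F t i w) (hy' : y' ∈ E2 F t i w) (ha : y w = -1 ∨ y w = 0) (he : y' w = y w) :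
    |y l * (t i - 2) - y' l * (t i - 1)| ≤ 1 := by
  have e0 := e1_ed hF (e2_lo hy) h0 h1
  have e1 := e1_ed hF (e2_up hy) h0 h1
  have e2 := e1_ed hF (e2_lo hy') h0 h1
  have e3 := e1_ed hF (e2_up hy') h0 h1
  rcases ha with ha | ha
  · have := prism3 hF l w hli hwi e0 e1 e2 (t i) (t i - 1) (t i - 1) (by simp) (by simp) (by simp)
    simp only [up_self, up_ne _ hlw, he, ha, d3, d2] at this
    rw [abs_le] at this ⊢
    constructor <;> linarith [this.1, this.2]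
  · have := prism3 hF l w hli hwi e0 e1 e3 (t i - 1) (t i) (t i - 1) (by simp) (by simp) (by simp)
    simp only [up_self, up_ne _ hlw, he, ha, d3, d2] at this
    rw [abs_le] at this ⊢
    constructor <;> linarith [this.1, this.2]

lemma lemA_Z {F : Set (ι → ℝ)} (hF : Feas F) {t : ι → ℝ} {i w : ι} (h0 : 0 < t i)
    (h1 : t i < 1 / 2) (hwi : w ≠ i) (hw : t w = 0) : (E2 F t i w).ncard ≤ 1 := by
  have h1' : t i < 1 := by linarith
  rw [Set.ncard_le_one_iff (e2_finite hF _ _ _)]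
  intro y y' hy hy'
  have key : ∀ y y' : ι → ℝ, y ∈ E2 F t i w → y' ∈ E2 F t i w → y w = 0 → y' w = -1 → False := by
    intro y y' hy hy' a b
    have := prism2 hF w hwi (e1_ed hF (e2_up hy) h0 h1') (e1_ed hF (e2_lo hy') h0 h1')
      (t i - 1) (t i - 1) (by simp) (by simp)
    simp only [up_self, a, b, d2] at this
    rw [abs_le] at this
    linarith [this.1, this.2]
  have v := lower_valZ hF hy.1 hy.2.2.1 hw
  have v' := lower_valZ hF hy'.1 hy'.2.2.1 hw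
  have he : y' w = y w := by
    rcases v with v | v <;> rcases v' with v' | v'
    · rw [v, v']
    · exact (key y' y hy' hy v' v).elim
    · exact (key y y' hy hy' v v').elim
    · rw [v, v']
  ext l
  by_cases hli : l = i
  · subst hli
    rw [lower_val hF hy.1 hy.2.1 h0 h1', lower_val hF hy'.1 hy'.2.1 h0 h1']
  by_cases hlw : l = w
  · subst hlw; exact he.symm
  by_contra hne
  have A := abs_le.mp (sz_ineq hF h0 h1' hwi hli hlw hy hy' v he)
  have B := abs_le.mp (sz_ineq hF h0 h1' hwi hli hlw hy' hy v' he.symm)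
  rcases lat_gap hy.1 hy'.1 hne with g | g
  · have : 1 * (3 - 2 * t i) ≤ (y' l - y l) * (3 - 2 * t i) :=
      mul_le_mul_of_nonneg_right (by linarith) (by linarith)
    nlinarith [A.1, A.2, B.1, B.2]
  · have : 1 * (3 - 2 * t i) ≤ (y l - y' l) * (3 - 2 * t i) :=
      mul_le_mul_of_nonneg_right (by linarith) (by linarith)
    nlinarith [A.1, A.2, B.1, B.2]

structure Ctx (F : Set (ι → ℝ)) (t : ι → ℝ) (i : ι) (S : Finset ι) : Prop where
  feas : Feas F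
  h0 : 0 < t i
  h1 : t i < 1 / 2
  ne : ∀ r ∈ S, r ≠ i
  lo : ∀ r ∈ S, t i ≤ t r
  hi : ∀ r ∈ S, t r ≤ 1 / 2
  supp : ∀ x ∈ F, ∀ r, r ∉ S → r ≠ i → x r = 0
  big : ∀ j ∈ S, 3 ≤ (E2 F t i j).ncard

structure Tri (F : Set (ι → ℝ)) (t : ι → ℝ) (i : ι) (S : Finset ι) (j l l' : ι)
    (p0 p1 p2 : ι → ℝ) : Prop where
  hj : j ∈ S
  hl : l ∈ S
  hl' : l' ∈ S
  nl : l ≠ j
  nl' : l' ≠ j
  nll : l ≠ l'
  m0 : p0 ∈ E2 F t i j
  m1 : p1 ∈ E2 F t i j
  m2 : p2 ∈ E2 F t i j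
  tj : t j = t i
  tl : t l = t i
  tl' : t l' = t i
  third : 1 / 3 ≤ t i
  j0 : p0 j = t i - 1
  j1 : p1 j = t i - 1
  j2 : p2 j = t i - 1
  a0 : p0 l = t i
  a1 : p1 l = t i - 1
  a2 : p2 l = t i
  b0 : p0 l' = t i
  b1 : p1 l' = t i
  b2 : p2 l' = t i - 1

variable {F : Set (ι → ℝ)} {t : ι → ℝ} {i : ι} {S : Finset ι}

lemma Tri.swap {j l l' : ι} {p0 p1 p2 : ι → ℝ} (T : Tri F t i S j l l' p0 p1 p2) :
    Tri F t i S j l' l p0 p2 p1 :=
  ⟨T.hj, T.hl', T.hl, T.nl', T.nl, T.nll.symm, T.m0, T.m2, T.m1, T.tj, T.tl', T.tl, T.third,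
    T.j0, T.j2, T.j1, T.b0, T.b2, T.b1, T.a0, T.a2, T.a1⟩

lemma Ctx.val (C : Ctx F t i S) {x : ι → ℝ} (hx : x ∈ Lat F t) {r : ι} (hr : r ∈ S) :
    x r = t r ∨ x r = t r - 1 :=
  lat_val C.feas hx (by linarith [C.h0, C.lo r hr]) (by linarith [C.hi r hr])

lemma Ctx.low (C : Ctx F t i S) {x : ι → ℝ} {j : ι} (hx : x ∈ E2 F t i j) (hj : j ∈ S) :
    x j = t j - 1 :=
  lower_val C.feas hx.1 hx.2.2.1 (by linarith [C.h0, C.lo j hj]) (by linarith [C.hi j hj])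

lemma Ctx.ed (C : Ctx F t i S) {x : ι → ℝ} (hx : x ∈ E1 F t i) : Ed F i (t i) x :=
  e1_ed C.feas hx C.h0 (by linarith [C.h1])

lemma Ctx.two (C : Ctx F t i S) {x y z : ι → ℝ} (hx : x ∈ Lat F t) (hy : y ∈ Lat F t)
    (hz : z ∈ Lat F t) {r : ι} (hr : r ∈ S) (h : x r ≠ y r) : z r = x r ∨ z r = y r := by
  rcases C.val hx hr with a | a <;> rcases C.val hy hr with b | b <;>
    rcases C.val hz hr with c | c <;> simp_all

lemma Ctx.mkTri (C : Ctx F t i S) {j l l' : ι} (hj : j ∈ S) (hmin : ∀ r ∈ S, t j ≤ t r)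
    (hl : l ∈ S) (hl' : l' ∈ S) (nl : l ≠ j) (nl' : l' ≠ j) {y0 y1 y2 : ι → ℝ}
    (m0 : y0 ∈ E2 F t i j) (m1 : y1 ∈ E2 F t i j) (m2 : y2 ∈ E2 F t i j)
    (a1 : y1 l ≠ y0 l) (a2 : y2 l = y0 l) (b1 : y1 l' = y0 l') (b2 : y2 l' ≠ y0 l') :
    Tri F t i S j l l' y0 y1 y2 := by
  have nll : l ≠ l' := by rintro rfl; exact a1 b1
  have j0 := C.low m0 hj
  have j1 := C.low m1 hj
  have j2 := C.low m2 hj
  have h := prism4 C.feas l l' j (C.ne l hl) (C.ne l' hl') (C.ne j hj) (C.ed (e2_lo m0))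
    (C.ed (e2_up m0)) (C.ed (e2_lo m1)) (C.ed (e2_lo m2)) (t i) (t i - 1) (t i - 1) (t i - 1)
    (by simp) (by simp) (by simp) (by simp)
  simp only [up_self, up_ne _ nl, up_ne _ nl', a2, b1, j0, j1, j2] at h
  have c1 := C.h1
  have c2 := C.lo j hj
  have c3 := hmin l hl
  have c4 := hmin l' hl'
  have c5 := C.hi l hl
  have c6 := C.hi l' hl'
  have c7 := C.hi j hj
  have main : y0 l = t l ∧ y1 l = t l - 1 ∧ y0 l' = t l' ∧ y2 l' = t l' - 1 ∧
      t l + t l' ≤ t i + t j := by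
    rcases C.val m0.1 hl with u0 | u0 <;> rcases C.val m1.1 hl with u1 | u1 <;>
      rcases C.val m0.1 hl' with v0 | v0 <;> rcases C.val m2.1 hl' with v2 | v2
    all_goals first
      | exact absurd (u1.trans u0.symm) a1
      | exact absurd (v2.trans v0.symm) b2
      | skip
    all_goals
      simp only [u0, u1, v0, v2, d4, d3, d2] at h
      rw [abs_le] at h
    · exact ⟨u0, u1, v0, v2, by linarith [h.1, h.2]⟩
    · exfalso; linarith [h.1, h.2]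
    · exfalso; linarith [h.1, h.2]
    · exfalso; linarith [h.1, h.2]
  obtain ⟨u0, u1, v0, v2, hs⟩ := main
  have tj : t j = t i := by linarith
  have tl : t l = t i := by linarith
  have tl' : t l' = t i := by linarith
  have h3 := prism3 C.feas l j (C.ne l hl) (C.ne j hj) (C.ed (e2_lo m1))
    (C.ed (e2_up m1)) (C.ed (e2_lo m0)) (t i) (t i - 1) (t i - 1) (by simp) (by simp) (by simp)
  simp only [up_self, up_ne _ nl, u0, u1, j0, j1, tj, tl, d3, d2] at h3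
  rw [abs_le] at h3
  exact ⟨hj, hl, hl', nl, nl', nll, m0, m1, m2, tj, tl, tl', by linarith [h3.1, h3.2],
    by rw [j0, tj], by rw [j1, tj], by rw [j2, tj], by rw [u0, tl], by rw [u1, tl],
    by rw [a2, u0, tl], by rw [v0, tl'], by rw [b1, v0, tl'], by rw [v2, tl']⟩

lemma Ctx.diff (C : Ctx F t i S) {j : ι} (hj : j ∈ S) {x y : ι → ℝ} (hx : x ∈ E2 F t i j)
    (hy : y ∈ E2 F t i j) (h : x ≠ y) : ∃ l ∈ S, l ≠ j ∧ x l ≠ y l := by
  by_contra hc
  push Not at hc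
  apply h
  ext r
  by_cases hri : r = i
  · subst hri; rw [(C.ed (e2_lo hx)).2.2, (C.ed (e2_lo hy)).2.2]
  by_cases hrj : r = j
  · subst hrj; rw [C.low hx hj, C.low hy hj]
  by_cases hr : r ∈ S
  · exact hc r hr hrj
  · rw [C.supp x hx.1.1 r hr hri, C.supp y hy.1.1 r hr hri]

lemma Ctx.exTri (C : Ctx F t i S) {j : ι} (hj : j ∈ S) (hmin : ∀ r ∈ S, t j ≤ t r) :
    ∃ l l' p0 p1 p2, Tri F t i S j l l' p0 p1 p2 := by
  obtain ⟨a, ha, b, hb, c, hc, hab, hac, hbc⟩ := three_of_ncard (C.big j hj)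
  have aux : ∀ a b c : ι → ℝ, a ∈ E2 F t i j → b ∈ E2 F t i j → c ∈ E2 F t i j → a ≠ c →
      ∀ l ∈ S, l ≠ j → a l ≠ b l → c l = a l →
      ∃ l l' p0 p1 p2, Tri F t i S j l l' p0 p1 p2 := by
    intro a b c ha hb hc hac l hl nl h1 h2
    obtain ⟨l', hl', nl', h3⟩ := C.diff hj ha hc hac
    rcases C.two ha.1 hc.1 hb.1 hl' h3 with h4 | h4
    · exact ⟨l, l', a, b, c, C.mkTri hj hmin hl hl' nl nl' ha hb hc h1.symm h2 h4 h3.symm⟩
    · exact ⟨l, l', c, b, a, C.mkTri hj hmin hl hl' nl nl' hc hb ha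
        (by rw [h2]; exact h1.symm) h2.symm h4 h3⟩
  obtain ⟨l, hl, nl, h1⟩ := C.diff hj ha hb hab
  rcases C.two ha.1 hb.1 hc.1 hl h1 with h2 | h2
  · exact aux a b c ha hb hc hac l hl nl h1 h2
  · exact aux b a c hb ha hc hbc l hl nl h1.symm h2

lemma Ctx.excl (C : Ctx F t i S) {j l l' : ι} {p0 p1 p2 : ι → ℝ}
    (T : Tri F t i S j l l' p0 p1 p2) {x : ι → ℝ} (hx : x ∈ E1 F t i) (h1 : x l = t i - 1)
    (h2 : x l' = t i - 1) : False := by
  have c1 := C.h1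
  rcases C.val hx.1 T.hj with h | h
  · rw [T.tj] at h
    have := prism4 C.feas j l l' (C.ne _ T.hj) (C.ne _ T.hl) (C.ne _ T.hl') (C.ed hx)
      (C.ed (e2_lo T.m1)) (C.ed (e2_lo T.m2)) (C.ed (e2_up T.m0))
      (t i - 1) (t i - 1) (t i - 1) (t i - 1) (by simp) (by simp) (by simp) (by simp)
    simp only [up_self, up_ne _ T.nl, up_ne _ T.nl', h, h1, h2, T.j0, T.j1, T.j2, T.a0, T.a1,
      T.a2, T.b0, T.b1, T.b2, d4, d3, d2] at this
    rw [abs_le] at this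
    linarith [this.1, this.2]
  · rw [T.tj] at h
    have := prism4 C.feas j l l' (C.ne _ T.hj) (C.ne _ T.hl) (C.ne _ T.hl') (C.ed hx)
      (C.ed (e2_lo T.m0)) (C.ed (e2_up T.m1)) (C.ed (e2_up T.m2))
      (t i - 1) (t i - 1) (t i - 1) (t i - 1) (by simp) (by simp) (by simp) (by simp)
    simp only [up_self, up_ne _ T.nl, up_ne _ T.nl', h, h1, h2, T.j0, T.j1, T.j2, T.a0, T.a1,
      T.a2, T.b0, T.b1, T.b2, d4, d3, d2] at this
    rw [abs_le] at this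
    linarith [this.1, this.2]

lemma Ctx.constb (C : Ctx F t i S) {j l l' : ι} {p0 p1 p2 : ι → ℝ}
    (T : Tri F t i S j l l' p0 p1 p2) {r : ι} (hr : r ∈ S) (nr : r ≠ j) (h : p1 r = p0 r) :
    -1 / 2 ≤ p0 r := by
  have := prism4 C.feas j l r (C.ne _ T.hj) (C.ne _ T.hl) (C.ne _ hr) (C.ed (e2_lo T.m0))
    (C.ed (e2_up T.m0)) (C.ed (e2_lo T.m1)) (C.ed (e2_up T.m1))
    (t i) (t i - 1) (t i - 1) (t i) (by simp) (by simp) (by simp) (by simp)
  simp only [up_self, up_ne _ T.nl, up_ne _ nr, h, T.j0, T.j1, T.a0, T.a1, d4, d3, d2] at this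
  rw [abs_le] at this
  linarith [this.1, this.2]

end Pool.Agent.H736Z.Heller
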