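import Pool.Agent.H736Z.Heller.LemA1

/-! The case of a shift coordinate strictly between 0 and 1/2: the key local lemma. -/

namespace Pool.Agent.H736Z.Heller

set_option linter.unusedSectionVars false
set_option linter.unusedSimpArgs false

variable {ι : Type} [DecidableEq ι] [Fintype ι]
variable {F : Set (ι → ℝ)} {t : ι → ℝ} {i : ι} {S : Finset ι}

lemma Ctx.F2 (C : Ctx F t i S) {j l l' : ι} {p0 p1 p2 : ι → ℝ}
    (T : Tri F t i S j l l' p0 p1 p2) {r : ι} (hr : r ∈ S) (nr : r ≠ j) (k1 : p1 r = p0 r)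
    (k2 : p2 r = p0 r) {x : ι → ℝ} (hx : x ∈ E1 F t i) (hne : x r ≠ p0 r) :
    x j = t i ∧ t r = t i := by
  have c0 := C.h0
  have c1 := C.h1
  have c2 := C.lo r hr
  have c3 := C.hi r hr
  have c4 := T.third
  have c5 := C.constb T hr nr k1
  have vj := C.val hx.1 T.hj
  have vl := C.val hx.1 T.hl
  have vl' := C.val hx.1 T.hl'
  rw [T.tj] at vj
  rw [T.tl] at vl
  rw [T.tl'] at vl'
  rcases C.val T.m0.1 hr with u | u <;> rcases C.val hx.1 hr with v | v
  · exact absurd (v.trans u.symm) hne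
  · rcases vj with xj | xj <;> rcases vl with xl | xl <;> rcases vl' with xl' | xl'
    · have := prism5 C.feas j l l' r (C.ne _ T.hj) (C.ne _ T.hl) (C.ne _ T.hl') (C.ne _ hr)
        (C.ed (e2_up T.m0)) (C.ed (e2_up T.m1)) (C.ed (e2_up T.m2)) (C.ed (e2_lo T.m0)) (C.ed hx)
        (t i) (t i - 1) (t i - 1) (t i - 1) (t i - 1) (by simp) (by simp) (by simp) (by simp) (by simp)
      simp only [up_self, up_ne _ T.nl, up_ne _ T.nl', up_ne _ nr, k1, k2, u, v, xj, xl, xl', T.j0, T.j1, T.j2, T.a0, T.a1,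
        T.a2, T.b0, T.b1, T.b2, d5, d4, d3, d2] at this
      rw [abs_le] at this
      exact ⟨xj, by linarith [this.1, this.2]⟩
    · have := prism5 C.feas j l l' r (C.ne _ T.hj) (C.ne _ T.hl) (C.ne _ T.hl') (C.ne _ hr)
        (C.ed (e2_up T.m2)) (C.ed (e2_up T.m0)) (C.ed (e2_up T.m1)) (C.ed (e2_lo T.m2)) (C.ed hx)
        (t i) (t i - 1) (t i - 1) (t i - 1) (t i - 1) (by simp) (by simp) (by simp) (by simp) (by simp)
      simp only [up_self, up_ne _ T.nl, up_ne _ T.nl', up_ne _ nr, k1, k2, u, v, xj, xl, xl', T.j0, T.j1, T.j2, T.a0, T.a1,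
        T.a2, T.b0, T.b1, T.b2, d5, d4, d3, d2] at this
      rw [abs_le] at this
      exact ⟨xj, by linarith [this.1, this.2]⟩
    · have := prism5 C.feas j l l' r (C.ne _ T.hj) (C.ne _ T.hl) (C.ne _ T.hl') (C.ne _ hr)
        (C.ed (e2_up T.m1)) (C.ed (e2_up T.m0)) (C.ed (e2_up T.m2)) (C.ed (e2_lo T.m1)) (C.ed hx)
        (t i) (t i - 1) (t i - 1) (t i - 1) (t i - 1) (by simp) (by simp) (by simp) (by simp) (by simp)
      simp only [up_self, up_ne _ T.nl, up_ne _ T.nl', up_ne _ nr, k1, k2, u, v, xj, xl, xl', T.j0, T.j1, T.j2, T.a0, T.a1,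
        T.a2, T.b0, T.b1, T.b2, d5, d4, d3, d2] at this
      rw [abs_le] at this
      exact ⟨xj, by linarith [this.1, this.2]⟩
    · exact (C.excl T hx xl xl').elim
    · have := prism5 C.feas j l l' r (C.ne _ T.hj) (C.ne _ T.hl) (C.ne _ T.hl') (C.ne _ hr)
        (C.ed (e2_lo T.m0)) (C.ed (e2_lo T.m1)) (C.ed (e2_lo T.m2)) (C.ed (e2_up T.m0)) (C.ed hx)
        (t i) (t i - 1) (t i - 1) (t i - 1) (t i - 1) (by simp) (by simp) (by simp) (by simp) (by simp)
      simp only [up_self, up_ne _ T.nl, up_ne _ T.nl', up_ne _ nr, k1, k2, u, v, xj, xl, xl', T.j0, T.j1, T.j2, T.a0, T.a1,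
        T.a2, T.b0, T.b1, T.b2, d5, d4, d3, d2] at this
      rw [abs_le] at this
      exfalso; linarith [this.1, this.2]
    · have := prism5 C.feas j l l' r (C.ne _ T.hj) (C.ne _ T.hl) (C.ne _ T.hl') (C.ne _ hr)
        (C.ed (e2_lo T.m2)) (C.ed (e2_lo T.m0)) (C.ed (e2_lo T.m1)) (C.ed (e2_up T.m2)) (C.ed hx)
        (t i) (t i - 1) (t i - 1) (t i - 1) (t i - 1) (by simp) (by simp) (by simp) (by simp) (by simp)
      simp only [up_self, up_ne _ T.nl, up_ne _ T.nl', up_ne _ nr, k1, k2, u, v, xj, xl, xl', T.j0, T.j1, T.j2, T.a0, T.a1,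
        T.a2, T.b0, T.b1, T.b2, d5, d4, d3, d2] at this
      rw [abs_le] at this
      exfalso; linarith [this.1, this.2]
    · have := prism5 C.feas j l l' r (C.ne _ T.hj) (C.ne _ T.hl) (C.ne _ T.hl') (C.ne _ hr)
        (C.ed (e2_lo T.m1)) (C.ed (e2_lo T.m0)) (C.ed (e2_lo T.m2)) (C.ed (e2_up T.m1)) (C.ed hx)
        (t i) (t i - 1) (t i - 1) (t i - 1) (t i - 1) (by simp) (by simp) (by simp) (by simp) (by simp)
      simp only [up_self, up_ne _ T.nl, up_ne _ T.nl', up_ne _ nr, k1, k2, u, v, xj, xl, xl', T.j0, T.j1, T.j2, T.a0, T.a1,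
        T.a2, T.b0, T.b1, T.b2, d5, d4, d3, d2] at this
      rw [abs_le] at this
      exfalso; linarith [this.1, this.2]
    · exact (C.excl T hx xl xl').elim
  · have hh : t r = 1 / 2 := by linarith
    rw [hh] at u v
    rcases vj with xj | xj <;> rcases vl with xl | xl <;> rcases vl' with xl' | xl'
    · have := prism5 C.feas j l l' r (C.ne _ T.hj) (C.ne _ T.hl) (C.ne _ T.hl') (C.ne _ hr)
        (C.ed (e2_up T.m0)) (C.ed (e2_up T.m1)) (C.ed (e2_up T.m2)) (C.ed (e2_lo T.m0)) (C.ed hx)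
        (t i) (t i - 1) (t i - 1) (t i - 1) (t i - 1) (by simp) (by simp) (by simp) (by simp) (by simp)
      simp only [up_self, up_ne _ T.nl, up_ne _ T.nl', up_ne _ nr, k1, k2, u, v, xj, xl, xl', T.j0, T.j1, T.j2, T.a0, T.a1,
        T.a2, T.b0, T.b1, T.b2, d5, d4, d3, d2] at this
      rw [abs_le] at this
      exact ⟨xj, by linarith [this.1, this.2]⟩
    · have := prism5 C.feas j l l' r (C.ne _ T.hj) (C.ne _ T.hl) (C.ne _ T.hl') (C.ne _ hr)
        (C.ed (e2_up T.m2)) (C.ed (e2_up T.m0)) (C.ed (e2_up T.m1)) (C.ed (e2_lo T.m2)) (C.ed hx)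
        (t i) (t i - 1) (t i - 1) (t i - 1) (t i - 1) (by simp) (by simp) (by simp) (by simp) (by simp)
      simp only [up_self, up_ne _ T.nl, up_ne _ T.nl', up_ne _ nr, k1, k2, u, v, xj, xl, xl', T.j0, T.j1, T.j2, T.a0, T.a1,
        T.a2, T.b0, T.b1, T.b2, d5, d4, d3, d2] at this
      rw [abs_le] at this
      exact ⟨xj, by linarith [this.1, this.2]⟩
    · have := prism5 C.feas j l l' r (C.ne _ T.hj) (C.ne _ T.hl) (C.ne _ T.hl') (C.ne _ hr)
        (C.ed (e2_up T.m1)) (C.ed (e2_up T.m0)) (C.ed (e2_up T.m2)) (C.ed (e2_lo T.m1)) (C.ed hx)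
        (t i) (t i - 1) (t i - 1) (t i - 1) (t i - 1) (by simp) (by simp) (by simp) (by simp) (by simp)
      simp only [up_self, up_ne _ T.nl, up_ne _ T.nl', up_ne _ nr, k1, k2, u, v, xj, xl, xl', T.j0, T.j1, T.j2, T.a0, T.a1,
        T.a2, T.b0, T.b1, T.b2, d5, d4, d3, d2] at this
      rw [abs_le] at this
      exact ⟨xj, by linarith [this.1, this.2]⟩
    · exact (C.excl T hx xl xl').elim
    · have := prism5 C.feas j l l' r (C.ne _ T.hj) (C.ne _ T.hl) (C.ne _ T.hl') (C.ne _ hr)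
        (C.ed (e2_lo T.m0)) (C.ed (e2_lo T.m1)) (C.ed (e2_lo T.m2)) (C.ed (e2_up T.m0)) (C.ed hx)
        (t i) (t i - 1) (t i - 1) (t i - 1) (t i - 1) (by simp) (by simp) (by simp) (by simp) (by simp)
      simp only [up_self, up_ne _ T.nl, up_ne _ T.nl', up_ne _ nr, k1, k2, u, v, xj, xl, xl', T.j0, T.j1, T.j2, T.a0, T.a1,
        T.a2, T.b0, T.b1, T.b2, d5, d4, d3, d2] at this
      rw [abs_le] at this
      exfalso; linarith [this.1, this.2]
    · have := prism5 C.feas j l l' r (C.ne _ T.hj) (C.ne _ T.hl) (C.ne _ T.hl') (C.ne _ hr)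
        (C.ed (e2_lo T.m2)) (C.ed (e2_lo T.m0)) (C.ed (e2_lo T.m1)) (C.ed (e2_up T.m2)) (C.ed hx)
        (t i) (t i - 1) (t i - 1) (t i - 1) (t i - 1) (by simp) (by simp) (by simp) (by simp) (by simp)
      simp only [up_self, up_ne _ T.nl, up_ne _ T.nl', up_ne _ nr, k1, k2, u, v, xj, xl, xl', T.j0, T.j1, T.j2, T.a0, T.a1,
        T.a2, T.b0, T.b1, T.b2, d5, d4, d3, d2] at this
      rw [abs_le] at this
      exfalso; linarith [this.1, this.2]
    · have := prism5 C.feas j l l' r (C.ne _ T.hj) (C.ne _ T.hl) (C.ne _ T.hl') (C.ne _ hr)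
        (C.ed (e2_lo T.m1)) (C.ed (e2_lo T.m0)) (C.ed (e2_lo T.m2)) (C.ed (e2_up T.m1)) (C.ed hx)
        (t i) (t i - 1) (t i - 1) (t i - 1) (t i - 1) (by simp) (by simp) (by simp) (by simp) (by simp)
      simp only [up_self, up_ne _ T.nl, up_ne _ T.nl', up_ne _ nr, k1, k2, u, v, xj, xl, xl', T.j0, T.j1, T.j2, T.a0, T.a1,
        T.a2, T.b0, T.b1, T.b2, d5, d4, d3, d2] at this
      rw [abs_le] at this
      exfalso; linarith [this.1, this.2]
    · exact (C.excl T hx xl xl').elim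
  · exact absurd (v.trans u.symm) hne

end Pool.Agent.H736Z.Heller
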