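import Pool.Agent.H736Z.Heller.LemA2

/-! The case of a shift coordinate strictly between 0 and 1/2, concluded. -/

namespace Pool.Agent.H736Z.Heller

set_option linter.unusedSectionVars false
set_option linter.unusedSimpArgs false

variable {ι : Type} [DecidableEq ι] [Fintype ι]
variable {F : Set (ι → ℝ)} {t : ι → ℝ} {i : ι} {S : Finset ι}

lemma Tri.min (C : Ctx F t i S) {j l l' : ι} {p0 p1 p2 : ι → ℝ}
    (T : Tri F t i S j l l' p0 p1 p2) : ∀ r ∈ S, t j ≤ t r := by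
  intro r hr; rw [T.tj]; exact C.lo r hr

/-- A row that is not constant on the triple can be used as first row. -/
lemma Ctx.relabel (C : Ctx F t i S) {j l l' : ι} {p0 p1 p2 : ι → ℝ}
    (T : Tri F t i S j l l' p0 p1 p2) {r : ι} (hr : r ∈ S) (nr : r ≠ j)
    (h : ¬ (p1 r = p0 r ∧ p2 r = p0 r)) : ∃ k q0 q1 q2, Tri F t i S j r k q0 q1 q2 := by
  have c1 := C.h1
  by_cases e1 : p1 r = p0 r
  · have e2 : p2 r ≠ p0 r := fun e => h ⟨e1, e⟩
    exact ⟨l, p0, p2, p1, C.mkTri T.hj (T.min C) hr T.hl nr T.nl T.m0 T.m2 T.m1 e2 e1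
      (by rw [T.a2, T.a0]) (by rw [T.a1, T.a0]; intro h; linarith)⟩
  · rcases C.two T.m1.1 T.m0.1 T.m2.1 hr e1 with e2 | e2
    · exact ⟨l, p2, p0, p1, C.mkTri T.hj (T.min C) hr T.hl nr T.nl T.m2 T.m0 T.m1
        (by rw [e2]; exact fun e => e1 e.symm) e2.symm (by rw [T.a2, T.a0])
        (by rw [T.a1, T.a2]; intro h; linarith)⟩
    · exact ⟨l', p0, p1, p2, C.mkTri T.hj (T.min C) hr T.hl' nr T.nl' T.m0 T.m1 T.m2 e1 e2
        (by rw [T.b1, T.b0]) (by rw [T.b2, T.b0]; intro h; linarith)⟩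

lemma Ctx.nb (C : Ctx F t i S) {j l l' : ι} {p0 p1 p2 : ι → ℝ}
    (T : Tri F t i S j l l' p0 p1 p2) : ∃ k q0 q1 q2, Tri F t i S l j k q0 q1 q2 := by
  have c1 := C.h1
  obtain ⟨k, k', q0, q1, q2, Q⟩ := C.exTri T.hl (fun r hr => by rw [T.tl]; exact C.lo r hr)
  apply C.relabel Q T.hj T.nl.symm
  rintro ⟨e1, e2⟩
  have b := C.constb Q T.hj T.nl.symm e1
  have v : q0 j = t i := by
    rcases C.val Q.m0.1 T.hj with h | h
    · rw [h, T.tj]
    · rw [T.tj] at h; linarith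
  have := (C.F2 Q T.hj T.nl.symm e1 e2 (e2_lo T.m1) (by rw [T.j1, v]; intro h; linarith)).1
  rw [T.a1] at this; linarith

lemma Ctx.allT (C : Ctx F t i S) {j l l' : ι} {p0 p1 p2 : ι → ℝ}
    (T : Tri F t i S j l l' p0 p1 p2) {r : ι} (hr : r ∈ S) : t r = t i := by
  by_cases nr : r = j
  · rw [nr, T.tj]
  by_cases h : p1 r = p0 r ∧ p2 r = p0 r
  · obtain ⟨a, ha, -⟩ := three_of_ncard (C.big r hr)
    by_cases e : a r = p0 r
    · refine (C.F2 T hr nr h.1 h.2 (e2_up ha) ?_).2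
      rw [up_self, e]; intro h; linarith
    · exact (C.F2 T hr nr h.1 h.2 (e2_lo ha) e).2
  · obtain ⟨k, q0, q1, q2, Q⟩ := C.relabel T hr nr h
    exact Q.tl

lemma Ctx.G4 (C : Ctx F t i S) {j l l' : ι} {p0 p1 p2 : ι → ℝ}
    (T : Tri F t i S j l l' p0 p1 p2) {r : ι} (hr : r ∈ S) (nr : r ≠ j)
    (r0 : p0 r = t i - 1) (r1 : p1 r = t i) (r2 : p2 r = t i) : False := by
  have c0 := C.h0
  have c1 := C.h1
  obtain ⟨k, q0, q1, q2, Q⟩ := C.nb T
  have T' : Tri F t i S j r l p2 p0 p1 := C.mkTri T.hj (T.min C) hr T.hl nr T.nl T.m2 T.m0 T.m1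
    (by rw [r0, r2]; intro h; linarith) (by rw [r1, r2]) (by rw [T.a2, T.a0])
    (by rw [T.a1, T.a2]; intro h; linarith)
  have val : ∀ x ∈ Lat F t, ∀ s ∈ S, x s ≠ t i - 1 → x s = t i := by
    intro x hx s hs h
    rcases C.val hx hs with e | e
    · rw [e, C.allT T hs]
    · rw [C.allT T hs] at e; exact absurd e h
  have u0 : q0 l' = t i := val _ Q.m0.1 _ T.hl' fun h => C.excl T (e2_lo Q.m0) Q.j0 h
  have u1 : q1 l' = t i := val _ Q.m1.1 _ T.hl' fun h => C.excl T (e2_lo Q.m1) Q.j1 h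
  have w0 : q0 r = t i := val _ Q.m0.1 _ hr fun h => C.excl T' (e2_lo Q.m0) h Q.j0
  have w1 : q1 r = t i := val _ Q.m1.1 _ hr fun h => C.excl T' (e2_lo Q.m1) h Q.j1
  have := prism5 C.feas j l l' r (C.ne _ T.hj) (C.ne _ T.hl) (C.ne _ T.hl') (C.ne _ hr)
    (C.ed (e2_up Q.m1)) (C.ed (e2_up Q.m0)) (C.ed (e2_lo T.m0)) (C.ed (e2_lo T.m1))
    (C.ed (e2_lo T.m2)) (t i) (t i - 1) (t i - 1) (t i - 1) (t i - 1)
    (by simp) (by simp) (by simp) (by simp) (by simp)
  simp only [up_self, up_ne _ T.nl.symm, up_ne _ T.nll.symm, up_ne _ T'.nll, u0, u1, w0, w1,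
    r0, r1, r2, Q.j0, Q.j1, Q.a0, Q.a1, T.j0, T.j1, T.j2, T.a0, T.a1,
    T.a2, T.b0, T.b1, T.b2, d5, d4, d3, d2] at this
  rw [abs_le] at this
  linarith [this.1, this.2]

lemma Ctx.zero (C : Ctx F t i S) {j l l' : ι} {p0 p1 p2 : ι → ℝ}
    (T : Tri F t i S j l l' p0 p1 p2) {r : ι} (hr : r ∈ S) (nr : r ≠ j) : p0 r = t i := by
  have c1 := C.h1
  have tr := C.allT T hr
  rcases C.val T.m0.1 hr with h | h
  · rw [h, tr]
  rw [tr] at h
  exfalso
  have n1 : p1 r ≠ p0 r := fun e => by linarith [C.constb T hr nr e]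
  have n2 : p2 r ≠ p0 r := fun e => by linarith [C.constb T.swap hr nr e]
  have v1 : p1 r = t i := by
    rcases C.val T.m1.1 hr with e | e
    · rw [e, tr]
    · rw [tr] at e; exact absurd (e.trans h.symm) n1
  have v2 : p2 r = t i := by
    rcases C.val T.m2.1 hr with e | e
    · rw [e, tr]
    · rw [tr] at e; exact absurd (e.trans h.symm) n2
  exact C.G4 T hr nr h v1 v2

lemma Ctx.five (C : Ctx F t i S) {j l l' : ι} {p0 p1 p2 : ι → ℝ}
    (T : Tri F t i S j l l' p0 p1 p2) {k r : ι} (hk : k ∈ S) (hr : r ∈ S)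
    (n1 : k ≠ j) (n2 : k ≠ l) (n3 : k ≠ l') (n4 : r ≠ j) (n5 : r ≠ l) (n6 : r ≠ l')
    (n7 : r ≠ k) : False := by
  have c0 := C.h0
  have c4 := T.third
  have single : ∀ u ∈ S, ∃ p ∈ E1 F t i, p u = t i - 1 ∧ ∀ s ∈ S, s ≠ u → p s = t i := by
    intro u hu
    obtain ⟨k, k', q0, q1, q2, Q⟩ := C.exTri hu
      (fun s hs => by rw [C.allT T hu]; exact C.lo s hs)
    exact ⟨q0, e2_lo Q.m0, Q.j0, fun s hs h => C.zero Q hs h⟩
  obtain ⟨xl, ml, al, bl⟩ := single l T.hl
  obtain ⟨xl', ml', al', bl'⟩ := single l' T.hl'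
  obtain ⟨xk, mk, ak, bk⟩ := single k hk
  obtain ⟨xr, mr, ar, br⟩ := single r hr
  have := prism6 C.feas j l l' k r (C.ne _ T.hj) (C.ne _ T.hl) (C.ne _ T.hl') (C.ne _ hk)
    (C.ne _ hr) (C.ed (e2_up T.m0)) (C.ed (e2_lo T.m0)) (C.ed ml) (C.ed ml') (C.ed mk) (C.ed mr)
    (t i) (t i - 1) (t i - 1) (t i - 1) (t i - 1) (t i - 1)
    (by simp) (by simp) (by simp) (by simp) (by simp) (by simp)
  simp only [up_self, up_ne _ T.nl, up_ne _ T.nl', up_ne _ n1, up_ne _ n4, T.j0, T.a0, T.b0,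
    C.zero T hk n1, C.zero T hr n4, al, al', ak, ar,
    bl j T.hj T.nl.symm, bl l' T.hl' T.nll.symm, bl k hk n2, bl r hr n5,
    bl' j T.hj T.nl'.symm, bl' l T.hl T.nll, bl' k hk n3, bl' r hr n6,
    bk j T.hj n1.symm, bk l T.hl n2.symm, bk l' T.hl' n3.symm, bk r hr n7,
    br j T.hj n4.symm, br l T.hl n5.symm, br l' T.hl' n6.symm, br k hk n7.symm] at this
  have e : ∀ a : ℝ, d6 (a - 1 + 1) (a - 1) a a a a a a (a - 1) a a a a a a (a - 1) a a
      a a a a (a - 1) a a a a a a (a - 1) a (a - 1) (a - 1) (a - 1) (a - 1) (a - 1) = -4 * a := by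
    intro a
    simp only [d6, d5, d4, d3, d2]
    ring
  rw [e, abs_le] at this
  linarith [this.1]

lemma Ctx.count (C : Ctx F t i S) (hS : S.Nonempty) : (E1 F t i).ncard ≤ 2 * S.card + 2 := by
  obtain ⟨j, hj, hmin⟩ := S.exists_min_image t hS
  obtain ⟨l, l', p0, p1, p2, T⟩ := C.exTri hj hmin
  obtain ⟨k, q0, q1, q2, Q⟩ := C.nb T
  have nk : k ≠ l' := by
    rintro rfl
    exact C.excl T (e2_lo Q.m2) Q.j2 Q.b2
  have hall : ∀ r ∈ S, r = j ∨ r = l ∨ r = l' ∨ r = k := by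
    intro r hr
    by_contra h
    push Not at h
    exact C.five T Q.hl' hr Q.nll.symm Q.nl' nk h.1 h.2.1 h.2.2.1 h.2.2.2
  have hcard : 4 ≤ S.card := by
    have : ({j, l, l', k} : Finset ι) ⊆ S := by
      intro r hr
      simp only [Finset.mem_insert, Finset.mem_singleton] at hr
      rcases hr with rfl | rfl | rfl | rfl
      exacts [hj, T.hl, T.hl', Q.hl']
    have h2 := Finset.card_le_card this
    rw [Finset.card_insert_of_notMem, Finset.card_insert_of_notMem,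
      Finset.card_insert_of_notMem, Finset.card_singleton] at h2
    · exact h2
    · simpa using nk.symm
    · simp only [Finset.mem_insert, Finset.mem_singleton, not_or]
      exact ⟨T.nll, Q.nl'.symm⟩
    · simp only [Finset.mem_insert, Finset.mem_singleton, not_or]
      exact ⟨T.nl.symm, T.nl'.symm, Q.nll⟩
  set τ := t i with hτ
  let A : Finset (ℝ × ℝ) := {(τ, τ), (τ - 1, τ), (τ, τ - 1)}
  have hA : A.card ≤ 3 := Finset.card_le_three
  have h9 : (E1 F t i).ncard ≤ ((A ×ˢ A : Finset _) : Set ((ℝ × ℝ) × (ℝ × ℝ))).ncard := by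
    apply Set.ncard_le_ncard_of_injOn (fun x => ((x j, x k), (x l, x l'))) _ _ (Finset.finite_toSet _)
    · intro x hx
      have vj := C.val hx.1 T.hj
      have vl := C.val hx.1 T.hl
      have vl' := C.val hx.1 T.hl'
      have vk := C.val hx.1 Q.hl'
      rw [T.tj] at vj
      rw [T.tl] at vl
      rw [T.tl'] at vl'
      rw [Q.tl'] at vk
      simp only [Finset.coe_product, Set.mem_prod, Finset.mem_coe, A, Finset.mem_insert,
        Finset.mem_singleton, Prod.mk.injEq]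
      constructor
      · rcases vj with a | a <;> rcases vk with b | b
        · exact Or.inl ⟨a, b⟩
        · exact Or.inr (Or.inr ⟨a, b⟩)
        · exact Or.inr (Or.inl ⟨a, b⟩)
        · exact (C.excl Q hx a b).elim
      · rcases vl with a | a <;> rcases vl' with b | b
        · exact Or.inl ⟨a, b⟩
        · exact Or.inr (Or.inr ⟨a, b⟩)
        · exact Or.inr (Or.inl ⟨a, b⟩)
        · exact (C.excl T hx a b).elim
    · intro x hx y hy hxy
      simp only [Prod.mk.injEq] at hxy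
      ext r
      by_cases hri : r = i
      · rw [hri, (C.ed hx).2.2, (C.ed hy).2.2]
      by_cases hr : r ∈ S
      · rcases hall r hr with rfl | rfl | rfl | rfl
        exacts [hxy.1.1, hxy.2.1, hxy.2.2, hxy.1.2]
      · rw [C.supp x hx.1.1 r hr hri, C.supp y hy.1.1 r hr hri]
  rw [Set.ncard_coe_finset, Finset.card_product] at h9
  have : A.card * A.card ≤ 3 * 3 := Nat.mul_le_mul hA hA
  omega

lemma e1_base {F : Set (ι → ℝ)} (hF : Feas F) {t : ι → ℝ} {i : ι} (h0 : 0 < t i) (h1 : t i < 1)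
    (hs : Supp F {i}) : (E1 F t i).ncard ≤ 1 := by
  rw [Set.ncard_le_one_iff (e1_finite hF _ _)]
  intro x y hx hy
  ext r
  by_cases hr : r = i
  · rw [hr, lower_val hF hx.1 hx.2 h0 h1, lower_val hF hy.1 hy.2 h0 h1]
  · rw [hs x hx.1.1 r (by simpa using hr), hs y hy.1.1 r (by simpa using hr)]

/-- Lemma A. -/
theorem lemA (i : ι) (n : ℕ) : ∀ (S : Finset ι) (F : Set (ι → ℝ)) (t : ι → ℝ), S.card = n →
    i ∉ S → Good F → Supp F (insert i S) → 0 < t i → t i < 1 / 2 →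
    (∀ r, t r = 0 ∨ (t i ≤ t r ∧ t r ≤ 1 / 2)) → (E1 F t i).ncard ≤ 2 * n + 2 := by
  induction n with
  | zero =>
    intro S F t hS _ hF hs h0 h1 _
    rw [Finset.card_eq_zero] at hS
    subst hS
    have := e1_base hF.feas h0 (by linarith) (by simpa using hs)
    omega
  | succ n ih =>
    intro S F t hS hi hF hs h0 h1 ht
    by_cases hex : ∃ j ∈ S, (E2 F t i j).ncard ≤ 2
    · obtain ⟨j, hj, h2⟩ := hex
      have hij : i ≠ j := fun h => hi (h ▸ hj)
      have := ih (S.erase j) (zer j '' F) (zer j t) (by rw [Finset.card_erase_of_mem hj]; omega)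
        (fun h => hi (Finset.mem_of_mem_erase h)) (good_zer hF j)
        (by rw [← Finset.erase_insert_of_ne hij]; exact supp_zer hs j)
        (by rw [zer_ne hij]; exact h0) (by rw [zer_ne hij]; exact h1)
        (fun r => by
          by_cases hr : r = j
          · left; rw [hr]; simp
          · rw [zer_ne hij, zer_ne hr]; exact ht r)
      have c := count2 hF t hij
      omega
    · push Not at hex
      have ne : ∀ r ∈ S, r ≠ i := fun r hr h => hi (h ▸ hr)
      have nz : ∀ r ∈ S, t i ≤ t r ∧ t r ≤ 1 / 2 := by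
        intro r hr
        rcases ht r with h | h
        · have := lemA_Z hF.feas h0 h1 (ne r hr) h
          have := hex r hr
          omega
        · exact h
      have C : Ctx F t i S := ⟨hF.feas, h0, h1, ne, fun r hr => (nz r hr).1,
        fun r hr => (nz r hr).2, fun x hx r hr hri => hs x hx r (by simp [hr, hri]),
        fun j hj => hex j hj⟩
      have := C.count (Finset.card_pos.mp (by omega))
      rw [hS] at this
      exact this

end Pool.Agent.H736Z.Heller
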