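import Pool.Agent.H736Z.Heller.Basic

/-! Local determinant inequalities. -/

namespace Pool.Agent.H736Z.Heller

set_option linter.unusedSectionVars false

variable {ι : Type} [DecidableEq ι] [Fintype ι]

/-- Lower end of an edge in direction `i` with coordinate `τ - 1`. -/
def Ed (F : Set (ι → ℝ)) (i : ι) (τ : ℝ) (x : ι → ℝ) : Prop :=
  x ∈ F ∧ x + ee i ∈ F ∧ x i = τ - 1

lemma Ed.lift {F : Set (ι → ℝ)} {i : ι} {τ : ℝ} {x : ι → ℝ} (e : Ed F i τ x) (h : ℝ)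
    (k : h = τ - 1 ∨ h = τ) : ∃ y ∈ F, y i = h ∧ ∀ r, r ≠ i → y r = x r := by
  rcases k with rfl | rfl
  · exact ⟨x, e.1, e.2.2, fun _ _ => rfl⟩
  · exact ⟨x + ee i, e.2.1, by simp [e.2.2], fun r hr => by simp [ee_ne hr]⟩

lemma prism2 {F : Set (ι → ℝ)} (hF : Feas F) {i : ι} {τ : ℝ} (r0 : ι)
    (n0 : r0 ≠ i) {x0 x1 : ι → ℝ}
    (e0 : Ed F i τ x0) (e1 : Ed F i τ x1)
    (h0 h1 : ℝ)
    (k0 : h0 = τ - 1 ∨ h0 = τ) (k1 : h1 = τ - 1 ∨ h1 = τ) :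
    |d2 (x0 r0) (x1 r0)
      h0 h1| ≤ 1 := by
  obtain ⟨y0, m0, a0, b0⟩ := e0.lift h0 k0
  obtain ⟨y1, m1, a1, b1⟩ := e1.lift h1 k1
  have := feas2 hF r0 i m0 m1
  simp only [a0, a1, b0 r0 n0, b1 r0 n0] at this
  exact this

lemma prism3 {F : Set (ι → ℝ)} (hF : Feas F) {i : ι} {τ : ℝ} (r0 r1 : ι)
    (n0 : r0 ≠ i) (n1 : r1 ≠ i) {x0 x1 x2 : ι → ℝ}
    (e0 : Ed F i τ x0) (e1 : Ed F i τ x1) (e2 : Ed F i τ x2)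
    (h0 h1 h2 : ℝ)
    (k0 : h0 = τ - 1 ∨ h0 = τ) (k1 : h1 = τ - 1 ∨ h1 = τ) (k2 : h2 = τ - 1 ∨ h2 = τ) :
    |d3 (x0 r0) (x1 r0) (x2 r0)
      (x0 r1) (x1 r1) (x2 r1)
      h0 h1 h2| ≤ 1 := by
  obtain ⟨y0, m0, a0, b0⟩ := e0.lift h0 k0
  obtain ⟨y1, m1, a1, b1⟩ := e1.lift h1 k1
  obtain ⟨y2, m2, a2, b2⟩ := e2.lift h2 k2
  have := feas3 hF r0 r1 i m0 m1 m2
  simp only [a0, a1, a2, b0 r0 n0, b0 r1 n1, b1 r0 n0, b1 r1 n1, b2 r0 n0, b2 r1 n1] at this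
  exact this

lemma prism4 {F : Set (ι → ℝ)} (hF : Feas F) {i : ι} {τ : ℝ} (r0 r1 r2 : ι)
    (n0 : r0 ≠ i) (n1 : r1 ≠ i) (n2 : r2 ≠ i) {x0 x1 x2 x3 : ι → ℝ}
    (e0 : Ed F i τ x0) (e1 : Ed F i τ x1) (e2 : Ed F i τ x2) (e3 : Ed F i τ x3)
    (h0 h1 h2 h3 : ℝ)
    (k0 : h0 = τ - 1 ∨ h0 = τ) (k1 : h1 = τ - 1 ∨ h1 = τ) (k2 : h2 = τ - 1 ∨ h2 = τ) (k3 : h3 = τ - 1 ∨ h3 = τ) :
    |d4 (x0 r0) (x1 r0) (x2 r0) (x3 r0)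
      (x0 r1) (x1 r1) (x2 r1) (x3 r1)
      (x0 r2) (x1 r2) (x2 r2) (x3 r2)
      h0 h1 h2 h3| ≤ 1 := by
  obtain ⟨y0, m0, a0, b0⟩ := e0.lift h0 k0
  obtain ⟨y1, m1, a1, b1⟩ := e1.lift h1 k1
  obtain ⟨y2, m2, a2, b2⟩ := e2.lift h2 k2
  obtain ⟨y3, m3, a3, b3⟩ := e3.lift h3 k3
  have := feas4 hF r0 r1 r2 i m0 m1 m2 m3
  simp only [a0, a1, a2, a3, b0 r0 n0, b0 r1 n1, b0 r2 n2, b1 r0 n0, b1 r1 n1, b1 r2 n2, b2 r0 n0, b2 r1 n1, b2 r2 n2, b3 r0 n0, b3 r1 n1, b3 r2 n2] at this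
  exact this

lemma prism5 {F : Set (ι → ℝ)} (hF : Feas F) {i : ι} {τ : ℝ} (r0 r1 r2 r3 : ι)
    (n0 : r0 ≠ i) (n1 : r1 ≠ i) (n2 : r2 ≠ i) (n3 : r3 ≠ i) {x0 x1 x2 x3 x4 : ι → ℝ}
    (e0 : Ed F i τ x0) (e1 : Ed F i τ x1) (e2 : Ed F i τ x2) (e3 : Ed F i τ x3) (e4 : Ed F i τ x4)
    (h0 h1 h2 h3 h4 : ℝ)
    (k0 : h0 = τ - 1 ∨ h0 = τ) (k1 : h1 = τ - 1 ∨ h1 = τ) (k2 : h2 = τ - 1 ∨ h2 = τ) (k3 : h3 = τ - 1 ∨ h3 = τ) (k4 : h4 = τ - 1 ∨ h4 = τ) :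
    |d5 (x0 r0) (x1 r0) (x2 r0) (x3 r0) (x4 r0)
      (x0 r1) (x1 r1) (x2 r1) (x3 r1) (x4 r1)
      (x0 r2) (x1 r2) (x2 r2) (x3 r2) (x4 r2)
      (x0 r3) (x1 r3) (x2 r3) (x3 r3) (x4 r3)
      h0 h1 h2 h3 h4| ≤ 1 := by
  obtain ⟨y0, m0, a0, b0⟩ := e0.lift h0 k0
  obtain ⟨y1, m1, a1, b1⟩ := e1.lift h1 k1
  obtain ⟨y2, m2, a2, b2⟩ := e2.lift h2 k2
  obtain ⟨y3, m3, a3, b3⟩ := e3.lift h3 k3
  obtain ⟨y4, m4, a4, b4⟩ := e4.lift h4 k4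
  have := feas5 hF r0 r1 r2 r3 i m0 m1 m2 m3 m4
  simp only [a0, a1, a2, a3, a4, b0 r0 n0, b0 r1 n1, b0 r2 n2, b0 r3 n3, b1 r0 n0, b1 r1 n1, b1 r2 n2, b1 r3 n3, b2 r0 n0, b2 r1 n1, b2 r2 n2, b2 r3 n3, b3 r0 n0, b3 r1 n1, b3 r2 n2, b3 r3 n3, b4 r0 n0, b4 r1 n1, b4 r2 n2, b4 r3 n3] at this
  exact this

lemma prism6 {F : Set (ι → ℝ)} (hF : Feas F) {i : ι} {τ : ℝ} (r0 r1 r2 r3 r4 : ι)
    (n0 : r0 ≠ i) (n1 : r1 ≠ i) (n2 : r2 ≠ i) (n3 : r3 ≠ i) (n4 : r4 ≠ i) {x0 x1 x2 x3 x4 x5 : ι → ℝ}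
    (e0 : Ed F i τ x0) (e1 : Ed F i τ x1) (e2 : Ed F i τ x2) (e3 : Ed F i τ x3) (e4 : Ed F i τ x4) (e5 : Ed F i τ x5)
    (h0 h1 h2 h3 h4 h5 : ℝ)
    (k0 : h0 = τ - 1 ∨ h0 = τ) (k1 : h1 = τ - 1 ∨ h1 = τ) (k2 : h2 = τ - 1 ∨ h2 = τ) (k3 : h3 = τ - 1 ∨ h3 = τ) (k4 : h4 = τ - 1 ∨ h4 = τ) (k5 : h5 = τ - 1 ∨ h5 = τ) :
    |d6 (x0 r0) (x1 r0) (x2 r0) (x3 r0) (x4 r0) (x5 r0)
      (x0 r1) (x1 r1) (x2 r1) (x3 r1) (x4 r1) (x5 r1)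
      (x0 r2) (x1 r2) (x2 r2) (x3 r2) (x4 r2) (x5 r2)
      (x0 r3) (x1 r3) (x2 r3) (x3 r3) (x4 r3) (x5 r3)
      (x0 r4) (x1 r4) (x2 r4) (x3 r4) (x4 r4) (x5 r4)
      h0 h1 h2 h3 h4 h5| ≤ 1 := by
  obtain ⟨y0, m0, a0, b0⟩ := e0.lift h0 k0
  obtain ⟨y1, m1, a1, b1⟩ := e1.lift h1 k1
  obtain ⟨y2, m2, a2, b2⟩ := e2.lift h2 k2
  obtain ⟨y3, m3, a3, b3⟩ := e3.lift h3 k3
  obtain ⟨y4, m4, a4, b4⟩ := e4.lift h4 k4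
  obtain ⟨y5, m5, a5, b5⟩ := e5.lift h5 k5
  have := feas6 hF r0 r1 r2 r3 r4 i m0 m1 m2 m3 m4 m5
  simp only [a0, a1, a2, a3, a4, a5, b0 r0 n0, b0 r1 n1, b0 r2 n2, b0 r3 n3, b0 r4 n4, b1 r0 n0, b1 r1 n1, b1 r2 n2, b1 r3 n3, b1 r4 n4, b2 r0 n0, b2 r1 n1, b2 r2 n2, b2 r3 n3, b2 r4 n4, b3 r0 n0, b3 r1 n1, b3 r2 n2, b3 r3 n3, b3 r4 n4, b4 r0 n0, b4 r1 n1, b4 r2 n2, b4 r3 n3, b4 r4 n4, b5 r0 n0, b5 r1 n1, b5 r2 n2, b5 r3 n3, b5 r4 n4] at this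
  exact this

lemma lat_val {F : Set (ι → ℝ)} (hF : Feas F) {t x : ι → ℝ} (hx : x ∈ Lat F t) {r : ι}
    (h0 : 0 < t r) (h1 : t r < 1) : x r = t r ∨ x r = t r - 1 := by
  obtain ⟨z, hz⟩ := hx.2 r
  have h := abs_le.mp (feas1 hF hx.1 r)
  have a1 : (z : ℝ) < 1 := by linarith [h.2]
  have a2 : (-2 : ℝ) < z := by linarith [h.1]
  have a1' : z < 1 := by exact_mod_cast a1
  have a2' : -2 < z := by exact_mod_cast a2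
  have : z = 0 ∨ z = -1 := by omega
  rcases this with rfl | rfl
  · left; simpa using hz
  · right; rw [hz]; push_cast; ring

lemma lat_valZ {F : Set (ι → ℝ)} (hF : Feas F) {t x : ι → ℝ} (hx : x ∈ Lat F t) {r : ι}
    (h0 : t r = 0) : x r = -1 ∨ x r = 0 ∨ x r = 1 := by
  obtain ⟨z, hz⟩ := hx.2 r
  have h := abs_le.mp (feas1 hF hx.1 r)
  rw [h0, zero_add] at hz
  have a1 : (z : ℝ) ≤ 1 := by linarith [h.2]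
  have a2 : (-1 : ℝ) ≤ z := by linarith [h.1]
  have a1' : z ≤ 1 := by exact_mod_cast a1
  have a2' : -1 ≤ z := by exact_mod_cast a2
  have : z = -1 ∨ z = 0 ∨ z = 1 := by omega
  rcases this with rfl | rfl | rfl <;> simp [hz]

lemma lat_gap {F : Set (ι → ℝ)} {t x y : ι → ℝ} (hx : x ∈ Lat F t) (hy : y ∈ Lat F t) {r : ι}
    (h : x r ≠ y r) : x r + 1 ≤ y r ∨ y r + 1 ≤ x r := by
  obtain ⟨z, hz⟩ := lat_diff hx hy r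
  have hz0 : z ≠ 0 := by rintro rfl; simp at hz; exact h hz.symm
  rcases lt_or_gt_of_ne hz0 with h1 | h1
  · right
    have : (z : ℝ) ≤ -1 := by exact_mod_cast (show z ≤ -1 by omega)
    linarith
  · left
    have : (1 : ℝ) ≤ z := by exact_mod_cast (show 1 ≤ z by omega)
    linarith

lemma lat_add_ee {F : Set (ι → ℝ)} {t x : ι → ℝ} (hx : x ∈ Lat F t) {j : ι} (h : x + ee j ∈ F) :
    x + ee j ∈ Lat F t := by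
  refine ⟨h, fun r => ?_⟩
  obtain ⟨z, hz⟩ := hx.2 r
  by_cases hr : r = j
  · subst hr; exact ⟨z + 1, by simp [hz]; ring⟩
  · exact ⟨z, by simp [ee_ne hr, hz]⟩

lemma lower_val {F : Set (ι → ℝ)} (hF : Feas F) {t x : ι → ℝ} (hx : x ∈ Lat F t) {i : ι}
    (hi : x + ee i ∈ F) (h0 : 0 < t i) (h1 : t i < 1) : x i = t i - 1 := by
  rcases lat_val hF hx h0 h1 with h | h
  · have := (abs_le.mp (feas1 hF hi i)).2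
    simp [h] at this; linarith
  · exact h

lemma lower_valZ {F : Set (ι → ℝ)} (hF : Feas F) {t x : ι → ℝ} (hx : x ∈ Lat F t) {i : ι}
    (hi : x + ee i ∈ F) (h0 : t i = 0) : x i = -1 ∨ x i = 0 := by
  rcases lat_valZ hF hx h0 with h | h | h
  · exact Or.inl h
  · exact Or.inr h
  · have := (abs_le.mp (feas1 hF hi i)).2
    simp [h] at this; linarith

lemma e1_ed {F : Set (ι → ℝ)} (hF : Feas F) {t x : ι → ℝ} {i : ι} (hx : x ∈ E1 F t i)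
    (h0 : 0 < t i) (h1 : t i < 1) : Ed F i (t i) x :=
  ⟨hx.1.1, hx.2, lower_val hF hx.1 hx.2 h0 h1⟩

lemma e2_lo {F : Set (ι → ℝ)} {t x : ι → ℝ} {i j : ι} (hx : x ∈ E2 F t i j) : x ∈ E1 F t i :=
  ⟨hx.1, hx.2.1⟩

lemma e2_up {F : Set (ι → ℝ)} {t x : ι → ℝ} {i j : ι} (hx : x ∈ E2 F t i j) :
    x + ee j ∈ E1 F t i :=
  ⟨lat_add_ee hx.1 hx.2.2.1, by rw [add_right_comm]; exact hx.2.2.2⟩

lemma up_self (x : ι → ℝ) (j : ι) : (x + ee j) j = x j + 1 := by simp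

lemma up_ne (x : ι → ℝ) {j r : ι} (h : r ≠ j) : (x + ee j) r = x r := by simp [ee_ne h]

lemma e2_symm {F : Set (ι → ℝ)} {t x : ι → ℝ} {i j : ι} (hx : x ∈ E2 F t i j) :
    x ∈ E2 F t j i :=
  ⟨hx.1, hx.2.2.1, hx.2.1, by rw [add_right_comm]; exact hx.2.2.2⟩

/-- Three distinct elements from a cardinality bound. -/
lemma three_of_ncard {α : Type} {A : Set α} (h : 3 ≤ A.ncard) :
    ∃ a ∈ A, ∃ b ∈ A, ∃ c ∈ A, a ≠ b ∧ a ≠ c ∧ b ≠ c := by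
  have hf : A.Finite := Set.finite_of_ncard_pos (by omega)
  obtain ⟨a, b, c, ha, hb, hc, h1, h2, h3⟩ := (Set.two_lt_ncard_iff hf).mp (by omega)
  exact ⟨a, ha, b, hb, c, hc, h1, h2, h3⟩

end Pool.Agent.H736Z.Heller
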