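import Pool.Agent.H736Z.Heller.Pure
import Pool.Agent.H736Z.Heller.LemA3

/-! The key lemma and the column bound. -/

namespace Pool.Agent.H736Z.Heller

open Matrix

set_option linter.unusedSectionVars false

variable {ι : Type} [DecidableEq ι] [Fintype ι]

theorem key {F : Set (ι → ℝ)} {t : ι → ℝ} {R : Finset ι} (hF : Good F) (hs : Supp F R)
    (hR : R.Nonempty) (ht0 : ∀ r, r ∉ R → t r = 0) (ht : ∀ r, 0 ≤ t r ∧ t r ≤ 1 / 2) :
    ∃ i ∈ R, (E1 F t i).ncard ≤ 2 * R.card := by
  classical
  by_cases hA : ∃ r, 0 < t r ∧ t r < 1 / 2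
  · obtain ⟨r0, hr0, hr1⟩ := hA
    obtain ⟨i, hi, hmin⟩ := (Finset.univ.filter fun r => 0 < t r).exists_min_image t
      ⟨r0, by simpa using hr0⟩
    simp only [Finset.mem_filter, Finset.mem_univ, true_and] at hi hmin
    have hiR : i ∈ R := by
      by_contra h; rw [ht0 i h] at hi; exact lt_irrefl _ hi
    have := lemA i (R.erase i).card (R.erase i) F t rfl (Finset.notMem_erase i R) hF
      (by rw [Finset.insert_erase hiR]; exact hs) hi (by linarith [hmin r0 hr0])
      (fun r => by
        rcases (ht r).1.eq_or_lt with h | h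
        · exact Or.inl h.symm
        · exact Or.inr ⟨hmin r h, (ht r).2⟩)
    rw [Finset.card_erase_of_mem hiR] at this
    have := Finset.card_pos.mpr hR
    exact ⟨i, hiR, by omega⟩
  push Not at hA
  have hh : ∀ r, t r = 0 ∨ t r = 1 / 2 := by
    intro r
    rcases (ht r).1.eq_or_lt with h | h
    · exact Or.inl h.symm
    · exact Or.inr (le_antisymm (ht r).2 (hA r h))
  let S := R.filter fun r => t r = 1 / 2
  let Z := R.filter fun r => ¬ t r = 1 / 2
  have hSZ : S.card + Z.card = R.card := Finset.card_filter_add_card_filter_not _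
  have hU : S ∪ Z = R := Finset.filter_union_filter_not_eq _ _
  have hZ : ∀ r ∈ Z, r ∉ S ∧ t r = 0 := by
    intro r hr
    have := (Finset.mem_filter.mp hr).2
    exact ⟨fun h => this (Finset.mem_filter.mp h).2, (hh r).resolve_right this⟩
  have hS : ∀ r ∈ S, t r = 1 / 2 := fun r hr => (Finset.mem_filter.mp hr).2
  have hSR : ∀ r ∈ S, r ∈ R := fun r hr => (Finset.mem_filter.mp hr).1
  have hZR : ∀ r ∈ Z, r ∈ R := fun r hr => (Finset.mem_filter.mp hr).1
  have zdel : ∀ w ∈ Z, (E1 F t w).ncard ≤
      (E1 (prj (insert w S) '' F) t w).ncard + 2 * (Z.card - 1) := by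
    intro w hw
    refine zzInd hh (insert w S) (Finset.mem_insert_self _ _) (hZ w hw).2 _ (Z.erase w) F
      (Finset.card_erase_of_mem hw) (fun r hr => ?_) hF ?_
    · have h1 := hZ r (Finset.mem_of_mem_erase hr)
      exact ⟨by simp [Finset.ne_of_mem_erase hr, h1.1], h1.2⟩
    · rw [Finset.insert_union, ← Finset.union_insert, Finset.insert_erase hw, hU]; exact hs
  have C : PureC (prj S '' F) t S := ⟨good_prj hF S, supp_prj S, hh, hS⟩
  by_cases h0 : S.card = 0
  · obtain ⟨w, hw⟩ := Finset.card_pos.mp (show 0 < Z.card by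
      have := Finset.card_pos.mpr hR; omega)
    have h1 := zdel w hw
    rw [Finset.card_eq_zero] at h0
    rw [h0] at h1
    have h2 : (E1 (prj (insert w ∅) '' F) t w).ncard ≤ (({-1, 0} : Finset ℝ) : Set ℝ).ncard := by
      have G := good_prj hF (insert w ∅)
      apply Set.ncard_le_ncard_of_injOn (fun x => x w) _ _ (Finset.finite_toSet _)
      · intro x hx
        simpa using lower_valZ G.feas hx.1 hx.2 (hZ w hw).2
      · intro x hx y hy hxy
        ext r
        by_cases hr : r = w
        · rw [hr]; exact hxy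
        · rw [supp_prj _ x hx.1.1 r (by simpa using hr), supp_prj _ y hy.1.1 r (by simpa using hr)]
    rw [Set.ncard_coe_finset] at h2
    have h3 : ({-1, 0} : Finset ℝ).card ≤ 2 := Finset.card_le_two
    have := Finset.card_pos.mpr ⟨w, hw⟩
    exact ⟨w, hZR w hw, by omega⟩
  by_cases h1 : S.card = 1
  · obtain ⟨i, hi⟩ := Finset.card_eq_one.mp h1
    have hiS : i ∈ S := by rw [hi]; simp
    have a := szInd hh S hiS (hS i hiS) 0 (Or.inr fun r hr => by
      rcases hh r with h | h
      · exact h
      · by_cases hr' : r ∈ R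
        · have : r ∈ S := Finset.mem_filter.mpr ⟨hr', h⟩
          rw [hi] at this; exact absurd (Finset.mem_singleton.mp this) hr
        · exact ht0 r hr') Z.card Z F rfl hZ hF (by rw [hU]; exact hs)
    have b := C.triv hiS
    rw [h1] at b
    exact ⟨i, hSR i hiS, by omega⟩
  rcases pure S.card S _ t rfl (by omega) C with ⟨i, hi, h⟩ | ⟨h4, hf⟩
  · have a := szInd hh S hi (hS i hi) 2 (Or.inl rfl) Z.card Z F rfl hZ hF (by rw [hU]; exact hs)
    exact ⟨i, hSR i hi, by omega⟩
  · by_cases hz : Z.card = 0
    · obtain ⟨i, hi⟩ := Finset.card_pos.mp (show 0 < S.card by omega)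
      have b := C.triv hi
      rw [Finset.card_eq_zero] at hz
      have e : prj S '' F = F := prj_self (by rw [← hU, hz, Finset.union_empty] at hs; exact hs)
      rw [e, h4] at b
      exact ⟨i, hSR i hi, by omega⟩
    · obtain ⟨w, hw⟩ := Finset.card_pos.mp (show 0 < Z.card by omega)
      have a := zdel w hw
      have b := full_fc (t := t) (good_prj hF (insert w S)) h4 (hZ w hw).1 hS (supp_prj _)
        (fun s => by
          obtain ⟨_, ⟨x, hx, rfl⟩, h⟩ := hf s
          refine ⟨_, ⟨x, hx, rfl⟩, fun r hr => ?_⟩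
          rw [← h r hr]; simp [prj, hr])
      exact ⟨w, hZR w hw, by omega⟩

theorem bound (n : ℕ) : ∀ (R : Finset ι) (F : Set (ι → ℝ)) (t : ι → ℝ), R.card = n → Good F →
    Supp F R → (∀ r, r ∉ R → t r = 0) → (∀ r, 0 ≤ t r ∧ t r ≤ 1 / 2) →
    (Lat F t).ncard ≤ n ^ 2 + n + 1 := by
  induction n with
  | zero =>
    intro R F t hR hF hs _ _
    rw [Finset.card_eq_zero] at hR
    subst hR
    have : (Lat F t).ncard ≤ 1 := by
      rw [Set.ncard_le_one_iff (lat_finite hF.feas t)]
      intro x y hx hy
      ext r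
      rw [hs x hx.1 r (by simp), hs y hy.1 r (by simp)]
    omega
  | succ n ih =>
    intro R F t hR hF hs ht0 ht
    obtain ⟨i, hi, h⟩ := key hF hs (Finset.card_pos.mp (by omega)) ht0 ht
    have := ih (R.erase i) (zer i '' F) (zer i t) (by rw [Finset.card_erase_of_mem hi]; omega)
      (good_zer hF i) (supp_zer hs i)
      (fun r hr => by
        by_cases e : r = i
        · rw [e]; simp
        · rw [zer_ne e]; exact ht0 r fun h => hr (Finset.mem_erase.mpr ⟨e, h⟩))
      (fun r => by
        by_cases e : r = i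
        · rw [e]; simp
        · rw [zer_ne e]; exact ht r)
    have c := count1 hF t i
    rw [hR] at h
    nlinarith

theorem column_bound (m n : ℕ) (t : Fin m → ℝ) (A : Matrix (Fin m) (Fin n) ℤ)
    (hA : ∀ j j' : Fin n, (∀ i, A i j = A i j') → j = j')
    (h : ∀ (k : ℕ) (r : Fin k ↪ Fin m) (c : Fin k ↪ Fin n),
      |((Matrix.of fun i j => t i + (A i j : ℝ)).submatrix r c).det| ≤ 1) :
    n ≤ m ^ 2 + m + 1 := by
  classical
  let ε : Fin m → ℝ := fun i => if Int.fract (t i) ≤ 1 / 2 then 1 else -1
  let s : Fin m → ℝ := fun i => if Int.fract (t i) ≤ 1 / 2 then Int.fract (t i)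
    else 1 - Int.fract (t i)
  let b : Fin n → Fin m → ℝ := fun j i => ε i * (t i + A i j)
  have hε : ∀ i, |ε i| = 1 := by
    intro i; simp only [ε]; split_ifs <;> simp
  have hB : Feas (Set.range b) := by
    intro k r c hc
    choose c' hc' using hc
    by_cases hr : Function.Injective r
    swap
    · simp only [Function.Injective, not_forall] at hr
      obtain ⟨p, p', e, hne⟩ := hr
      rw [det_zero_of_row_eq hne]
      · simp
      · ext q; simp [e]
    by_cases hq : Function.Injective c'
    swap
    · simp only [Function.Injective, not_forall] at hq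
      obtain ⟨q, q', e, hne⟩ := hq
      rw [det_zero_of_column_eq hne]
      · simp
      · intro p; simp [← hc', e]
    have h1 := h k ⟨r, hr⟩ ⟨c', hq⟩
    have : (Matrix.of fun p q => c q (r p)) = Matrix.of fun p q => ε (r p) *
        ((Matrix.of fun i j => t i + (A i j : ℝ)).submatrix r c') p q := by
      ext p q; simp [← hc', b]
    rw [this, det_mul_column, abs_mul, Finset.abs_prod]
    simpa [hε] using h1
  have hG := good_cl hB
  have main := bound m Finset.univ {x | Cl (Set.range b) x} s (by simp) hG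
    (fun _ _ r hr => absurd (Finset.mem_univ r) hr) (fun r hr => absurd (Finset.mem_univ r) hr)
    (fun r => by
      have a := Int.fract_nonneg (t r)
      have a' := Int.fract_lt_one (t r)
      simp only [s]; split_ifs with h <;> constructor <;> linarith)
  have hinj : Function.Injective b := by
    intro j j' e
    apply hA
    intro i
    have e1 := congrFun e i
    have e2 : ε i ≠ 0 := by
      intro h0; have := hε i; rw [h0] at this; simp at this
    simp only [b] at e1
    have := mul_left_cancel₀ e2 e1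
    exact_mod_cast add_left_cancel this
  have hsub : Set.range b ⊆ Lat {x | Cl (Set.range b) x} s := by
    rintro _ ⟨j, rfl⟩
    refine ⟨Cl.base _ ⟨j, rfl⟩, fun i => ?_⟩
    have e := Int.floor_add_fract (t i)
    simp only [b, ε, s]
    split_ifs with h
    · exact ⟨⌊t i⌋ + A i j, by push_cast; linarith⟩
    · exact ⟨-⌊t i⌋ - A i j - 1, by push_cast; linarith⟩
  have c := Set.ncard_le_ncard hsub (lat_finite hG.feas s)
  rw [Set.ncard_range_of_injective hinj] at c
  simp at c
  omega

end Pool.Agent.H736Z.Heller
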