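import Pool.Agent.H736Z.Heller.Forb

/-! The case in which all coordinates of the shift are 1/2. -/

namespace Pool.Agent.H736Z.Heller

set_option linter.unusedSectionVars false
set_option linter.unusedSimpArgs false

variable {ι : Type} [DecidableEq ι] [Fintype ι]
variable {F : Set (ι → ℝ)} {t : ι → ℝ} {R : Finset ι}

/-- The sign vector of a point. -/
noncomputable def sg (x : ι → ℝ) : ι → Bool := fun r => decide (x r < 0)

structure PureC (F : Set (ι → ℝ)) (t : ι → ℝ) (R : Finset ι) : Prop where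
  good : Good F
  supp : Supp F R
  ht : ∀ r, t r = 0 ∨ t r = 1 / 2
  half : ∀ r ∈ R, t r = 1 / 2

lemma PureC.val (C : PureC F t R) {x : ι → ℝ} (hx : x ∈ Lat F t) {r : ι} (hr : r ∈ R) :
    x r = vl (sg x r) :=
  vl_decide (half_val C.good.feas hx (C.half r hr))

lemma PureC.low (C : PureC F t R) {x : ι → ℝ} (hx : x ∈ Lat F t) {a : ι} (ha : a ∈ R)
    (h : x + ee a ∈ F) : x a = -1 / 2 := by
  have := lower_val C.good.feas hx h (by rw [C.half a ha]; norm_num)
    (by rw [C.half a ha]; norm_num)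
  rw [this, C.half a ha]; norm_num

lemma PureC.lift1 (C : PureC F t R) {x : ι → ℝ} {a : ι} (ha : a ∈ R) (hx : x ∈ E1 F t a)
    (α : Bool) : ∃ y ∈ F, y a = vl α ∧ ∀ r, r ≠ a → y r = x r := by
  have := C.low hx.1 ha hx.2
  cases α
  · exact ⟨x + ee a, hx.2, by rw [up_self, this]; norm_num [vl], fun r hr => up_ne _ hr⟩
  · exact ⟨x, hx.1.1, by rw [this]; norm_num [vl], fun _ _ => rfl⟩

lemma PureC.lift2 (C : PureC F t R) {x : ι → ℝ} {a j : ι} (ha : a ∈ R) (hj : j ∈ R)
    (haj : a ≠ j) (hx : x ∈ E2 F t a j) (α β : Bool) :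
    ∃ y ∈ F, y a = vl α ∧ y j = vl β ∧ ∀ r, r ≠ a → r ≠ j → y r = x r := by
  have := C.low hx.1 hj hx.2.2.1
  cases β
  · obtain ⟨y, hy, h1, h2⟩ := C.lift1 ha (e2_up hx) α
    exact ⟨y, hy, h1, by rw [h2 j haj.symm, up_self, this]; norm_num [vl],
      fun r k1 k2 => by rw [h2 r k1, up_ne _ k2]⟩
  · obtain ⟨y, hy, h1, h2⟩ := C.lift1 ha (e2_lo hx) α
    exact ⟨y, hy, h1, by rw [h2 j haj.symm, this]; norm_num [vl], fun r k1 _ => h2 r k1⟩

lemma PureC.h5 (C : PureC F t R) (h9 : ∀ a ∈ R, 9 ≤ (E1 F t a).ncard) : H5 R (SP F R) := by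
  intro a ha p q x'
  by_contra hcon
  push Not at hcon
  have par : ∀ x ∈ E1 F t a, ∀ r ∈ R, ∀ r' ∈ R, (r ≠ a ∧ r ≠ p ∧ r ≠ q) →
      (r' ≠ a ∧ r' ≠ p ∧ r' ≠ q) → xor (sg x r) (x' r) = xor (sg x r') (x' r') := by
    intro x hx
    apply hcon (sg x)
    intro α
    obtain ⟨y, hy, h1, h2⟩ := C.lift1 ha hx α
    refine ⟨Function.update (sg x) a α, ⟨y, hy, fun r hr => ?_⟩, by simp, fun r _ hr => by simp [hr]⟩
    by_cases h : r = a
    · subst h; simpa using h1
    · rw [h2 r h, Function.update_of_ne h]; exact C.val hx.1 hr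
  obtain ⟨r0, hr0⟩ : ∃ r0, ∀ r ∈ R, (r ≠ a ∧ r ≠ p ∧ r ≠ q) →
      r0 ∈ R ∧ (r0 ≠ a ∧ r0 ≠ p ∧ r0 ≠ q) := by
    by_cases h : ∃ r ∈ R, (r ≠ a ∧ r ≠ p ∧ r ≠ q)
    · obtain ⟨r, h1, h2⟩ := h
      exact ⟨r, fun _ _ _ => ⟨h1, h2⟩⟩
    · exact ⟨a, fun r h1 h2 => absurd ⟨r, h1, h2⟩ h⟩
  have : (E1 F t a).ncard ≤ (Set.univ : Set (Bool × Bool × Bool)).ncard := by
    apply Set.ncard_le_ncard_of_injOn (fun x => (sg x p, sg x q, xor (sg x r0) (x' r0)))
      (fun _ _ => Set.mem_univ _) _ Set.finite_univ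
    intro x hx y hy hxy
    simp only [Prod.mk.injEq] at hxy
    ext r
    by_cases hr : r ∈ R
    swap
    · rw [C.supp x hx.1.1 r hr, C.supp y hy.1.1 r hr]
    by_cases e1 : r = a
    · rw [e1, C.low hx.1 ha hx.2, C.low hy.1 ha hy.2]
    rw [C.val hx.1 hr, C.val hy.1 hr]
    congr 1
    by_cases e2 : r = p
    · rw [e2]; exact hxy.1
    by_cases e3 : r = q
    · rw [e3]; exact hxy.2.1
    obtain ⟨k1, k2⟩ := hr0 r hr ⟨e1, e2, e3⟩
    have u1 := par x hx r hr r0 k1 ⟨e1, e2, e3⟩ k2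
    have u2 := par y hy r hr r0 k1 ⟨e1, e2, e3⟩ k2
    have u3 := u1.trans (hxy.2.2.trans u2.symm)
    revert u3
    cases sg x r <;> cases sg y r <;> cases x' r <;> simp
  rw [Set.ncard_univ] at this
  simp at this
  have := h9 a ha
  omega

lemma PureC.cube (C : PureC F t R) {a j : ι} (ha : a ∈ R) (hj : j ∈ R) (haj : a ≠ j)
    (h3 : 3 ≤ (E2 F t a j).ncard) : ∃ side y, Cube R (SP F R) a j side y := by
  obtain ⟨y, hy, y', hy', n1, n2⟩ : ∃ y ∈ E2 F t a j, ∃ y' ∈ E2 F t a j, y' ≠ y ∧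
      y' ≠ -(y + ee a + ee j) := by
    obtain ⟨x, hx, b, hb, c, hc, k1, k2, k3⟩ := three_of_ncard h3
    by_cases h : b = -(x + ee a + ee j)
    · exact ⟨x, hx, c, hc, k2.symm, fun e => k3 (h.trans e.symm)⟩
    · exact ⟨x, hx, b, hb, k1.symm, h⟩
  have diff : ∀ u ∈ E2 F t a j, ∀ v ∈ E2 F t a j, u ≠ v → ∃ r ∈ R, r ≠ a ∧ r ≠ j ∧ u r ≠ v r := by
    intro u hu v hv h
    by_contra hc
    push Not at hc
    apply h
    ext r
    by_cases hr : r ∈ R
    swap
    · rw [C.supp u hu.1.1 r hr, C.supp v hv.1.1 r hr]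
    by_cases e1 : r = a
    · rw [e1, C.low hu.1 ha hu.2.1, C.low hv.1 ha hv.2.1]
    by_cases e2 : r = j
    · rw [e2, C.low hu.1 hj hu.2.2.1, C.low hv.1 hj hv.2.2.1]
    exact hc r hr e1 e2
  have negv : ∀ u : ι → ℝ, ∀ r, r ≠ a → r ≠ j → (-(u + ee a + ee j)) r = -u r := by
    intro u r k1 k2; simp [ee_ne k1, ee_ne k2]
  refine ⟨fun r => xor (sg y r) (sg y' r), sg y, ha, hj, haj, fun α β g => ?_, fun σ => ?_⟩
  · obtain ⟨z, hz, hv⟩ : ∃ z ∈ E2 F t a j, ∀ r ∈ R, r ≠ a → r ≠ j →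
        z r = vl (xor (sg y r) (g (xor (sg y r) (sg y' r)))) := by
      cases g0 : g false <;> cases g1 : g true
      · refine ⟨y, hy, fun r hr _ _ => ?_⟩
        rw [C.val hy.1 hr]
        cases sg y r <;> cases sg y' r <;> simp [g0, g1]
      · refine ⟨y', hy', fun r hr _ _ => ?_⟩
        rw [C.val hy'.1 hr]
        cases sg y r <;> cases sg y' r <;> simp [g0, g1]
      · refine ⟨_, neg_e2 C.good C.ht hy', fun r hr k1 k2 => ?_⟩
        rw [negv y' r k1 k2, C.val hy'.1 hr, ← vl_not]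
        cases sg y r <;> cases sg y' r <;> simp [g0, g1]
      · refine ⟨_, neg_e2 C.good C.ht hy, fun r hr k1 k2 => ?_⟩
        rw [negv y r k1 k2, C.val hy.1 hr, ← vl_not]
        cases sg y r <;> cases sg y' r <;> simp [g0, g1]
    obtain ⟨x, hx, x1, x2, x3⟩ := C.lift2 ha hj haj hz α β
    refine ⟨fun r => if r = a then α else if r = j then β else
      xor (sg y r) (g (xor (sg y r) (sg y' r))), ⟨x, hx, fun r hr => ?_⟩, by simp,
      by simp [haj.symm], fun r _ k1 k2 => by simp [k1, k2]⟩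
    by_cases e1 : r = a
    · subst e1; simpa using x1
    by_cases e2 : r = j
    · subst e2; simpa [e1] using x2
    simp only [e1, e2, if_false]
    rw [x3 r e1 e2, hv r hr e1 e2]
  · cases σ
    · obtain ⟨r, hr, k1, k2, k3⟩ := diff y' hy' _ (neg_e2 C.good C.ht hy) n2
      refine ⟨r, hr, k1, k2, ?_⟩
      rw [negv y r k1 k2, C.val hy.1 hr, C.val hy'.1 hr, ← vl_not] at k3
      revert k3
      cases sg y r <;> cases sg y' r <;> simp
    · obtain ⟨r, hr, k1, k2, k3⟩ := diff y' hy' y hy n1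
      refine ⟨r, hr, k1, k2, ?_⟩
      rw [C.val hy.1 hr, C.val hy'.1 hr] at k3
      revert k3
      cases sg y r <;> cases sg y' r <;> simp

/-- Every sign vector on `R` occurs. -/
def Full (F : Set (ι → ℝ)) (R : Finset ι) : Prop := ∀ s : ι → Bool, s ∈ SP F R

lemma PureC.inj (C : PureC F t R) {i : ι} (hi : i ∈ R) :
    Set.InjOn (fun x : ι → ℝ => (R.erase i).filter fun r => sg x r = true) (E1 F t i) := by
  intro x hx y hy hxy
  ext r
  by_cases hr : r ∈ R
  swap
  · rw [C.supp x hx.1.1 r hr, C.supp y hy.1.1 r hr]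
  by_cases e1 : r = i
  · rw [e1, C.low hx.1 hi hx.2, C.low hy.1 hi hy.2]
  rw [C.val hx.1 hr, C.val hy.1 hr]
  congr 1
  have := Finset.ext_iff.mp hxy r
  simp only [Finset.mem_filter, Finset.mem_erase, ne_eq, e1, not_false_eq_true, hr, true_and]
    at this
  revert this
  cases sg x r <;> cases sg y r <;> simp

lemma PureC.triv (C : PureC F t R) {i : ι} (hi : i ∈ R) :
    (E1 F t i).ncard ≤ 2 ^ (R.card - 1) := by
  have := Set.ncard_le_ncard_of_injOn (t := ((R.erase i).powerset : Set (Finset ι))) _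
    (fun x _ => Finset.mem_coe.mpr (Finset.mem_powerset.mpr (Finset.filter_subset _ _)))
    (C.inj hi) (Finset.finite_toSet _)
  rwa [Set.ncard_coe_finset, Finset.card_powerset, Finset.card_erase_of_mem hi] at this

lemma PureC.notfull (C : PureC F t R) {i : ι} (hi : i ∈ R) (hR : R.card = 4) (h : ¬ Full F R) :
    (E1 F t i).ncard ≤ 6 := by
  unfold Full at h
  push Not at h
  obtain ⟨s, hs⟩ := h
  let A := (R.erase i).filter fun r => s r = true
  let B := (R.erase i).filter fun r => (!s r) = true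
  have hAB : A ≠ B := by
    obtain ⟨r, hr⟩ := Finset.card_pos.mp
      (show 0 < (R.erase i).card by rw [Finset.card_erase_of_mem hi]; omega)
    intro h
    have := Finset.ext_iff.mp h r
    simp only [A, B, Finset.mem_filter, hr, true_and] at this
    revert this
    cases s r <;> simp
  have key : ∀ x ∈ E1 F t i, ∀ s' : ι → Bool,
      ((R.erase i).filter fun r => sg x r = true) = ((R.erase i).filter fun r => s' r = true) →
      s' ∈ SP F R := by
    intro x hx s' h
    obtain ⟨y, hy, h1, h2⟩ := C.lift1 hi hx (s' i)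
    refine ⟨y, hy, fun r hr => ?_⟩
    by_cases e : r = i
    · rw [e, h1]
    rw [h2 r e, C.val hx.1 hr]
    congr 1
    have := Finset.ext_iff.mp h r
    simp only [Finset.mem_filter, Finset.mem_erase, ne_eq, e, not_false_eq_true, hr, true_and]
      at this
    revert this
    cases sg x r <;> cases s' r <;> simp
  have := Set.ncard_le_ncard_of_injOn
    (t := ((((R.erase i).powerset.erase A).erase B : Finset (Finset ι)) : Set (Finset ι))) _
    (fun x hx => by
      simp only [Finset.coe_erase, Set.mem_sdiff, Finset.mem_coe, Finset.mem_powerset,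
        Finset.filter_subset, Set.mem_singleton_iff, true_and]
      refine ⟨fun h => hs (key x hx s h), fun h => hs ?_⟩
      obtain ⟨y, hy, h1⟩ := key x hx (fun r => !s r) h
      exact ⟨-y, C.good.neg y hy, fun r hr => by simp [h1 r hr, vl_not]⟩)
    (C.inj hi) (Finset.finite_toSet _)
  rw [Set.ncard_coe_finset, Finset.card_erase_of_mem, Finset.card_erase_of_mem,
    Finset.card_powerset, Finset.card_erase_of_mem hi, hR] at this
  · exact this
  · exact Finset.mem_powerset.mpr (Finset.filter_subset _ _)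
  · exact Finset.mem_erase.mpr ⟨hAB.symm, Finset.mem_powerset.mpr (Finset.filter_subset _ _)⟩

lemma full_fc (hF : Good F) {Q : Finset ι} (hQ : Q.card = 4) {r : ι} (hr : r ∉ Q)
    (ht : ∀ q ∈ Q, t q = 1 / 2) (hs : Supp F (insert r Q)) (full : Full F Q) :
    (E1 F t r).ncard ≤ 8 := by
  obtain ⟨q1, Q', h1, rfl, h3⟩ := Finset.card_eq_succ.mp hQ
  obtain ⟨q2, q3, q4, n23, n24, n34, rfl⟩ := Finset.card_eq_three.mp h3
  simp only [Finset.mem_insert, Finset.mem_singleton, not_or] at h1 hr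
  refine fc hF (Ne.symm hr.1) (Ne.symm hr.2.1) (Ne.symm hr.2.2.1) (Ne.symm hr.2.2.2)
    (ht q1 (by simp)) (ht q2 (by simp)) (ht q3 (by simp)) (ht q4 (by simp))
    (fun x hx s k1 k2 k3 k4 k5 => hs x hx s (by simp [k1, k2, k3, k4, k5])) (fun a b c d => ?_)
  obtain ⟨x, hx, h⟩ := full (fun r => if r = q1 then a else if r = q2 then b else
    if r = q3 then c else d)
  refine ⟨x, hx, ?_, ?_, ?_, ?_⟩
  · simpa using h q1 (by simp)
  · simpa [Ne.symm h1.1] using h q2 (by simp)
  · simpa [Ne.symm h1.2.1, n23.symm] using h q3 (by simp)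
  · simpa [Ne.symm h1.2.2, n24.symm, n34.symm] using h q4 (by simp)

theorem pure (n : ℕ) : ∀ (R : Finset ι) (F : Set (ι → ℝ)) (t : ι → ℝ), R.card = n → 2 ≤ n →
    PureC F t R → (∃ i ∈ R, (E1 F t i).ncard + 2 ≤ 2 * n) ∨ (n = 4 ∧ Full F R) := by
  induction n with
  | zero => intro R F t _ h; omega
  | succ n ih =>
    intro R F t hR hn C
    obtain ⟨i0, hi0⟩ := Finset.card_pos.mp (show 0 < R.card by omega)
    have tr := C.triv hi0
    rw [hR, Nat.add_sub_cancel] at tr
    by_cases h1 : n = 1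
    · subst h1; exact Or.inl ⟨i0, hi0, by omega⟩
    by_cases h2 : n = 2
    · subst h2; exact Or.inl ⟨i0, hi0, by omega⟩
    by_cases h3 : n = 3
    · subst h3
      by_cases hf : Full F R
      · exact Or.inr ⟨rfl, hf⟩
      · have := C.notfull hi0 hR hf
        exact Or.inl ⟨i0, hi0, by omega⟩
    left
    by_contra hcon
    push Not at hcon
    refine core (forb C.good.feas R) (C.h5 fun a ha => by have := hcon a ha; omega) (by omega) ?_
    intro j hj
    have C' : PureC (zer j '' F) (zer j t) (R.erase j) := by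
      refine ⟨good_zer C.good j, supp_zer C.supp j, fun r => ?_, fun r hr => ?_⟩
      · by_cases h : r = j
        · left; rw [h]; simp
        · rw [zer_ne h]; exact C.ht r
      · rw [zer_ne (Finset.ne_of_mem_erase hr)]; exact C.half r (Finset.mem_of_mem_erase hr)
    have hc : (R.erase j).card = n := by rw [Finset.card_erase_of_mem hj]; omega
    rcases ih (R.erase j) _ _ hc (by omega) C' with ⟨i, hi, h⟩ | ⟨h4, hf⟩
    · have hij := Finset.ne_of_mem_erase hi
      have hi' := Finset.mem_of_mem_erase hi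
      have c := count2 C.good t hij
      have := hcon i hi'
      have e : E2 F t j i = E2 F t i j := Set.ext fun x => ⟨e2_symm, e2_symm⟩
      obtain ⟨side, y, K⟩ := C.cube hj hi' hij.symm (by rw [e]; omega)
      exact ⟨i, side, y, K⟩
    · exfalso
      have := full_fc (t := t) C.good (hc.trans h4) (Finset.notMem_erase j R)
        (fun q hq => C.half q (Finset.mem_of_mem_erase hq))
        (by rw [Finset.insert_erase hj]; exact C.supp)
        (fun s => by
          obtain ⟨_, ⟨x, hx, rfl⟩, h⟩ := hf s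
          exact ⟨x, hx, fun r hr => by rw [← h r hr, zer_ne (Finset.ne_of_mem_erase hr)]⟩)
      have := hcon j hj
      omega

end Pool.Agent.H736Z.Heller
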